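import Pool.Agent.Y910.S.K1

/-!
One constant per number field for weighted plane curves, any number of real points at infinity.
-/

open Polynomial Finset NumberField IntermediateField

namespace Pool.Agent.Y910.S

open Pool.Agent.H322R2

theorem one_const' (r p q : ℕ) (hr : 1 ≤ r) (hp : 1 ≤ p) (hq : 1 ≤ q) (hpq : Nat.Coprime p q) :
    ∃ (C : ℕ) (c : IntermediateField ℚ ℝ → ℝ), (∀ L, 1 ≤ c L) ∧
      ∀ G : ℤ[X][X], WN r p q G → Prime G →
      Irreducible ((wl r p q G).map (Int.castRingHom ℚ)) → (wl r p q G).coeff 0 ≠ 0 →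
      ∀ H : ℝ, 1 ≤ H → pn (pn zn) G ≤ H → ∀ a b : ℤ, ev a b G = 0 →
      |(a : ℝ)| ≤ (2 + H) ^ C ∨ ∃ η : ℝ, evf η (wl r p q G) = 0 ∧
        (r ≤ 2 ∨ |(a : ℝ)| ≤ (c ℚ⟮η⟯ * (2 + H)) ^ C) := by
  by_cases hr3 : 3 ≤ r
  · obtain ⟨C, c, hc1, hc⟩ := one_const r p q hr3 hp hq hpq
    refine ⟨C, c, hc1, ?_⟩
    intro G hG hprime hirr _ H hH hGH a b hab
    rcases hc G hG hprime hirr H hH hGH a b hab with h | ⟨η, h1, h2⟩
    · exact Or.inl h
    · exact Or.inr ⟨η, h1, Or.inr h2⟩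
  · obtain ⟨C1, C2, hC1, hBQ⟩ := exists_BQ r p q hr hp hq hpq
    refine ⟨C2 * p, fun _ => 1, fun _ => le_rfl, ?_⟩
    intro G hG hprime hirr hg0 H hH hGH a b hab
    obtain ⟨hgm, hgd⟩ := wl_monic hG
    have hn : nrm (wl r p q G) r (derivative (wl r p q G)) ≠ 0 := by
      apply nrm_ne_zero_of_coprime _ _ hgm hgd
      rw [← derivative_map]
      exact hirr.separable
    have h2H : (1 : ℝ) ≤ 2 + H := by linarith
    obtain ⟨Z, hZ0, hZ⟩ : ∃ Z : ℝ, 0 ≤ Z ∧ Z ^ p = |(a : ℝ)| := by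
      refine ⟨|(a : ℝ)| ^ ((p : ℝ)⁻¹), by positivity, ?_⟩
      rw [← Real.rpow_natCast, ← Real.rpow_mul (abs_nonneg _),
        inv_mul_cancel₀ (by positivity), Real.rpow_one]
    by_cases hlarge : (2 + H) ^ C2 ≤ Z
    swap
    · left
      push Not at hlarge
      rw [← hZ]
      calc Z ^ p ≤ ((2 + H) ^ C2) ^ p := pow_le_pow_left₀ hZ0 hlarge.le _
        _ = (2 + H) ^ (C2 * p) := by rw [← pow_mul]
    right
    obtain ⟨η, hη0, _, _⟩ := hBQ G hG hprime hg0 hn H hH hGH a b hab Z hZ hlarge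
    exact ⟨η, hη0, Or.inl (by omega)⟩

end Pool.Agent.Y910.S
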