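import Pool.Agent.Y910.S.C2

/-!
Analytic part of the two-point argument for weighted curves.
-/

open Polynomial Finset

namespace Pool.Agent.Y910.S

open Pool.Agent.H322R2

/-- splitting off the first `J` terms -/
lemma splitJ {A : Type*} [CommRing A] {N : RingSeminorm A} (σ : A →+* ℝ)
    (hσ : ∀ x, |σ x| ≤ N x) {ρ ρ' r B : ℝ} (hρ : 0 < ρ) (hρ' : 0 ≤ ρ') (hle : ρ' ≤ ρ)
    (hr : 0 < r) (θ : PowerSeries ℝ) (hθ : Bd rn r θ ρ') (u : PowerSeries A) (hu : Bd N ρ u B)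
    (J : ℕ) :
    ∃ R : ℝ, PowerSeries.constantCoeff (sb θ (PowerSeries.map σ u))
      = ∑ j ∈ range J, σ (PowerSeries.coeff j u) * (PowerSeries.constantCoeff θ) ^ j + R ∧
      |R| ≤ (ρ' / ρ) ^ J * B := by
  set u5 : PowerSeries A := PowerSeries.mk fun n => if n < J then 0 else PowerSeries.coeff n u
    with hu5
  have hbd5 : Bd N ρ u5 B := by
    intro K
    refine le_trans ?_ (hu K)
    apply Finset.sum_le_sum
    intro n _
    rw [hu5, PowerSeries.coeff_mk]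
    apply mul_le_mul_of_nonneg_right _ (pow_nonneg hρ.le n)
    split_ifs
    · rw [map_zero]; exact apply_nonneg N _
    · exact le_refl _
  have hbd5' := (hbd5.of_vanish hρ hρ' hle J (fun n hn => by
    rw [hu5, PowerSeries.coeff_mk, if_pos hn])).map σ hσ hρ'
  refine ⟨PowerSeries.constantCoeff (sb θ (PowerSeries.map σ u5)), ?_, ?_⟩
  · have hbu := (hu.of_le hρ' hle).map σ hσ hρ'
    have h1 := (summ hr hθ hbu 0).of_norm
    have h2 := (summ hr hθ hbd5' 0).of_norm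
    rw [← PowerSeries.coeff_zero_eq_constantCoeff_apply,
      ← PowerSeries.coeff_zero_eq_constantCoeff_apply,
      ← PowerSeries.coeff_zero_eq_constantCoeff_apply, sb, sb, PowerSeries.coeff_mk,
      PowerSeries.coeff_mk]
    rw [← h1.sum_add_tsum_nat_add J, ← h2.sum_add_tsum_nat_add J]
    have h3 : ∑ i ∈ range J, PowerSeries.coeff i (PowerSeries.map σ u5) *
        PowerSeries.coeff 0 (θ ^ i) = 0 := by
      apply Finset.sum_eq_zero
      intro i hi
      rw [Finset.mem_range] at hi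
      rw [PowerSeries.coeff_map, hu5, PowerSeries.coeff_mk, if_pos hi, map_zero, zero_mul]
    rw [h3, zero_add]
    congr 1
    · apply Finset.sum_congr rfl
      intro i _
      rw [PowerSeries.coeff_map, coeff_zero_pow]
    · congr 1
      funext i
      rw [PowerSeries.coeff_map, PowerSeries.coeff_map, hu5, PowerSeries.coeff_mk,
        if_neg (by omega)]
  · have := sb_coeff_le hr hθ hbd5' 0
    rw [PowerSeries.coeff_zero_eq_constantCoeff_apply] at this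
    simpa using this

section Main

variable {A : Type*} [CommRing A] {N : RingSeminorm A} {σ : A →+* ℝ}

/-- the auxiliary function on a branch -/
noncomputable def Ust {p q E : ℕ} {B : ℝ} {F : ℤ[X][X]} {a b : ℤ} (P : BQ N σ p q E B F a b)
    (m : ℕ) {k n : ℕ} (T : Fin k × Fin n → ℤ) : PowerSeries A :=
  ∑ s, PowerSeries.C ((T s : ℤ) : A) * mono P m s.2 s.1

lemma bd_Ust (h1 : N 1 ≤ 1) {p q E : ℕ} {B : ℝ} {F : ℤ[X][X]} {a b : ℤ}
    (P : BQ N σ p q E B F a b) (m : ℕ) {k n : ℕ} (hm : p * n + q * k ≤ m)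
    (T : Fin k × Fin n → ℤ) (H : ℝ) (hH : 0 ≤ H) (hT : ∀ s, |(T s : ℝ)| ≤ H) :
    Bd N (1 / B) (Ust P m T) (((k * n : ℕ) : ℝ) * (H * B ^ m)) := by
  have hB := P.hB
  have h2 : ∀ s ∈ (univ : Finset (Fin k × Fin n)),
      Bd N (1 / B) (PowerSeries.C ((T s : ℤ) : A) * mono P m s.2 s.1) (H * B ^ m) := by
    intro s _
    refine ((Bd.C P.ρ_pos.le _).mul P.ρ_pos.le (bd_mono h1 P m s.2 s.1)).mono ?_
    apply mul_le_mul ((N_int_le N h1 _).trans (hT s)) _ (pow_nonneg (by linarith) _) hH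
    apply pow_le_pow_right₀ (by linarith)
    have e1 : (s.1 : ℕ) ≤ q * k := by
      have := s.1.2
      calc (s.1 : ℕ) ≤ 1 * k := by omega
        _ ≤ q * k := Nat.mul_le_mul_right _ P.hq
    have e2 : (s.2 : ℕ) ≤ p * n := by
      have := s.2.2
      calc (s.2 : ℕ) ≤ 1 * n := by omega
        _ ≤ p * n := Nat.mul_le_mul_right _ P.hp
    omega
  refine (Bd.sum univ P.ρ_pos.le _ _ h2).mono ?_
  simp [mul_assoc]

/-- values of the normalised monomials -/
lemma sb_mono (hσ : ∀ x, |σ x| ≤ N x) {p q E : ℕ} {B : ℝ} {F : ℤ[X][X]} {a b : ℤ}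
    (P : BQ N σ p q E B F a b) (m i j : ℕ) (hm : p * i + q * j ≤ m) :
    P.S ^ m * sb P.θ (PowerSeries.map σ (mono P m i j)) =
      (PowerSeries.C (a : ℝ) + PowerSeries.X) ^ i *
        (P.S ^ q * sb P.θ (PowerSeries.map σ P.ωV)) ^ j := by
  have hr := P.r_pos
  have hq := P.q_nonneg
  have hθ := P.hθ
  have hU := (P.hωU.of_le hq P.rad_le).map σ hσ hq
  have hV := (P.hωV.of_le hq P.rad_le).map σ hσ hq
  have hX := (P.hωS.of_le hq P.rad_le).map σ hσ hq
  rw [mono, map_mul, map_mul, map_pow, map_pow, map_pow,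
    sb_mul hr hθ (hX.pow hq rn_one _) ((hU.pow hq rn_one _).mul hq (hV.pow hq rn_one _)),
    sb_mul hr hθ (hU.pow hq rn_one _) (hV.pow hq rn_one _),
    sb_pow hr hq hθ hX, sb_pow hr hq hθ hU, sb_pow hr hq hθ hV, P.hU]
  obtain ⟨e, he⟩ : ∃ e, m = p * i + q * j + e := ⟨m - (p * i + q * j), by omega⟩
  have h3 : m - p * i - q * j = e := by omega
  rw [h3, he, mul_pow, mul_pow, ← pow_mul, ← pow_mul, pow_add, pow_add]
  have h4 : P.S ^ e * (sb P.θ (PowerSeries.map σ P.ωS)) ^ e = 1 := by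
    rw [← mul_pow, P.hSθ, one_pow]
  calc P.S ^ (p * i) * P.S ^ (q * j) * P.S ^ e * ((sb P.θ (PowerSeries.map σ P.ωS)) ^ e *
        (sb P.θ (PowerSeries.map σ P.ωU) ^ i * sb P.θ (PowerSeries.map σ P.ωV) ^ j))
      = (P.S ^ e * (sb P.θ (PowerSeries.map σ P.ωS)) ^ e) * (P.S ^ (p * i) * P.S ^ (q * j) *
        (sb P.θ (PowerSeries.map σ P.ωU) ^ i * sb P.θ (PowerSeries.map σ P.ωV) ^ j)) := by ring
    _ = _ := by rw [h4]; ring

lemma sb_Ust (h1 : N 1 ≤ 1) (hσ : ∀ x, |σ x| ≤ N x) {p q E : ℕ} {B : ℝ} {F : ℤ[X][X]} {a b : ℤ}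
    (P : BQ N σ p q E B F a b) (m : ℕ) {k n : ℕ} (hm : p * n + q * k ≤ m)
    (T : Fin k × Fin n → ℤ) :
    ev (PowerSeries.C (a : ℝ) + PowerSeries.X)
      (P.S ^ q * sb P.θ (PowerSeries.map σ P.ωV)) (boxPoly T)
      = P.S ^ m * sb P.θ (PowerSeries.map σ (Ust P m T)) := by
  have hr := P.r_pos
  have hq := P.q_nonneg
  have hθ := P.hθ
  have hbm : ∀ i j, Bd rn (B / P.Z) (PowerSeries.map σ (mono P m i j)) (B ^ (i + j)) :=
    fun i j => ((bd_mono h1 P m i j).of_le hq P.rad_le).map σ hσ hq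
  have hsum : sb P.θ (PowerSeries.map σ (Ust P m T))
      = ∑ s, PowerSeries.C ((T s : ℤ) : ℝ) * sb P.θ (PowerSeries.map σ (mono P m s.2 s.1)) := by
    rw [Ust, map_sum]
    rw [sb_sum hr hq hθ univ _ (fun s => rn ((T s : ℤ) : ℝ) * B ^ ((s.2 : ℕ) + (s.1 : ℕ)))]
    · apply Finset.sum_congr rfl
      intro s _
      rw [map_mul, PowerSeries.map_C, map_intCast, sb_mul hr hθ (Bd.C hq _) (hbm _ _), sb_C]
    · intro s _
      rw [map_mul, PowerSeries.map_C, map_intCast]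
      exact (Bd.C hq _).mul hq (hbm _ _)
  rw [hsum, ev_boxPoly, Finset.mul_sum]
  apply Finset.sum_congr rfl
  intro s _
  have h3 : p * (s.2 : ℕ) + q * (s.1 : ℕ) ≤ m := by
    have e1 : q * (s.1 : ℕ) ≤ q * k := Nat.mul_le_mul_left _ s.1.2.le
    have e2 : p * (s.2 : ℕ) ≤ p * n := Nat.mul_le_mul_left _ s.2.2.le
    omega
  have h6 : ((T s : ℤ) : PowerSeries ℝ) = PowerSeries.C ((T s : ℤ) : ℝ) := by
    rw [map_intCast]
  rw [h6]
  have h7 := sb_mono hσ P m s.2 s.1 h3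
  calc PowerSeries.C ((T s : ℤ) : ℝ) * (PowerSeries.C (a : ℝ) + PowerSeries.X) ^ (s.2 : ℕ) *
        (P.S ^ q * sb P.θ (PowerSeries.map σ P.ωV)) ^ (s.1 : ℕ)
      = PowerSeries.C ((T s : ℤ) : ℝ) * ((PowerSeries.C (a : ℝ) + PowerSeries.X) ^ (s.2 : ℕ) *
        (P.S ^ q * sb P.θ (PowerSeries.map σ P.ωV)) ^ (s.1 : ℕ)) := by ring
    _ = PowerSeries.C ((T s : ℤ) : ℝ) *
        (P.S ^ m * sb P.θ (PowerSeries.map σ (mono P m s.2 s.1))) := by rw [h7]
    _ = _ := by ring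

/-- values of the monomials at the second point -/
lemma mono_val (hσ : ∀ x, |σ x| ≤ N x) {p q E : ℕ} {B : ℝ} {F : ℤ[X][X]} {a b : ℤ}
    (P : BQ N σ p q E B F a b) (m i j : ℕ) (hm : p * i + q * j ≤ m) :
    ((a ^ i * b ^ j : ℤ) : ℝ) = (PowerSeries.constantCoeff P.S) ^ m *
      PowerSeries.constantCoeff (sb P.θ (PowerSeries.map σ (mono P m i j))) := by
  have h := congrArg PowerSeries.constantCoeff (sb_mono hσ P m i j hm)
  rw [map_mul, map_pow, map_mul (PowerSeries.constantCoeff) (_ ^ i), map_pow, map_pow, P.hV] at h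
  rw [h]
  have hc : PowerSeries.constantCoeff (PowerSeries.C (a : ℝ) + PowerSeries.X : PowerSeries ℝ)
      = (a : ℝ) := by simp
  rw [hc]
  push_cast
  ring

end Main

end Pool.Agent.Y910.S
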