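import Pool.Agent.Y910.S.C1

/-!
Arithmetic part of the two-point argument for weighted curves.
-/

open Polynomial Finset

namespace Pool.Agent.Y910.S

open Pool.Agent.H322R2

/-- Arithmetic part: the auxiliary function has small order of vanishing at `(a,b)`. -/
theorem arith_part {M : Type*} [Fintype M] [DecidableEq M] (F : ℤ[X][X]) (d E n : ℕ) (hd : 0 < d)
    (hm : F.Monic) (hFd : F.natDegree = d)
    (hF : Prime F) (hFx : ∀ j, (F.coeff j).natDegree ≤ E) (a b : ℤ) (ha : a ≠ 0)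
    (hab : ev a b F = 0) (hD : ev a b (derivative F) ≠ 0) (hn : 0 < n)
    (T : M → Fin d × Fin n → ℤ) (c : M → ℤ) (bU : ℝ) (hbU : 1 ≤ bU)
    (hU : ∀ μ, pn (pn zn) (boxPoly (T μ)) ≤ bU)
    (hV : ∑ μ, C (C (c μ)) * boxPoly (T μ) ≠ 0) :
    ∃ Y : PowerSeries ℤ, PowerSeries.X ∣ Y ∧
      ev (PowerSeries.C a + PowerSeries.C ((ev a b (derivative F)) ^ 2) * PowerSeries.X)
        (PowerSeries.C b + PowerSeries.C (ev a b (derivative F)) * Y) F = 0 ∧
      ∃ o : ℕ, PowerSeries.coeff o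
        (ev (PowerSeries.C a + PowerSeries.C ((ev a b (derivative F)) ^ 2) * PowerSeries.X)
        (PowerSeries.C b + PowerSeries.C (ev a b (derivative F)) * Y)
        (∑ μ, C (C (c μ)) * boxPoly (T μ))) ≠ 0 ∧
        |(a : ℝ)| ^ o ≤ |(a : ℝ)| ^ (Fintype.card M ^ d) *
          (((Fintype.card M ^ d).factorial : ℕ) *
          (((d * (n + E * d) : ℕ) : ℝ) ^ (Fintype.card M ^ d) *
            (d.factorial * (bU * (1 + pn (pn zn) F) ^ d) ^ d)) ^ (Fintype.card M ^ d)) := by
  obtain ⟨D, hDD⟩ : ∃ D, D = ev a b (derivative F) := ⟨_, rfl⟩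
  rw [← hDD] at hD ⊢
  obtain ⟨Y, hXY, hFY, -⟩ := hensel_ev (A := ℤ) F (d + 1) (E + 1) (by omega)
    (fun j => by have := hFx j; omega) a b hab
  rw [← hDD] at hFY
  refine ⟨Y, hXY, hFY, ?_⟩
  set V : ℤ[X][X] := ∑ μ, C (C (c μ)) * boxPoly (T μ) with hVdef
  set x : PowerSeries ℤ := PowerSeries.C a + PowerSeries.C (D ^ 2) * PowerSeries.X with hx
  set y : PowerSeries ℤ := PowerSeries.C b + PowerSeries.C D * Y with hy
  have hVdeg : V.degree < d := by
    rw [hVdef]
    refine (degree_sum_le _ _).trans_lt ?_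
    rw [Finset.sup_lt_iff (by exact WithBot.bot_lt_coe d)]
    intro μ _
    refine ((degree_mul_le _ _).trans ?_).trans_lt (degree_boxPoly (T μ) hd)
    calc (C (C (c μ)) : ℤ[X][X]).degree + (boxPoly (T μ)).degree
        ≤ 0 + (boxPoly (T μ)).degree := by gcongr; exact degree_C_le
      _ = _ := zero_add _
  have hnd : ¬ F ∣ V := by
    intro h
    have h1 := degree_le_of_dvd h hV
    rw [degree_eq_natDegree hm.ne_zero, hFd] at h1
    exact absurd (lt_of_le_of_lt h1 hVdeg) (lt_irrefl _)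
  have hN := nrm_ne_zero F d hm hFd hF V hnd
  have hdv : ev x y V ∣ evf x (nrm F d V) :=
    dvd_nrm (evf x) y F d hd hm hFd (by rw [← ev_apply]; exact hFY) V
  have hD2 : D ^ 2 ≠ 0 := pow_ne_zero _ hD
  have hne := evf_ne_zero a (D ^ 2) hD2 _ hN
  have hg : ev x y V ≠ 0 := by
    intro h0
    rw [h0, zero_dvd_iff] at hdv
    exact hne hdv
  obtain ⟨o, ho⟩ : ∃ o, PowerSeries.coeff o (ev x y V) ≠ 0 ∧
      ∀ i < o, PowerSeries.coeff i (ev x y V) = 0 := by
    have hex : ∃ o, PowerSeries.coeff o (ev x y V) ≠ 0 := by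
      by_contra hcon
      push_neg at hcon
      exact hg (PowerSeries.ext hcon)
    classical
    refine ⟨Nat.find hex, Nat.find_spec hex, ?_⟩
    intro i hi
    by_contra h
    exact Nat.find_min hex hi h
  refine ⟨o, ho.1, ?_⟩
  have hXo : PowerSeries.X ^ o ∣ evf x (nrm F d V) :=
    (PowerSeries.X_pow_dvd_iff.2 ho.2).trans hdv
  have hdvN : (X - C a) ^ o ∣ nrm F d V := dvd_of_dvd_evf a (D ^ 2) hD2 _ o hXo
  have hsum := nrm_sum F d (fun μ => (C (c μ) : ℤ[X])) (fun μ => boxPoly (T μ))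
  rw [← hVdef] at hsum
  set f : (Fin d → M) → ℤ[X] := fun φ =>
    (Matrix.of fun i j => (aeval (H322R2.comp F d) (boxPoly (T (φ i)))) i j).det with hf
  have hsum' : nrm F d V = ∑ φ, C (∏ i, c (φ i)) * f φ := by
    rw [hsum]
    apply Finset.sum_congr rfl
    intro φ _
    rw [map_prod]
  have hfpn : 0 ≤ pn (pn zn) F := apply_nonneg _ _
  have hent : ∀ μ i j, pn zn ((aeval (H322R2.comp F d) (boxPoly (T μ))) i j)
      ≤ bU * (1 + pn (pn zn) F) ^ d := by
    intro μ i j
    refine (aeval_comp_entry_le (pn zn) pnz_one F d _ d (natDegree_boxPoly _ hd) i j).trans ?_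
    exact mul_le_mul_of_nonneg_right (hU μ) (by positivity)
  have hbase : 1 ≤ bU * (1 + pn (pn zn) F) ^ d := by
    have : 1 ≤ (1 + pn (pn zn) F) ^ d := one_le_pow₀ (by linarith)
    nlinarith
  have hcard : Fintype.card (Fin d → M) = Fintype.card M ^ d := by simp
  have := mult_bound f (fun φ => ∏ i, c (φ i)) (d.factorial * (bU * (1 + pn (pn zn) F) ^ d) ^ d)
    (by
      have h1 : (1 : ℝ) ≤ d.factorial := by exact_mod_cast Nat.factorial_pos d
      have h2 : 1 ≤ (bU * (1 + pn (pn zn) F) ^ d) ^ d := one_le_pow₀ hbase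
      nlinarith)
    (d * (n + E * d)) (by
      have : 0 < d * (n + E * d) := by positivity
      omega)
    (by
      intro φ
      apply natDegree_det_le
      intro i j
      exact natDegree_aeval_comp F d E hFx _ d n (natDegree_boxPoly _ hd)
        (natDegree_coeff_boxPoly _) i j)
    (by
      intro φ
      have := det_le (pn zn) pnz_one
        (Matrix.of fun i j => (aeval (H322R2.comp F d) (boxPoly (T (φ i)))) i j)
        (bU * (1 + pn (pn zn) F) ^ d) (fun i j => hent _ i j)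
      simpa using this)
    (by rw [← hsum']; exact hN) a ha o (by rw [← hsum']; exact hdvN)
  rw [hcard] at this
  exact this

/-- An integer point on `F = 0` lying on a curve of lower degree with small coefficients is
small. -/
lemma small_box (F : ℤ[X][X]) (d n : ℕ) (hd : 0 < d) (hm : F.Monic) (hFd : F.natDegree = d)
    (hF : Prime F) (a b : ℤ) (ha : a ≠ 0) (hab : ev a b F = 0) (T : Fin d × Fin n → ℤ)
    (hT0 : T ≠ 0) (hG : ev a b (boxPoly T) = 0) (H : ℝ) (hT : ∀ μ, |(T μ : ℝ)| ≤ H) :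
    |(a : ℝ)| ≤ d.factorial * (((d * n : ℕ) : ℝ) * H * (1 + pn (pn zn) F) ^ d) ^ d := by
  have hne : boxPoly T ≠ 0 := fun h => hT0 ((boxPoly_eq_zero_iff T).1 h)
  have hnd : ¬ F ∣ boxPoly T := by
    intro h
    have h1 := degree_le_of_dvd h hne
    rw [degree_eq_natDegree hm.ne_zero, hFd] at h1
    exact absurd (lt_of_le_of_lt h1 (degree_boxPoly T hd)) (lt_irrefl _)
  have h1 := nrm_ne_zero F d hm hFd hF (boxPoly T) hnd
  have h2 := dvd_nrm (evf a) b F d hd hm hFd (by rw [← ev_apply]; exact hab) (boxPoly T)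
  rw [← ev_apply, hG] at h2
  have h3 : evf a (nrm F d (boxPoly T)) = 0 := zero_dvd_iff.1 h2
  have h4 : (X - C a) ^ 1 ∣ nrm F d (boxPoly T) := by
    rw [pow_one, dvd_iff_isRoot, IsRoot]
    have : evf a = (Polynomial.evalRingHom a : ℤ[X] →+* ℤ) := by
      apply Polynomial.ringHom_ext'
      · exact RingHom.ext_int _ _
      · simp
    rw [this] at h3
    simpa using h3
  have h5 := abs_pow_le_of_dvd _ h1 a ha 1 h4
  rw [pow_one] at h5
  refine h5.trans ((nrm_le (pn zn) pnz_one F d (boxPoly T) d (natDegree_boxPoly T hd)).trans ?_)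
  apply mul_le_mul_of_nonneg_left _ (by positivity)
  have h6 : 0 ≤ pn (pn zn) F := apply_nonneg _ _
  apply pow_le_pow_left₀ (mul_nonneg (apply_nonneg _ _) (by positivity))
  have h7 := pn_boxPoly_le T H hT
  push_cast
  exact mul_le_mul_of_nonneg_right h7 (by positivity)

end Pool.Agent.Y910.S
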