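import Pool.Agent.Y910.S.H4
import Pool.Agent.Y910.S.C2

/-!
Polynomially bounded constants, nonvanishing of the derivative.
-/

open Polynomial Finset

namespace Pool.Agent.Y910.S

open Pool.Agent.H322R2

/-- polynomially bounded nonnegative functions of the height -/
def PB (f : ℝ → ℝ) : Prop := ∃ c : ℕ, ∀ H : ℝ, 1 ≤ H → 0 ≤ f H ∧ f H ≤ (2 + H) ^ c

lemma PB.const (k : ℝ) (hk : 0 ≤ k) : PB (fun _ => k) := by
  obtain ⟨n, hn⟩ := exists_nat_gt k
  refine ⟨n, fun H hH => ⟨hk, ?_⟩⟩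
  have h1 : (n : ℝ) ≤ 2 ^ n := by exact_mod_cast Nat.lt_two_pow_self.le
  calc k ≤ 2 ^ n := by linarith
    _ ≤ (2 + H) ^ n := pow_le_pow_left₀ (by norm_num) (by linarith) _

lemma PB.id : PB (fun H => H) := ⟨1, fun H hH => ⟨by linarith, by rw [pow_one]; linarith⟩⟩

lemma PB.mul {f g : ℝ → ℝ} (hf : PB f) (hg : PB g) : PB (fun H => f H * g H) := by
  obtain ⟨c, hc⟩ := hf
  obtain ⟨e, he⟩ := hg
  refine ⟨c + e, fun H hH => ⟨mul_nonneg (hc H hH).1 (he H hH).1, ?_⟩⟩
  rw [pow_add]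
  exact mul_le_mul (hc H hH).2 (he H hH).2 (he H hH).1 (by positivity)

lemma PB.add {f g : ℝ → ℝ} (hf : PB f) (hg : PB g) : PB (fun H => f H + g H) := by
  obtain ⟨c, hc⟩ := hf
  obtain ⟨e, he⟩ := hg
  refine ⟨c + e + 1, fun H hH => ⟨add_nonneg (hc H hH).1 (he H hH).1, ?_⟩⟩
  have h2 : (1 : ℝ) ≤ 2 + H := by linarith
  have h3 : f H ≤ (2 + H) ^ (c + e) := (hc H hH).2.trans (pow_le_pow_right₀ h2 (by omega))
  have h4 : g H ≤ (2 + H) ^ (c + e) := (he H hH).2.trans (pow_le_pow_right₀ h2 (by omega))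
  rw [pow_succ]
  have h5 : 0 ≤ (2 + H) ^ (c + e) := by positivity
  nlinarith

lemma PB.pow {f : ℝ → ℝ} (hf : PB f) (n : ℕ) : PB (fun H => f H ^ n) := by
  obtain ⟨c, hc⟩ := hf
  refine ⟨c * n, fun H hH => ⟨pow_nonneg (hc H hH).1 _, ?_⟩⟩
  rw [pow_mul]
  exact pow_le_pow_left₀ (hc H hH).1 (hc H hH).2 n

lemma PB.cD (d : ℕ) : PB (fun H => H322R2.cD d H) := by
  have h1 : PB (fun H => (1 : ℝ) + H) := (PB.const 1 (by norm_num)).add PB.id
  have h2 := (((PB.const (d : ℝ) (by positivity)).mul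
    ((PB.const (d.factorial : ℝ) (by positivity)).mul
      ((((PB.const (d : ℝ) (by positivity)).mul PB.id).mul (h1.pow d)).pow d))).mul (h1.pow d))
  exact h2

/-- an integer point at which another polynomial vanishes is small -/
lemma small_gen (F V : ℤ[X][X]) (d K : ℕ) (hd : 0 < d) (hm : F.Monic) (hFd : F.natDegree = d)
    (hF : Prime F) (a b : ℤ) (ha : a ≠ 0) (hab : ev a b F = 0) (hnd : ¬ F ∣ V)
    (hVK : V.natDegree ≤ K) (hG : ev a b V = 0) :
    |(a : ℝ)| ≤ d.factorial * (pn (pn zn) V * (1 + pn (pn zn) F) ^ K) ^ d := by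
  have h1 := nrm_ne_zero F d hm hFd hF V hnd
  have h2 := dvd_nrm (evf a) b F d hd hm hFd (by rw [← ev_apply]; exact hab) V
  rw [← ev_apply, hG] at h2
  have h3 : evf a (nrm F d V) = 0 := zero_dvd_iff.1 h2
  have h4 : (X - C a) ^ 1 ∣ nrm F d V := by
    rw [pow_one, dvd_iff_isRoot, IsRoot]
    have : evf a = (Polynomial.evalRingHom a : ℤ[X] →+* ℤ) := by
      apply Polynomial.ringHom_ext'
      · exact RingHom.ext_int _ _
      · simp
    rw [this] at h3
    simpa using h3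
  have h5 := abs_pow_le_of_dvd _ h1 a ha 1 h4
  rw [pow_one] at h5
  exact h5.trans (nrm_le (pn zn) pnz_one F d V K hVK)

/-- nonvanishing of the derivative at large points -/
lemma der_ne_zero {r p q : ℕ} {G : ℤ[X][X]} {H : ℝ} (hG : WN r p q G) (hp : 1 ≤ p) (hr : 1 ≤ r)
    (hprime : Prime G) (hH : 1 ≤ H) (hGH : pn (pn zn) G ≤ H) (a b : ℤ) (hab : ev a b G = 0)
    (hlarge : (r * p).factorial * (((r * p : ℕ) : ℝ) * H * (1 + H) ^ (r * p)) ^ (r * p)
      < |(a : ℝ)|) : ev a b (derivative G) ≠ 0 := by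
  intro h0
  have hD : 0 < r * p := Nat.mul_pos hr hp
  have ha : a ≠ 0 := by
    rintro rfl
    simp only [Int.cast_zero, abs_zero] at hlarge
    have : (0 : ℝ) ≤ (r * p).factorial * (((r * p : ℕ) : ℝ) * H * (1 + H) ^ (r * p)) ^ (r * p) := by
      positivity
    linarith
  have hnd : ¬ G ∣ derivative G := by
    intro h
    have h1 : derivative G ≠ 0 := by
      intro h2
      have := natDegree_eq_zero_of_derivative_eq_zero h2
      rw [hG.2.1] at this
      omega
    have h2 := natDegree_le_of_dvd h h1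
    have h3 := natDegree_derivative_lt (p := G) (by rw [hG.2.1]; omega)
    omega
  have h1 := small_gen G (derivative G) (r * p) (r * p) hD hG.1 hG.2.1 hprime a b ha hab hnd
    ((natDegree_derivative_le _).trans (by rw [hG.2.1]; omega)) h0
  have h2 : pn (pn zn) (derivative G) ≤ ((r * p : ℕ) : ℝ) * H := by
    refine (pn_derivative_le (pn zn) G).trans ?_
    rw [hG.2.1]
    exact mul_le_mul_of_nonneg_left hGH (by positivity)
  have h3 : ((r * p).factorial : ℝ) * (pn (pn zn) (derivative G) * (1 + pn (pn zn) G) ^ (r * p))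
      ^ (r * p) ≤ (r * p).factorial * (((r * p : ℕ) : ℝ) * H * (1 + H) ^ (r * p)) ^ (r * p) := by
    have h4 : 0 ≤ pn (pn zn) (derivative G) := apply_nonneg _ _
    have h5 : 0 ≤ pn (pn zn) G := apply_nonneg _ _
    gcongr
  linarith

/-- size of the derivative -/
lemma der_le {r p q : ℕ} {G : ℤ[X][X]} {H : ℝ} (hG : WN r p q G) (hp : 1 ≤ p)
    (hr : 1 ≤ r) (hH : 1 ≤ H) (hGH : pn (pn zn) G ≤ H) (a b : ℤ) (hab : ev a b G = 0) (Z : ℝ)
    (hZ1 : 1 ≤ Z) (hZ : Z ^ p = |(a : ℝ)|) (hlarge : ((r * p : ℕ) : ℝ) * H * H ^ (r * p) ≤ Z) :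
    |((ev a b (derivative G) : ℤ) : ℝ)| ≤ |(a : ℝ)| ^ (q * r + 1) := by
  have hb := abs_b_le' hG hp hr hH hGH a b hab Z hZ1 hZ
  have h3 := map_ev (Int.castRingHom ℝ) a b (derivative G)
  simp only [eq_intCast] at h3
  rw [h3]
  have hdG : (derivative G).natDegree < r * p + 1 := by
    have := natDegree_derivative_le G
    rw [hG.2.1] at this
    omega
  have hdm : ∀ j, ((derivative G).coeff j).natDegree < q * r + 1 := by
    intro j
    rw [coeff_derivative]
    have h4 : (G.coeff (j + 1) * ((j : ℤ[X]) + 1)).natDegree ≤ (G.coeff (j + 1)).natDegree := by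
      have h5 : G.coeff (j + 1) * ((j : ℤ[X]) + 1) = ((j + 1 : ℕ) : ℤ[X]) * G.coeff (j + 1) := by
        push_cast; ring
      rw [h5]
      refine natDegree_mul_le.trans ?_
      rw [natDegree_natCast, zero_add]
    have := natDegree_coeff_le hG hp (j + 1)
    omega
  rw [ev_sum _ _ _ hdG hdm]
  refine (Finset.abs_sum_le_sum_abs _ _).trans ?_
  have h4 : ∀ j ∈ range (r * p + 1), |∑ i ∈ range (q * r + 1),
      ((((derivative G).coeff j).coeff i : ℤ) : ℝ) * (a : ℝ) ^ i * (b : ℝ) ^ j|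
      ≤ ∑ i ∈ range (q * r + 1), |((((derivative G).coeff j).coeff i : ℤ) : ℝ)| *
        (H ^ (r * p) * Z ^ (p * q * r)) := by
    intro j hj
    rw [Finset.mem_range] at hj
    refine (Finset.abs_sum_le_sum_abs _ _).trans ?_
    apply Finset.sum_le_sum
    intro i _
    rw [mul_assoc, abs_mul]
    by_cases hc : ((derivative G).coeff j).coeff i = 0
    · rw [hc]; simp
    · apply mul_le_mul_of_nonneg_left _ (abs_nonneg _)
      have h5 : (G.coeff (j + 1)).coeff i ≠ 0 := by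
        intro h6
        apply hc
        rw [coeff_derivative]
        have h7 : G.coeff (j + 1) * ((j : ℤ[X]) + 1) = ((j + 1 : ℕ) : ℤ[X]) * G.coeff (j + 1) := by
          push_cast; ring
        rw [h7, ← C_eq_natCast, coeff_C_mul, h6, mul_zero]
      have h8 := hG.2.2 _ _ h5
      rw [abs_mul, abs_pow, abs_pow, ← hZ, ← pow_mul]
      have h9 : |(b : ℝ)| ^ j ≤ H ^ (r * p) * Z ^ (q * j) := by
        calc |(b : ℝ)| ^ j ≤ (H * Z ^ q) ^ j := pow_le_pow_left₀ (abs_nonneg _) hb _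
          _ = H ^ j * Z ^ (q * j) := by rw [mul_pow, ← pow_mul]
          _ ≤ H ^ (r * p) * Z ^ (q * j) := by
              apply mul_le_mul_of_nonneg_right _ (by positivity)
              exact pow_le_pow_right₀ hH (by omega)
      calc Z ^ (p * i) * |(b : ℝ)| ^ j ≤ Z ^ (p * i) * (H ^ (r * p) * Z ^ (q * j)) := by gcongr
        _ = H ^ (r * p) * Z ^ (p * i + q * j) := by rw [pow_add]; ring
        _ ≤ H ^ (r * p) * Z ^ (p * q * r) := by
            apply mul_le_mul_of_nonneg_left _ (by positivity)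
            apply pow_le_pow_right₀ hZ1
            have : q * (j + 1) = q * j + q := by ring
            omega
  refine (Finset.sum_le_sum h4).trans ?_
  have h5 : ∑ j ∈ range (r * p + 1), ∑ i ∈ range (q * r + 1),
      |((((derivative G).coeff j).coeff i : ℤ) : ℝ)| * (H ^ (r * p) * Z ^ (p * q * r))
      = pn (pn zn) (derivative G) * (H ^ (r * p) * Z ^ (p * q * r)) := by
    rw [pn2_eq _ _ _ hdG hdm, Finset.sum_mul]
    apply Finset.sum_congr rfl
    intro j _
    rw [Finset.sum_mul]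
  rw [h5]
  have h2 : pn (pn zn) (derivative G) ≤ ((r * p : ℕ) : ℝ) * H := by
    refine (pn_derivative_le (pn zn) G).trans ?_
    rw [hG.2.1]
    exact mul_le_mul_of_nonneg_left hGH (by positivity)
  calc pn (pn zn) (derivative G) * (H ^ (r * p) * Z ^ (p * q * r))
      ≤ (((r * p : ℕ) : ℝ) * H) * (H ^ (r * p) * Z ^ (p * q * r)) :=
        mul_le_mul_of_nonneg_right h2 (by positivity)
    _ = (((r * p : ℕ) : ℝ) * H * H ^ (r * p)) * Z ^ (p * q * r) := by ring
    _ ≤ Z * Z ^ (p * q * r) := mul_le_mul_of_nonneg_right hlarge (by positivity)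
    _ = Z ^ (p * q * r + 1) := by rw [pow_succ]; ring
    _ ≤ Z ^ (p * (q * r + 1)) := by
        apply pow_le_pow_right₀ hZ1
        have : p * (q * r + 1) = p * q * r + p := by ring
        omega
    _ = |(a : ℝ)| ^ (q * r + 1) := by rw [← hZ, ← pow_mul]

end Pool.Agent.Y910.S
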