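import Pool.Agent.Y910.S.H6

/-!
Branch data at a large integer point.
-/

open Polynomial Finset

namespace Pool.Agent.Y910.S

open Pool.Agent.H322R2

lemma PB.one_add : PB (fun H => (1 : ℝ) + H) := (PB.const 1 (by norm_num)).add PB.id

lemma PB.le {f : ℝ → ℝ} (hf : PB f) : ∃ c : ℕ, ∀ H : ℝ, 1 ≤ H → f H ≤ (2 + H) ^ c := by
  obtain ⟨c, hc⟩ := hf
  exact ⟨c, fun H hH => (hc H hH).2⟩

lemma PB_nd (r p q α : ℕ) : PB (nd r p q α) := by
  have h := ((PB.const (p : ℝ) (by positivity)).mul (PB.one_add.pow (α * q * r + 1))).mul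
    (((PB.const (r : ℝ) (by positivity)).mul PB.id).mul (PB.one_add.pow r))
  exact h

lemma PB_Sc (r p q α β : ℕ) : PB (Sc r p q α β) := by
  have h := (PB.id.mul (PB.one_add.pow (α * (q * r) + β * (r * p)))).mul
    (PB.const ((2 : ℝ) ^ (r * p)) (by positivity))
  exact h

lemma PB_TT (r p q α β : ℕ) : PB (TT r p q α β) := by
  have h := (((PB.const 1 (by norm_num)).add (PB_nd r p q α)).pow
    (2 * (p * q * r + 1) + (r * p + 1))).mul (PB_Sc r p q α β)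
  exact h

lemma PB_dd (r q α : ℕ) : PB (dd r q α) := by
  have h := ((PB.id.pow (r + 1)).pow (α * q * r + 1)).mul (PB.cD r)
  exact h

lemma PB_BB (r p q α β : ℕ) : PB (BB r p q α β) := by
  have h := ((((((PB.const 2 (by norm_num)).add PB.id).add (PB.one_add.pow α)).add
    ((PB.const 2 (by norm_num)).mul (PB.one_add.pow β))).add
    ((PB.const 4 (by norm_num)).mul ((PB_TT r p q α β).pow 2))).add
    ((PB.const 2 (by norm_num)).mul ((PB.id.pow (r + 1)).pow α))).add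
    (((PB.const 2 (by norm_num)).mul ((PB_dd r q α).pow 2)).mul (PB.id.pow α))
  exact h

lemma PB_cS (d : ℕ) : PB (fun H => H322R2.cS d H) := PB.id.mul (PB.one_add.pow d)

lemma PB_cRi (d : ℕ) : PB (fun H => 1 / H322R2.cR d H) := by
  have h := (((PB.const 2 (by norm_num)).mul (PB.cD d)).mul
    (PB.const ((d : ℝ) + 1) (by positivity))).mul (PB_cS d)
  have e : (fun H => 1 / H322R2.cR d H)
      = fun H => 2 * H322R2.cD d H * ((d : ℝ) + 1) * H322R2.cS d H := by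
    funext H
    unfold H322R2.cR
    rw [one_div_one_div]
  rw [e]
  exact h

/-- the threshold for the selection of the root -/
noncomputable def thr (r p q α β : ℕ) (H : ℝ) : ℝ :=
  H * H ^ (r * p) * (2 * (H ^ (r + 1) * (2 * TT r p q α β H * dd r q α H) *
    (1 / H322R2.cR r H))) ^ r

lemma PB_thr (r p q α β : ℕ) : PB (thr r p q α β) := by
  have h := (PB.id.mul (PB.id.pow (r * p))).mul
    (((PB.const 2 (by norm_num)).mul (((PB.id.pow (r + 1)).mul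
      (((PB.const 2 (by norm_num)).mul (PB_TT r p q α β)).mul (PB_dd r q α))).mul
        (PB_cRi r))).pow r)
  exact h

lemma exists_bez (p q : ℕ) (hp : 1 ≤ p) (hq : 1 ≤ q) (hpq : Nat.Coprime p q) :
    ∃ α β : ℕ, β * p = α * q + 1 := by
  obtain ⟨u, v, huv⟩ := Nat.isCoprime_iff_coprime.2 hpq
  obtain ⟨k, hk⟩ : ∃ k : ℤ, k = |u| + |v| := ⟨_, rfl⟩
  have hpZ : (1 : ℤ) ≤ p := by exact_mod_cast hp
  have hqZ : (1 : ℤ) ≤ q := by exact_mod_cast hq
  have hk0 : 0 ≤ k := by rw [hk]; positivity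
  have h1 : 0 ≤ u + k * q := by
    have h2 : k * 1 ≤ k * q := mul_le_mul_of_nonneg_left hqZ hk0
    have h3 := neg_abs_le u
    have h4 := abs_nonneg v
    linarith
  have h2 : 0 ≤ -v + k * p := by
    have h2 : k * 1 ≤ k * p := mul_le_mul_of_nonneg_left hpZ hk0
    have h3 := le_abs_self v
    have h4 := abs_nonneg u
    linarith
  obtain ⟨β, hβ⟩ := Int.eq_ofNat_of_zero_le h1
  obtain ⟨α, hα⟩ := Int.eq_ofNat_of_zero_le h2
  refine ⟨α, β, ?_⟩
  have h3 : ((β * p : ℕ) : ℤ) = ((α * q + 1 : ℕ) : ℤ) := by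
    push_cast
    rw [← hβ, ← hα]
    linear_combination huv
  exact_mod_cast h3

theorem exists_BQ (r p q : ℕ) (hr : 1 ≤ r) (hp : 1 ≤ p) (hq : 1 ≤ q) (hpq : Nat.Coprime p q) :
    ∃ C1 C2 : ℕ, 1 ≤ C1 ∧ ∀ G : ℤ[X][X], WN r p q G → Prime G → (wl r p q G).coeff 0 ≠ 0 →
      nrm (wl r p q G) r (derivative (wl r p q G)) ≠ 0 → ∀ H : ℝ, 1 ≤ H → pn (pn zn) G ≤ H →
      ∀ a b : ℤ, ev a b G = 0 → ∀ Z : ℝ, Z ^ p = |(a : ℝ)| → (2 + H) ^ C2 ≤ Z →
      ∃ η : ℝ, evf η (wl r p q G) = 0 ∧ |η| ≤ H ∧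
        ∀ {A : Type} [CommRing A] (N : RingSeminorm A) (σ : A →+* ℝ), N 1 ≤ 1 →
          (∀ x, |σ x| ≤ N x) → ∀ τ : A, evf τ (wl r p q G) = 0 → σ τ = η → N τ ≤ 1 + H →
          ∃ Q : BQ N σ p q (q * r + 1) ((2 + H) ^ C1) G a b, Q.Z = Z := by
  -- Bezout exponents
  obtain ⟨α, β, hαβ⟩ := exists_bez p q hp hq hpq
  obtain ⟨C1, hC1⟩ := (PB_BB r p q α β).le
  obtain ⟨c3, hc3⟩ := (PB_thr r p q α β).le
  obtain ⟨c4, hc4⟩ := (((PB.const 8 (by norm_num)).mul ((PB_TT r p q α β).pow 2)).mul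
    ((PB_dd r q α).pow 2) |>.mul (PB.id.pow α)).le
  obtain ⟨c5, hc5⟩ := ((PB.const ((r * p).factorial : ℝ) (by positivity)).mul
    ((((PB.const ((r * p : ℕ) : ℝ) (by positivity)).mul PB.id).mul
      (PB.one_add.pow (r * p))).pow (r * p))).le
  obtain ⟨c6, hc6⟩ := (((PB.const ((r * p : ℕ) : ℝ) (by positivity)).mul PB.id).mul
    (PB.id.pow (r * p))).le
  refine ⟨C1 + 1, 2 * (C1 + 1) + c3 + c4 + (c5 + 1) + c6, by omega, ?_⟩
  intro G hG hprime hg0 hn H hH hGH a b hab Z hZ hZbig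
  have h2H : (1 : ℝ) < 2 + H := by linarith
  have hpw : ∀ m n : ℕ, m ≤ n → (2 + H : ℝ) ^ m ≤ (2 + H) ^ n := fun m n h =>
    pow_le_pow_right₀ h2H.le h
  have hZ1 : 1 ≤ Z := (one_le_pow₀ h2H.le).trans hZbig
  obtain ⟨hgm, hgd⟩ := wl_monic hG
  have hpg : pn zn (wl r p q G) ≤ H := (pn_wl_le hp hq hG).trans hGH
  have hT1 : 2 ≤ TT r p q α β H := by
    have h1 := nd_le_TT (q := q) (α := α) (β := β) hr hp hH
    have h2 := one_le_nd' (q := q) (α := α) hr hp hH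
    linarith
  have hd1 := one_le_dd (q := q) (α := α) hr hH
  have hR := cR_pos hr hH
  have hR2 := cR_le hr hH
  obtain ⟨W, hW⟩ : ∃ W, W = H ^ (r + 1) * (2 * TT r p q α β H * dd r q α H) := ⟨_, rfl⟩
  have hW1 : 1 ≤ W := by
    rw [hW]
    exact one_le_mul_of_one_le_of_one_le (one_le_pow₀ hH)
      (one_le_mul_of_one_le_of_one_le (by linarith) hd1)
  have hW0 : 0 < W := by linarith
  obtain ⟨ρ, hρ⟩ : ∃ ρ, ρ = H322R2.cR r H / W := ⟨_, rfl⟩
  have hρ0 : 0 < ρ := by rw [hρ]; positivity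
  have hρR : ρ ≤ H322R2.cR r H := by rw [hρ]; exact div_le_self hR.le hW1
  have hsm := wl_small hG hp hq hpq hr hH hGH a b hab Z hZ1 hZ
  have hZ0 : 0 < Z := by linarith
  have hsmall : |evf ((b : ℝ) ^ p / (a : ℝ) ^ q) (wl r p q G)| ≤ (ρ / 2) ^ r := by
    have h1 : |evf ((b : ℝ) ^ p / (a : ℝ) ^ q) (wl r p q G)| ≤ H * H ^ (r * p) / Z := by
      rw [le_div_iff₀ hZ0]; exact hsm
    refine h1.trans ?_
    rw [div_le_iff₀ hZ0]
    have h2 : thr r p q α β H ≤ Z := (hc3 H hH).trans ((hpw _ _ (by omega)).trans hZbig)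
    have h3 : H * H ^ (r * p) = (ρ / 2) ^ r * thr r p q α β H := by
      unfold thr
      rw [← hW, hρ]
      have e1 : (H322R2.cR r H / W / 2) ^ r * (H * H ^ (r * p) *
          (2 * (W * (1 / H322R2.cR r H))) ^ r) = (H * H ^ (r * p)) *
          ((H322R2.cR r H / W / 2) * (2 * (W * (1 / H322R2.cR r H)))) ^ r := by
        rw [mul_pow (H322R2.cR r H / W / 2)]; ring
      rw [e1]
      have e2 : (H322R2.cR r H / W / 2) * (2 * (W * (1 / H322R2.cR r H))) = 1 := by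
        field_simp
      rw [e2, one_pow, mul_one]
    rw [h3]
    exact mul_le_mul_of_nonneg_left h2 (by positivity)
  obtain ⟨η, hη0, hη1, hη2, hη3⟩ := real_root_near (wl r p q G) r hr hgm hgd hn hH hpg
    ((b : ℝ) ^ p / (a : ℝ) ^ q) ρ hρ0 hρR hsmall
  refine ⟨η, hη0, hη3, ?_⟩
  intro A _ N σ h1 hσ τ hτ hτη hNτ
  subst hτη
  refine mkBQ h1 hσ hr hp hq hpq hαβ hG hprime hH hGH τ hτ hNτ hg0 hη3 hη2 a b hab Z hZ1 hZ ρ
    hη1 ?_ _ ((hC1 H hH).trans (hpw _ _ (by omega))) ?_ ?_ ?_ ?_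
  · rw [← hW, hρ, div_mul_cancel₀ _ hW0.ne']
    linarith
  · rw [← pow_mul]
    exact (hpw _ _ (by omega)).trans hZbig
  · exact (hc4 H hH).trans ((hpw _ _ (by omega)).trans hZbig)
  · refine lt_of_le_of_lt (hc5 H hH) (lt_of_lt_of_le ?_ ((hpw (c5 + 1) _ (by omega)).trans hZbig))
    exact pow_lt_pow_right₀ h2H (by omega)
  · exact (hc6 H hH).trans ((hpw _ _ (by omega)).trans hZbig)

end Pool.Agent.Y910.S
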