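import Pool.Agent.Y910.S.C6
import Pool.Agent.Y910.S.H7
import Pool.Agent.H322R2.NumFld
import Pool.Agent.H322R2.Anchor

/-!
One constant per number field for weighted plane curves.
-/

open Polynomial Finset NumberField IntermediateField

namespace Pool.Agent.Y910.S

open Pool.Agent.H322R2

/-- bound for all points with branch data over a number field -/
theorem field_const (r p q C1 : ℕ) (hr : 3 ≤ r) (hp : 1 ≤ p) (hC1 : 1 ≤ C1) :
    ∃ C : ℕ, ∀ L : IntermediateField ℚ ℝ, ∃ c : ℝ, 1 ≤ c ∧ ∀ _ : NumberField L,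
      Module.finrank ℚ L = r → ∀ G : ℤ[X][X], WN r p q G → Prime G → ∀ H : ℝ, 1 ≤ H →
      ∀ a b : ℤ, BQ (hs L) (rE L (algebraMap L ℝ)) p q (q * r + 1) ((2 + H) ^ C1) G a b →
      |(a : ℝ)| ≤ (c * (2 + H)) ^ C := by
  obtain ⟨κ, hκ1, hκ⟩ := two_point r p q p q (q * r + 1) (q * r + 1) hr
  obtain ⟨k, hk⟩ : ∃ k : ℕ, k = ⌈κ⌉₊ := ⟨_, rfl⟩
  have hκk : κ ≤ k := by rw [hk]; exact Nat.le_ceil κ
  refine ⟨C1 * k * p, fun L => ?_⟩
  by_cases hL : ∃ _ : NumberField L, Module.finrank ℚ L = r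
  swap
  · refine ⟨1, le_rfl, fun h1 h2 => absurd ⟨h1, h2⟩ hL⟩
  obtain ⟨hLn, hLr⟩ := hL
  obtain ⟨C0, hC01, hC0⟩ := exists_C0 L
  by_cases hex : ∃ (G : ℤ[X][X]) (H : ℝ) (a b : ℤ), WN r p q G ∧ Prime G ∧ 1 ≤ H ∧
      κ * Real.log ((2 + H) ^ C1) ≤ Real.log |(a : ℝ)| ∧
      Nonempty (BQ (hs L) (rE L (algebraMap L ℝ)) p q (q * r + 1) ((2 + H) ^ C1) G a b)
  · obtain ⟨G1, H1, a1, b1, hG1, hpr1, hH1, hbig, ⟨P1⟩⟩ := hex
    refine ⟨|(a1 : ℝ)| * C0, one_le_mul_of_one_le_of_one_le (by have := P1.a_ge; linarith) hC01, ?_⟩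
    intro _ _ G2 hG2 hpr2 H2 hH2 a2 b2 P2
    by_contra hcon
    push Not at hcon
    have ha1 : 4 ≤ |(a1 : ℝ)| := P1.a_ge
    have hB2 : 0 < (2 + H2) ^ C1 := by positivity
    have hB21 : 1 ≤ (2 + H2) ^ C1 := one_le_pow₀ (by linarith)
    apply hκ (hs_one L) (abs_rE_le L (algebraMap L ℝ)) (RingOfIntegers.basis L) C0 hC01 hC0
      (by rw [card_basis, hLr]) hG1.1 hG1.2.1 hpr1
      (fun j => (natDegree_coeff_le hG1 hp j).trans (by omega)) hG2.1 hG2.2.1 hpr2 P1 P2 hbig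
    rw [← Real.log_mul (by positivity) hB2.ne', ← Real.log_mul (by positivity) (by positivity)]
    obtain ⟨Y, hY⟩ : ∃ Y, Y = |(a1 : ℝ)| * (2 + H2) ^ C1 * C0 := ⟨_, rfl⟩
    have hY1 : 1 ≤ Y := by
      rw [hY]
      exact one_le_mul_of_one_le_of_one_le (one_le_mul_of_one_le_of_one_le (by linarith) hB21) hC01
    rw [← hY]
    have hZ1 := P2.Z_ge
    have h1 : Y ^ k ≤ P2.Z := by
      apply le_of_pow_le_pow_left₀ (n := p) (by omega) (by linarith)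
      rw [P2.hZ]
      refine le_trans ?_ hcon.le
      rw [← pow_mul, show C1 * k * p = C1 * (k * p) by ring, pow_mul _ C1]
      apply pow_le_pow_left₀ (by linarith)
      rw [hY, mul_pow]
      have h2 : |(a1 : ℝ)| * C0 ≤ (|(a1 : ℝ)| * C0) ^ C1 :=
        le_self_pow₀ (one_le_mul_of_one_le_of_one_le (by linarith) hC01) (by omega)
      calc |(a1 : ℝ)| * (2 + H2) ^ C1 * C0 = (|(a1 : ℝ)| * C0) * (2 + H2) ^ C1 := by ring
        _ ≤ _ := mul_le_mul_of_nonneg_right h2 hB2.le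
    calc κ * Real.log Y ≤ k * Real.log Y :=
          mul_le_mul_of_nonneg_right hκk (Real.log_nonneg hY1)
      _ = Real.log (Y ^ k) := by rw [Real.log_pow]
      _ ≤ Real.log P2.Z := Real.log_le_log (by positivity) h1
  · refine ⟨1, le_rfl, ?_⟩
    intro _ _ G2 hG2 hpr2 H2 hH2 a2 b2 P2
    rw [one_mul]
    by_contra hcon
    push Not at hcon
    apply hex
    refine ⟨G2, H2, a2, b2, hG2, hpr2, hH2, ?_, ⟨P2⟩⟩
    have hB21 : 1 ≤ (2 + H2) ^ C1 := one_le_pow₀ (by linarith)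
    calc κ * Real.log ((2 + H2) ^ C1) ≤ k * Real.log ((2 + H2) ^ C1) :=
          mul_le_mul_of_nonneg_right hκk (Real.log_nonneg hB21)
      _ = Real.log (((2 + H2) ^ C1) ^ k) := by rw [Real.log_pow (n := k)]
      _ ≤ Real.log |(a2 : ℝ)| := by
          apply Real.log_le_log (by positivity)
          refine le_trans ?_ hcon.le
          rw [← pow_mul]
          exact pow_le_pow_right₀ (by linarith) (Nat.le_mul_of_pos_right _ (by omega))

theorem one_const (r p q : ℕ) (hr : 3 ≤ r) (hp : 1 ≤ p) (hq : 1 ≤ q) (hpq : Nat.Coprime p q) :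
    ∃ (C : ℕ) (c : IntermediateField ℚ ℝ → ℝ), (∀ L, 1 ≤ c L) ∧
      ∀ G : ℤ[X][X], WN r p q G → Prime G →
      Irreducible ((wl r p q G).map (Int.castRingHom ℚ)) →
      ∀ H : ℝ, 1 ≤ H → pn (pn zn) G ≤ H → ∀ a b : ℤ, ev a b G = 0 →
      |(a : ℝ)| ≤ (2 + H) ^ C ∨ ∃ η : ℝ, evf η (wl r p q G) = 0 ∧
        |(a : ℝ)| ≤ (c ℚ⟮η⟯ * (2 + H)) ^ C := by
  obtain ⟨C1, C2, hC1, hBQ⟩ := exists_BQ r p q (by omega) hp hq hpq
  obtain ⟨C3, hC3⟩ := field_const r p q C1 hr hp hC1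
  choose c hc1 hc using hC3
  refine ⟨C2 * p + C3, c, hc1, ?_⟩
  intro G hG hprime hirr H hH hGH a b hab
  obtain ⟨hgm, hgd⟩ := wl_monic hG
  have hpg : pn zn (wl r p q G) ≤ H := (pn_wl_le hp hq hG).trans hGH
  have hg0 : (wl r p q G).coeff 0 ≠ 0 := by
    intro h0
    have h1 : X ∣ (wl r p q G).map (Int.castRingHom ℚ) := by
      rw [X_dvd_iff, coeff_map, h0, map_zero]
    obtain ⟨k, hk⟩ := h1
    have h2 : ((wl r p q G).map (Int.castRingHom ℚ)).natDegree = r := by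
      rw [hgm.natDegree_map, hgd]
    rcases hirr.isUnit_or_isUnit hk with h | h
    · exact not_isUnit_X h
    · have h3 : k ≠ 0 := h.ne_zero
      have h4 : ((wl r p q G).map (Int.castRingHom ℚ)).natDegree = 1 + k.natDegree := by
        rw [hk, natDegree_mul X_ne_zero h3, natDegree_X]
      rw [natDegree_eq_zero_of_isUnit h] at h4
      omega
  have hn : nrm (wl r p q G) r (derivative (wl r p q G)) ≠ 0 := by
    apply nrm_ne_zero_of_coprime _ _ hgm hgd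
    rw [← derivative_map]
    exact hirr.separable
  have h2H : (1 : ℝ) ≤ 2 + H := by linarith
  obtain ⟨Z, hZ0, hZ⟩ : ∃ Z : ℝ, 0 ≤ Z ∧ Z ^ p = |(a : ℝ)| := by
    refine ⟨|(a : ℝ)| ^ ((p : ℝ)⁻¹), by positivity, ?_⟩
    rw [← Real.rpow_natCast, ← Real.rpow_mul (abs_nonneg _),
      inv_mul_cancel₀ (by positivity), Real.rpow_one]
  by_cases hlarge : (2 + H) ^ C2 ≤ Z
  swap
  · left
    push Not at hlarge
    rw [← hZ]
    calc Z ^ p ≤ ((2 + H) ^ C2) ^ p := pow_le_pow_left₀ hZ0 hlarge.le _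
      _ = (2 + H) ^ (C2 * p) := by rw [← pow_mul]
      _ ≤ _ := pow_le_pow_right₀ h2H (by omega)
  right
  obtain ⟨η, hη0, hηH, hQ⟩ := hBQ G hG hprime hg0 hn H hH hGH a b hab Z hZ hlarge
  refine ⟨η, hη0, ?_⟩
  have hevf : ∀ s : ℤ[X], evf η s = aeval η s := by
    intro s
    rw [aeval_def, evf, coe_eval₂RingHom]
    congr 1
  have hint : IsIntegral ℤ η := ⟨wl r p q G, hgm, hη0⟩
  have hfin : Module.finrank ℚ ℚ⟮η⟯ = r := by
    rw [IntermediateField.adjoin.finrank (hint.tower_top)]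
    have h1 : minpoly ℚ η = (wl r p q G).map (Int.castRingHom ℚ) := by
      symm
      apply minpoly.eq_of_irreducible_of_monic hirr
      · have h2 := hevf (wl r p q G)
        rw [hη0] at h2
        have h3 : aeval η ((wl r p q G).map (algebraMap ℤ ℚ)) = aeval η (wl r p q G) :=
          aeval_map_algebraMap ℚ η (wl r p q G)
        rw [← h2] at h3
        exact h3
      · exact hgm.map _
    rw [h1, hgm.natDegree_map, hgd]
  have hfd : FiniteDimensional ℚ ℚ⟮η⟯ :=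
    IntermediateField.adjoin.finiteDimensional (hint.tower_top)
  haveI hnf : NumberField ℚ⟮η⟯ := { to_charZero := inferInstance, to_finiteDimensional := hfd }
  obtain ⟨x, hx⟩ : ∃ x : ℚ⟮η⟯, algebraMap ℚ⟮η⟯ ℝ x = η :=
    ⟨IntermediateField.AdjoinSimple.gen ℚ η, IntermediateField.AdjoinSimple.algebraMap_gen ℚ η⟩
  have hx0 : evf x (wl r p q G) = 0 := by
    have h3 := map_evf (algebraMap ℚ⟮η⟯ ℝ) x (wl r p q G)
    rw [hx, hη0] at h3
    exact (algebraMap ℚ⟮η⟯ ℝ).injective (by rw [h3, map_zero])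
  obtain ⟨α, hα1, hα2, hα3⟩ := exists_alpha ℚ⟮η⟯ (algebraMap ℚ⟮η⟯ ℝ) (wl r p q G) hgm H hH hpg x hx0
  rw [hx] at hα1
  obtain ⟨Q, _⟩ := hQ (hs ℚ⟮η⟯) (rE ℚ⟮η⟯ (algebraMap ℚ⟮η⟯ ℝ)) (hs_one _) (abs_rE_le _ _) α hα2 hα1
    (by linarith)
  have h3 := hc ℚ⟮η⟯ hnf hfin G hG hprime H hH a b Q
  refine h3.trans ?_
  have hc1' := hc1 ℚ⟮η⟯
  exact pow_le_pow_right₀ (one_le_mul_of_one_le_of_one_le hc1' h2H) (by omega)

end Pool.Agent.Y910.S
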