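import Pool.Agent.H322R2.Core3

/-!
Two-point method for weighted plane curves: local data and the auxiliary system.
-/

open Polynomial Finset

namespace Pool.Agent.Y910.S

open Pool.Agent.H322R2

/-- Data describing an integer point `(a,b)` on `F = 0` that lies on a branch at infinity
defined over `A`, on which the two coordinates have poles of order `p` and `q`. -/
structure BQ {A : Type*} [CommRing A] (N : RingSeminorm A) (σ : A →+* ℝ) (p q E : ℕ) (B : ℝ)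
    (F : ℤ[X][X]) (a b : ℤ) where
  ωS : PowerSeries A
  ωU : PowerSeries A
  ωV : PowerSeries A
  Z : ℝ
  R : ℝ
  θ : PowerSeries ℝ
  S : PowerSeries ℝ
  hp : 1 ≤ p
  hq : 1 ≤ q
  hB : 2 ≤ B
  hZ : Z ^ p = |(a : ℝ)|
  hZB : B ^ 2 ≤ Z
  hR : 1 ≤ R
  hωS : Bd N (1 / B) ωS 1
  hωU : Bd N (1 / B) ωU B
  hωV : Bd N (1 / B) ωV B
  hθ : Bd rn R θ (B / Z)
  hS : Bd rn R S (B * Z)
  hSθ : S * sb θ (PowerSeries.map σ ωS) = 1
  hU : PowerSeries.C (a : ℝ) + PowerSeries.X = S ^ p * sb θ (PowerSeries.map σ ωU)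
  hV : PowerSeries.constantCoeff (S ^ q * sb θ (PowerSeries.map σ ωV)) = (b : ℝ)
  hF : ev (PowerSeries.C (a : ℝ) + PowerSeries.X) (S ^ q * sb θ (PowerSeries.map σ ωV)) F = 0
  hD : ev a b (derivative F) ≠ 0
  hDle : |((ev a b (derivative F) : ℤ) : ℝ)| ≤ |(a : ℝ)| ^ E
  hFn : pn (pn zn) F ≤ B

namespace BQ

variable {A : Type*} [CommRing A] {N : RingSeminorm A} {σ : A →+* ℝ} {p q E : ℕ} {B : ℝ}
    {F : ℤ[X][X]} {a b : ℤ} (P : BQ N σ p q E B F a b)

include P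

lemma B_pos : 0 < B := by have := P.hB; linarith

lemma B_one : 1 ≤ B := by have := P.hB; linarith

lemma Z_ge : 4 ≤ P.Z := by
  have h1 := P.hB
  have h2 := P.hZB
  nlinarith

lemma Z_pos : 0 < P.Z := by have := P.Z_ge; linarith

lemma Z_le : P.Z ≤ |(a : ℝ)| := by
  rw [← P.hZ]
  exact le_self_pow₀ (by have := P.Z_ge; linarith) (by have := P.hp; omega)

lemma a_ge : 4 ≤ |(a : ℝ)| := P.Z_ge.trans P.Z_le

lemma a_pos : 0 < |(a : ℝ)| := by have := P.a_ge; linarith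

lemma a_ne : a ≠ 0 := by
  rintro rfl
  have := P.a_pos
  simp at this

lemma ρ_pos : 0 < 1 / B := by have := P.B_pos; positivity

lemma ρ_le : 1 / B ≤ 1 := by
  rw [div_le_one P.B_pos]; exact P.B_one

lemma rad_le : B / P.Z ≤ 1 / B := by
  rw [div_le_div_iff₀ P.Z_pos P.B_pos]
  have := P.hZB
  nlinarith

lemma r_pos : 0 < P.R := by have := P.hR; linarith

lemma q_nonneg : 0 ≤ B / P.Z := by
  have := P.B_pos; have := P.Z_pos; positivity

lemma hev : ev a b F = 0 := by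
  have h := congrArg PowerSeries.constantCoeff P.hF
  rw [map_ev, map_zero, P.hV] at h
  have h2 : PowerSeries.constantCoeff (PowerSeries.C (a : ℝ) + PowerSeries.X : PowerSeries ℝ)
      = (a : ℝ) := by simp
  rw [h2] at h
  have h3 := map_ev (Int.castRingHom ℝ) a b F
  simp only [eq_intCast] at h3
  rw [← h3] at h
  exact_mod_cast h

end BQ

section Main

variable {A : Type*} [CommRing A] {N : RingSeminorm A} {σ : A →+* ℝ}

/-- normalised monomial functions on a branch -/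
noncomputable def mono {p q E : ℕ} {B : ℝ} {F : ℤ[X][X]} {a b : ℤ} (P : BQ N σ p q E B F a b)
    (m i j : ℕ) : PowerSeries A :=
  P.ωS ^ (m - p * i - q * j) * (P.ωU ^ i * P.ωV ^ j)

lemma bd_mono (h1 : N 1 ≤ 1) {p q E : ℕ} {B : ℝ} {F : ℤ[X][X]} {a b : ℤ}
    (P : BQ N σ p q E B F a b) (m i j : ℕ) :
    Bd N (1 / B) (mono P m i j) (B ^ (i + j)) := by
  have h := (P.hωS.pow P.ρ_pos.le h1 (m - p * i - q * j)).mul P.ρ_pos.le
    ((P.hωU.pow P.ρ_pos.le h1 i).mul P.ρ_pos.le (P.hωV.pow P.ρ_pos.le h1 j))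
  refine Bd.mono h ?_
  rw [← pow_add, one_pow, one_mul]

lemma coeff_mono_le (h1 : N 1 ≤ 1) {p q E : ℕ} {B : ℝ} {F : ℤ[X][X]} {a b : ℤ}
    (P : BQ N σ p q E B F a b) (m i j l K : ℕ) (hK : i + j + l ≤ K) :
    N (PowerSeries.coeff l (mono P m i j)) ≤ B ^ K := by
  refine (coeffN_le P.B_pos le_rfl (bd_mono h1 P m i j) l).trans ?_
  rw [← pow_add]
  exact pow_le_pow_right₀ P.B_one hK

/-- number of vanishing conditions -/
def nq (w t j : ℕ) : ℕ := (21 * w - j) * t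

lemma sum_nq (w t : ℕ) : 2 * ∑ j ∈ range (21 * w), nq w t j = (21 * w) * (21 * w + 1) * t := by
  have h : ∀ n : ℕ, 2 * ∑ j ∈ range n, (n - j) * t = n * (n + 1) * t := by
    intro n
    induction n with
    | zero => simp
    | succ n ih =>
      rw [Finset.sum_range_succ']
      have h2 : ∑ k ∈ range n, (n + 1 - (k + 1)) * t = ∑ j ∈ range n, (n - j) * t := by
        apply Finset.sum_congr rfl
        intro j _
        congr 1
        omega
      rw [h2, mul_add, ih]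
      simp only [Nat.sub_zero]
      ring
  exact h (21 * w)

lemma count_aux (r p1 q1 p2 q2 t' : ℕ) (hr : 3 ≤ r) (hp1 : 1 ≤ p1) (hp2 : 1 ≤ p2)
    (hq2 : 1 ≤ q2) (ht : q1 ≤ t') (w : ℕ) (hw : w = p2 * q2 * r) (S0 : ℕ)
    (hS0 : 2 * S0 = (21 * w) * (21 * w + 1) * (p1 * t')) :
    14 * (S0 * r) ≤ 13 * (((r * p2) * (9 * q2 * r)) * ((r * p1) * (10 * w * t' - q1 * r))) := by
  have hwr : r ≤ w := by
    rw [hw]
    calc r = 1 * 1 * r := by ring
      _ ≤ p2 * q2 * r := by gcongr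
  have hw3 : 3 ≤ w := hr.trans hwr
  obtain ⟨n, hn⟩ : ∃ n, n = 10 * w * t' - q1 * r := ⟨_, rfl⟩
  have hle : q1 * r ≤ 10 * w * t' := by
    calc q1 * r ≤ t' * w := Nat.mul_le_mul ht hwr
      _ = 1 * w * t' := by ring
      _ ≤ 10 * w * t' := by gcongr; norm_num
  have hn' : n + q1 * r = 10 * w * t' := by omega
  rw [← hn]
  have e1 : ((r * p2) * (9 * q2 * r)) * ((r * p1) * n) = 9 * w * r * (r * p1) * n := by
    rw [hw]; ring
  rw [e1]
  -- 14 * S0 * r = 7 * (21 w)(21 w+1) p1 t' r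
  have e2 : 14 * (S0 * r) = 7 * ((21 * w) * (21 * w + 1) * (p1 * t')) * r := by
    rw [← hS0]; ring
  rw [e2]
  have e3 : 147 * (21 * w + 1) * t' ≤ 117 * r * n := by
    zify at hn' ht hr hw3 hwr ⊢
    have ht0 : (0 : ℤ) ≤ t' := by positivity
    have hr0 : (0 : ℤ) ≤ r := by positivity
    have hw0 : (0 : ℤ) ≤ w := by positivity
    have hq0 : (0 : ℤ) ≤ q1 := by positivity
    have g1 : (q1 : ℤ) * r ≤ t' * w := mul_le_mul ht hwr hr0 ht0
    have g2 : (n : ℤ) ≥ 9 * (w * t') := by nlinarith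
    have g3 : (147 : ℤ) * t' ≤ 49 * (w * t') := by nlinarith
    have g4 : (3 : ℤ) * (w * t') ≤ r * (w * t') := by
      apply mul_le_mul_of_nonneg_right hr (by positivity)
    have g5 : (r : ℤ) * n = 10 * (r * (w * t')) - r * (q1 * r) := by
      have : (n : ℤ) = 10 * w * t' - q1 * r := by linarith
      rw [this]; ring
    have g6 : (r : ℤ) * (q1 * r) ≤ r * (t' * w) := mul_le_mul_of_nonneg_left g1 hr0
    nlinarith
  calc 7 * ((21 * w) * (21 * w + 1) * (p1 * t')) * r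
      = (147 * (21 * w + 1) * t') * (w * p1 * r) := by ring
    _ ≤ (117 * r * n) * (w * p1 * r) := Nat.mul_le_mul_right _ e3
    _ = _ := by ring

variable {r p1 q1 p2 q2 E1 E2 : ℕ} {B1 B2 : ℝ} {F1 F2 : ℤ[X][X]} {a1 b1 a2 b2 : ℤ}

/-- height bound of the auxiliary polynomial -/
noncomputable def Hq (m n w t : ℕ) (C0 B1 B2 : ℝ) : ℝ :=
  (((m * n : ℕ) : ℝ) * (C0 * (B2 ^ (31 * w) * B1 ^ (31 * w * t)))) ^ 13

lemma one_le_Hq (m n w t : ℕ) (C0 B1 B2 : ℝ) (hm : 0 < m) (hn : 0 < n) (hC0 : 1 ≤ C0)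
    (hB1 : 1 ≤ B1) (hB2 : 1 ≤ B2) : 1 ≤ Hq m n w t C0 B1 B2 := by
  unfold Hq
  apply one_le_pow₀
  have h1 : (1 : ℝ) ≤ ((m * n : ℕ) : ℝ) := by
    have : 0 < m * n := Nat.mul_pos hm hn
    exact_mod_cast this
  have h2 : 1 ≤ B2 ^ (31 * w) := one_le_pow₀ hB2
  have h3 : 1 ≤ B1 ^ (31 * w * t) := one_le_pow₀ hB1
  have h4 : 1 ≤ B2 ^ (31 * w) * B1 ^ (31 * w * t) := by nlinarith
  have h5 : 1 ≤ C0 * (B2 ^ (31 * w) * B1 ^ (31 * w * t)) := by nlinarith
  nlinarith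

theorem exists_aux (h1 : N 1 ≤ 1) {ι : Type*} [Fintype ι] (bas : Module.Basis ι ℤ A)
    (C0 : ℝ) (hC0 : 1 ≤ C0) (hcoord : ∀ x i, |(bas.repr x i : ℝ)| ≤ C0 * N x)
    (P1 : BQ N σ p1 q1 E1 B1 F1 a1 b1) (P2 : BQ N σ p2 q2 E2 B2 F2 a2 b2) (hr : 3 ≤ r)
    (hkι : Fintype.card ι = r) (w : ℕ) (hw : w = p2 * q2 * r) (t' : ℕ) (ht : q1 ≤ t') :
    ∃ T : Fin (r * p2) × Fin (9 * q2 * r) → Fin (r * p1) × Fin (10 * w * t' - q1 * r) → ℤ, T ≠ 0 ∧
      (∀ j < 21 * w, ∀ i < nq w (p1 * t') j, ∑ μ, ∑ s, (T μ s) •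
        (PowerSeries.coeff j (mono P2 (10 * w) μ.2 μ.1) *
        PowerSeries.coeff i (mono P1 (10 * w * (p1 * t')) s.2 s.1)) = 0) ∧
      ∀ μ s, |(T μ s : ℝ)| ≤ Hq ((r * p2) * (9 * q2 * r)) ((r * p1) * (10 * w * t' - q1 * r)) w
        (p1 * t') C0 B1 B2 := by
  have hB1' := P1.B_one
  have hB2' := P2.B_one
  have hp1 := P1.hp
  have hq1 := P1.hq
  have hp2 := P2.hp
  have hq2 := P2.hq
  have hwr : r ≤ w := by
    rw [hw]
    calc r = 1 * 1 * r := by ring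
      _ ≤ p2 * q2 * r := by gcongr
  obtain ⟨n, hn⟩ : ∃ n, n = 10 * w * t' - q1 * r := ⟨_, rfl⟩
  have hle : q1 * r ≤ 10 * w * t' := by
    calc q1 * r ≤ t' * w := Nat.mul_le_mul ht hwr
      _ = 1 * w * t' := by ring
      _ ≤ 10 * w * t' := by gcongr; norm_num
  have hn' : n + q1 * r = 10 * w * t' := by omega
  rw [← hn]
  set t := p1 * t' with htdef
  have hcardγ : 2 * Fintype.card (Σ j : Fin (21 * w), Fin (nq w t j))
      = (21 * w) * (21 * w + 1) * t := by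
    rw [← sum_nq, Fintype.card_sigma, ← Fin.sum_univ_eq_sum_range (fun j => nq w t j)]
    congr 1
    exact Finset.sum_congr rfl (fun j _ => Fintype.card_fin _)
  have hcount := count_aux r p1 q1 p2 q2 t' hr hp1 hp2 hq2 ht w hw _ hcardγ
  rw [← hn] at hcount
  have ht'pos : 0 < t' := by omega
  have htpos : 0 < t := Nat.mul_pos hp1 ht'pos
  have hwpos : 0 < w := by omega
  -- weights
  have hwt2 : ∀ μ : Fin (r * p2) × Fin (9 * q2 * r), (μ.2 : ℕ) + μ.1 ≤ 10 * w := by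
    intro μ
    have e1 : (μ.1 : ℕ) ≤ q2 * (r * p2) := by
      have := μ.1.2
      calc (μ.1 : ℕ) ≤ 1 * (r * p2) := by omega
        _ ≤ q2 * (r * p2) := Nat.mul_le_mul_right _ hq2
    have e2 : (μ.2 : ℕ) ≤ p2 * (9 * q2 * r) := by
      have := μ.2.2
      calc (μ.2 : ℕ) ≤ 1 * (9 * q2 * r) := by omega
        _ ≤ p2 * (9 * q2 * r) := Nat.mul_le_mul_right _ hp2
    calc (μ.2 : ℕ) + μ.1 ≤ p2 * (9 * q2 * r) + q2 * (r * p2) := add_le_add e2 e1
      _ = 10 * w := by rw [hw]; ring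
  have hwt1 : ∀ s : Fin (r * p1) × Fin n, (s.2 : ℕ) + s.1 ≤ 10 * w * t := by
    intro s
    have e1 : (s.1 : ℕ) ≤ q1 * (r * p1) := by
      have := s.1.2
      calc (s.1 : ℕ) ≤ 1 * (r * p1) := by omega
        _ ≤ q1 * (r * p1) := Nat.mul_le_mul_right _ hq1
    have e2 : (s.2 : ℕ) ≤ p1 * n := by
      have := s.2.2
      calc (s.2 : ℕ) ≤ 1 * n := by omega
        _ ≤ p1 * n := Nat.mul_le_mul_right _ hp1
    calc (s.2 : ℕ) + s.1 ≤ p1 * n + q1 * (r * p1) := add_le_add e2 e1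
      _ = p1 * (n + q1 * r) := by ring
      _ = 10 * w * t := by rw [hn', htdef]; ring
  obtain ⟨T, hT0, hT, hTn⟩ := siegel_aux bas N C0 hC0 hcoord
    (γ := Σ j : Fin (21 * w), Fin (nq w t j))
    (β := (Fin (r * p2) × Fin (9 * q2 * r)) × (Fin (r * p1) × Fin n))
    (fun g x => PowerSeries.coeff (g.1 : ℕ) (mono P2 (10 * w) x.1.2 x.1.1) *
      PowerSeries.coeff (g.2 : ℕ) (mono P1 (10 * w * t) x.2.2 x.2.1))
    (B2 ^ (31 * w) * B1 ^ (31 * w * t))
    (by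
      have e1 : 1 ≤ B2 ^ (31 * w) := one_le_pow₀ hB2'
      have e2 : 1 ≤ B1 ^ (31 * w * t) := one_le_pow₀ hB1'
      nlinarith)
    (by
      intro g x
      refine (map_mul_le_mul N _ _).trans ?_
      have e1 : N (PowerSeries.coeff (g.1 : ℕ) (mono P2 (10 * w) x.1.2 x.1.1)) ≤ B2 ^ (31 * w) := by
        apply coeff_mono_le h1
        have := g.1.2
        have := hwt2 x.1
        omega
      have e2 : N (PowerSeries.coeff (g.2 : ℕ) (mono P1 (10 * w * t) x.2.2 x.2.1))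
          ≤ B1 ^ (31 * w * t) := by
        apply coeff_mono_le h1
        have e4 := g.2.2
        have e5 : nq w t g.1 ≤ 21 * w * t := Nat.mul_le_mul_right _ (by omega)
        have e6 := hwt1 x.2
        have e7 : 31 * w * t = 10 * w * t + 21 * w * t := by ring
        omega
      exact mul_le_mul e1 e2 (apply_nonneg N _) (by have := P2.B_pos; positivity))
    (by
      rw [hkι]
      simp only [Fintype.card_fin, Fintype.card_prod]
      simpa using hcount)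
    (by
      rw [hkι]
      apply Nat.mul_pos _ (by omega)
      have : 0 < (21 * w) * (21 * w + 1) * t := by positivity
      omega)
  refine ⟨fun μ s => T (μ, s), ?_, ?_, ?_⟩
  · intro h0
    apply hT0
    funext x
    have := congrFun (congrFun h0 x.1) x.2
    simpa using this
  · intro j hj i hi
    have := hT ⟨⟨j, hj⟩, ⟨i, hi⟩⟩
    rw [Fintype.sum_prod_type] at this
    exact this
  · intro μ s
    have := hTn (μ, s)
    simp only [Fintype.card_prod, Fintype.card_fin] at this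
    exact this

end Main

end Pool.Agent.Y910.S
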