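import Pool.Agent.Y910.S.C3

/-!
Analytic upper bound for the Taylor coefficients of the auxiliary function.
-/

open Polynomial Finset

namespace Pool.Agent.Y910.S

open Pool.Agent.H322R2

section Main

variable {A : Type*} [CommRing A] {N : RingSeminorm A} {σ : A →+* ℝ}
  {p1 q1 p2 q2 E1 E2 : ℕ} {B1 B2 : ℝ} {F1 F2 : ℤ[X][X]} {a1 b1 a2 b2 : ℤ}

theorem analytic_part (h1 : N 1 ≤ 1) (hσ : ∀ x, |σ x| ≤ N x)
    (P1 : BQ N σ p1 q1 E1 B1 F1 a1 b1) (P2 : BQ N σ p2 q2 E2 B2 F2 a2 b2)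
    {D1 n1 D2 n2 w t : ℕ} (hm1 : p1 * n1 + q1 * D1 ≤ 10 * w * t)
    (hm2 : p2 * n2 + q2 * D2 ≤ 10 * w)
    (T : Fin D2 × Fin n2 → Fin D1 × Fin n1 → ℤ)
    (hT : ∀ j < 21 * w, ∀ i < nq w t j, ∑ μ, ∑ s, (T μ s) •
        (PowerSeries.coeff j (mono P2 (10 * w) μ.2 μ.1) *
        PowerSeries.coeff i (mono P1 (10 * w * t) s.2 s.1)) = 0)
    (H : ℝ) (hH : 0 ≤ H) (hTH : ∀ μ s, |(T μ s : ℝ)| ≤ H) (o : ℕ) :
    |PowerSeries.coeff o (ev (PowerSeries.C (a1 : ℝ) + PowerSeries.X)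
      (P1.S ^ q1 * sb P1.θ (PowerSeries.map σ P1.ωV))
      (∑ μ : Fin D2 × Fin n2, C (C (a2 ^ (μ.2 : ℕ) * b2 ^ (μ.1 : ℕ))) * boxPoly (T μ)))|
    ≤ (B2 * P2.Z) ^ (10 * w) * ((B1 * P1.Z) ^ (10 * w * t) *
      ((∑ j ∈ range (21 * w), (B2 / P2.Z) ^ j * ((B1 ^ 2 / P1.Z) ^ (nq w t j) *
        (((D2 * n2 : ℕ) : ℝ) * B2 ^ (31 * w) * (((D1 * n1 : ℕ) : ℝ) * (H * B1 ^ (10 * w * t))))))
      + ((D2 * n2 : ℕ) : ℝ) * ((B2 ^ 2 / P2.Z) ^ (21 * w) * B2 ^ (10 * w)) *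
        (((D1 * n1 : ℕ) : ℝ) * (H * B1 ^ (10 * w * t))))
      / P1.R ^ o) := by
  set m := 10 * w * t with hmdef
  have hB1 := P1.hB
  have hB2 := P2.hB
  have hB1p := P1.B_pos
  have hB2p := P2.B_pos
  have ha1 := P1.Z_pos
  have ha2 := P2.Z_pos
  set bU : ℝ := ((D1 * n1 : ℕ) : ℝ) * (H * B1 ^ m) with hbU
  have hbU0 : 0 ≤ bU := by positivity
  set ρ' := B1 / P1.Z with hρ'
  set ρ'' := B2 / P2.Z with hρ''
  have hq1 := P1.q_nonneg
  have hq2 := P2.q_nonneg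
  have hr1 := P1.r_pos
  have hr2 := P2.r_pos
  have hrad1 := P1.rad_le
  have hrad2 := P2.rad_le
  set x : PowerSeries ℝ := PowerSeries.C (a1 : ℝ) + PowerSeries.X with hx
  set yh := P1.S ^ q1 * sb P1.θ (PowerSeries.map σ P1.ωV) with hyh
  set τ := PowerSeries.constantCoeff P2.θ with hτ
  have hτle : |τ| ≤ ρ'' := by
    have := P2.hθ.coeff_le hr2.le 0
    simpa [hτ] using this
  -- bounds for the functions
  have hU : ∀ μ, Bd N (1 / B1) (Ust P1 m (T μ)) bU :=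
    fun μ => bd_Ust h1 P1 m hm1 (T μ) H hH (hTH μ)
  have hUσ : ∀ μ, Bd rn ρ' (PowerSeries.map σ (Ust P1 m (T μ))) bU :=
    fun μ => ((hU μ).of_le hq1 hrad1).map σ hσ hq1
  set ec : ℕ → Fin D2 × Fin n2 → A := fun j μ =>
    PowerSeries.coeff j (mono P2 (10 * w) μ.2 μ.1) with hec
  have hwt2 : ∀ μ : Fin D2 × Fin n2, (μ.2 : ℕ) + μ.1 ≤ 10 * w := by
    intro μ
    have e1 : (μ.1 : ℕ) ≤ q2 * D2 := by
      have := μ.1.2
      calc (μ.1 : ℕ) ≤ 1 * D2 := by omega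
        _ ≤ q2 * D2 := Nat.mul_le_mul_right _ P2.hq
    have e2 : (μ.2 : ℕ) ≤ p2 * n2 := by
      have := μ.2.2
      calc (μ.2 : ℕ) ≤ 1 * n2 := by omega
        _ ≤ p2 * n2 := Nat.mul_le_mul_right _ P2.hp
    omega
  have hwt2' : ∀ μ : Fin D2 × Fin n2, p2 * (μ.2 : ℕ) + q2 * μ.1 ≤ 10 * w := by
    intro μ
    have e1 : q2 * (μ.1 : ℕ) ≤ q2 * D2 := Nat.mul_le_mul_left _ μ.1.2.le
    have e2 : p2 * (μ.2 : ℕ) ≤ p2 * n2 := Nat.mul_le_mul_left _ μ.2.2.le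
    omega
  have hecle : ∀ j < 21 * w, ∀ μ, N (ec j μ) ≤ B2 ^ (31 * w) := by
    intro j hj μ
    apply coeff_mono_le h1
    have := hwt2 μ
    omega
  set Ψ : ℕ → PowerSeries A := fun j => ∑ μ, PowerSeries.C (ec j μ) * Ust P1 m (T μ) with hΨ
  have hratio1 : ρ' / (1 / B1) = B1 ^ 2 / P1.Z := by
    rw [hρ']; field_simp
  have hratio2 : ρ'' / (1 / B2) = B2 ^ 2 / P2.Z := by
    rw [hρ'']; field_simp
  have hΨbd : ∀ j < 21 * w, Bd N (1 / B1) (Ψ j) (((D2 * n2 : ℕ) : ℝ) * B2 ^ (31 * w) * bU) := by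
    intro j hj
    have h2 : ∀ μ ∈ (univ : Finset (Fin D2 × Fin n2)),
        Bd N (1 / B1) (PowerSeries.C (ec j μ) * Ust P1 m (T μ)) (B2 ^ (31 * w) * bU) := by
      intro μ _
      refine ((Bd.C P1.ρ_pos.le _).mul P1.ρ_pos.le (hU μ)).mono ?_
      exact mul_le_mul_of_nonneg_right (hecle j hj μ) hbU0
    refine (Bd.sum univ P1.ρ_pos.le _ _ h2).mono ?_
    simp [mul_assoc]
  have hΨvan : ∀ j < 21 * w, ∀ i < nq w t j, PowerSeries.coeff i (Ψ j) = 0 := by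
    intro j hj i hi
    rw [← hT j hj i hi, hΨ]
    simp only
    rw [map_sum]
    apply Finset.sum_congr rfl
    intro μ _
    rw [PowerSeries.coeff_C_mul, Ust, map_sum, Finset.mul_sum]
    apply Finset.sum_congr rfl
    intro s _
    rw [PowerSeries.coeff_C_mul, zsmul_eq_mul]
    ring
  have hΨσ : ∀ j < 21 * w, Bd rn ρ' (PowerSeries.map σ (Ψ j))
      ((B1 ^ 2 / P1.Z) ^ (nq w t j) * (((D2 * n2 : ℕ) : ℝ) * B2 ^ (31 * w) * bU)) := by
    intro j hj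
    refine (((hΨbd j hj).of_vanish P1.ρ_pos hq1 hrad1 _ (hΨvan j hj)).map σ hσ hq1).mono ?_
    rw [hratio1]
  -- remainders
  have hR : ∀ μ : Fin D2 × Fin n2, ∃ R : ℝ,
      PowerSeries.constantCoeff (sb P2.θ (PowerSeries.map σ (mono P2 (10 * w) μ.2 μ.1)))
      = ∑ j ∈ range (21 * w), σ (ec j μ) * τ ^ j + R ∧
      |R| ≤ (B2 ^ 2 / P2.Z) ^ (21 * w) * B2 ^ (10 * w) := by
    intro μ
    obtain ⟨R, hR1, hR2⟩ := splitJ σ hσ P2.ρ_pos hq2 hrad2 hr2 P2.θ P2.hθ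
      (mono P2 (10 * w) μ.2 μ.1) (bd_mono h1 P2 (10 * w) μ.2 μ.1) (21 * w)
    refine ⟨R, hR1, hR2.trans ?_⟩
    rw [hratio2]
    apply mul_le_mul_of_nonneg_left _ (by positivity)
    exact pow_le_pow_right₀ (by linarith) (hwt2 μ)
  choose R hR1 hR2 using hR
  set v : Fin D2 × Fin n2 → ℝ := fun μ =>
    PowerSeries.constantCoeff (sb P2.θ (PowerSeries.map σ (mono P2 (10 * w) μ.2 μ.1))) with hv
  set Θ : PowerSeries ℝ := ∑ μ, PowerSeries.C (v μ) * PowerSeries.map σ (Ust P1 m (T μ)) with hΘ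
  -- identity for the function
  have hident : ev x yh (∑ μ : Fin D2 × Fin n2,
      C (C (a2 ^ (μ.2 : ℕ) * b2 ^ (μ.1 : ℕ))) * boxPoly (T μ))
      = PowerSeries.C ((PowerSeries.constantCoeff P2.S) ^ (10 * w)) *
        (P1.S ^ m * sb P1.θ Θ) := by
    rw [hΘ, sb_sum hr1 hq1 P1.hθ univ _ (fun μ => rn (v μ) * bU)]
    · rw [map_sum, Finset.mul_sum, Finset.mul_sum]
      apply Finset.sum_congr rfl
      intro μ _
      rw [map_mul, ev_C, evf_C, sb_Ust h1 hσ P1 m hm1 (T μ),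
        sb_mul hr1 P1.hθ (Bd.C hq1 _) (hUσ μ), sb_C]
      have h3 : ((a2 ^ (μ.2 : ℕ) * b2 ^ (μ.1 : ℕ) : ℤ) : PowerSeries ℝ)
          = PowerSeries.C ((PowerSeries.constantCoeff P2.S) ^ (10 * w)) *
            PowerSeries.C (v μ) := by
        rw [← map_mul, ← mono_val hσ P2 (10 * w) μ.2 μ.1 (hwt2' μ), map_intCast]
      rw [h3]
      ring
    · intro μ _
      exact (Bd.C hq1 _).mul hq1 (hUσ μ)
  -- decomposition of Θ
  have hΘ2 : Θ = ∑ j ∈ range (21 * w), PowerSeries.C (τ ^ j) * PowerSeries.map σ (Ψ j)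
      + ∑ μ, PowerSeries.C (R μ) * PowerSeries.map σ (Ust P1 m (T μ)) := by
    rw [hΘ]
    have h3 : ∀ μ ∈ (univ : Finset (Fin D2 × Fin n2)),
        PowerSeries.C (v μ) * PowerSeries.map σ (Ust P1 m (T μ))
        = ∑ j ∈ range (21 * w), PowerSeries.C (σ (ec j μ) * τ ^ j) *
            PowerSeries.map σ (Ust P1 m (T μ))
          + PowerSeries.C (R μ) * PowerSeries.map σ (Ust P1 m (T μ)) := by
      intro μ _
      rw [hv]
      simp only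
      rw [hR1 μ, map_add, add_mul, map_sum, Finset.sum_mul]
    rw [Finset.sum_congr rfl h3, Finset.sum_add_distrib]
    congr 1
    rw [Finset.sum_comm]
    apply Finset.sum_congr rfl
    intro j _
    rw [hΨ]
    simp only
    rw [map_sum, Finset.mul_sum]
    apply Finset.sum_congr rfl
    intro μ _
    simp only [map_mul, PowerSeries.map_C]
    ring
  -- bound of Θ
  set Q : ℝ := (∑ j ∈ range (21 * w), ρ'' ^ j * ((B1 ^ 2 / P1.Z) ^ (nq w t j) *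
        (((D2 * n2 : ℕ) : ℝ) * B2 ^ (31 * w) * bU)))
      + ((D2 * n2 : ℕ) : ℝ) * ((B2 ^ 2 / P2.Z) ^ (21 * w) * B2 ^ (10 * w)) * bU with hQ
  have hΘbd : Bd rn ρ' Θ Q := by
    rw [hΘ2, hQ]
    apply Bd.add hq1
    · apply Bd.sum _ hq1
      intro j hj
      rw [Finset.mem_range] at hj
      refine ((Bd.C hq1 _).mul hq1 (hΨσ j hj)).mono ?_
      apply mul_le_mul_of_nonneg_right _ (by positivity)
      rw [rn_apply, abs_pow]
      exact pow_le_pow_left₀ (abs_nonneg _) hτle j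
    · have h3 : ∀ μ ∈ (univ : Finset (Fin D2 × Fin n2)),
          Bd rn ρ' (PowerSeries.C (R μ) * PowerSeries.map σ (Ust P1 m (T μ)))
            (((B2 ^ 2 / P2.Z) ^ (21 * w) * B2 ^ (10 * w)) * bU) := by
        intro μ _
        refine ((Bd.C hq1 _).mul hq1 (hUσ μ)).mono ?_
        exact mul_le_mul_of_nonneg_right (hR2 μ) hbU0
      refine (Bd.sum univ hq1 _ _ h3).mono ?_
      simp [mul_assoc]
  have hQ0 : 0 ≤ Q := hΘbd.nonneg
  rw [hident, PowerSeries.coeff_C_mul, abs_mul]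
  have h4 : |(PowerSeries.constantCoeff P2.S) ^ (10 * w)| ≤ (B2 * P2.Z) ^ (10 * w) := by
    rw [abs_pow]
    apply pow_le_pow_left₀ (abs_nonneg _)
    have := P2.hS.coeff_le hr2.le 0
    simpa using this
  apply mul_le_mul h4 _ (abs_nonneg _) (by positivity)
  exact coeff_mul_bound hr1 (P1.hS.pow hr1.le rn_one m) hQ0
    (fun i => sb_coeff_le hr1 P1.hθ hΘbd i) o

end Main

lemma key_pow (X Y : ℝ) (hX : 1 ≤ X) (w t p j : ℕ) (hj : j ≤ 21 * w) (hY1 : X ^ t ≤ Y)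
    (hY2 : Y ≤ X ^ (t + p)) :
    Y ^ (10 * w) * X ^ (10 * w * t) * X ^ (w * t)
      ≤ X ^ (10 * w * p) * (Y ^ j * X ^ (nq w t j)) := by
  have hX0 : 0 < X := by linarith
  have hY0 : 0 < Y := lt_of_lt_of_le (by positivity) hY1
  have h1 : Y ^ (10 * w) ≤ X ^ (10 * w * t + 10 * w * p) := by
    calc Y ^ (10 * w) ≤ (X ^ (t + p)) ^ (10 * w) := pow_le_pow_left₀ hY0.le hY2 _
      _ = X ^ (10 * w * t + 10 * w * p) := by rw [← pow_mul]; congr 1; ring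
  have h2 : X ^ (j * t) ≤ Y ^ j := by
    calc X ^ (j * t) = (X ^ t) ^ j := by rw [← pow_mul]; congr 1; ring
      _ ≤ Y ^ j := pow_le_pow_left₀ (by positivity) hY1 j
  have h3 : j * t + nq w t j = 21 * w * t := by
    unfold nq
    rw [← add_mul]
    congr 1
    omega
  calc Y ^ (10 * w) * X ^ (10 * w * t) * X ^ (w * t)
      ≤ X ^ (10 * w * t + 10 * w * p) * X ^ (10 * w * t) * X ^ (w * t) := by gcongr
    _ = X ^ (10 * w * p) * X ^ (21 * w * t) := by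
        rw [← pow_add, ← pow_add, ← pow_add]; congr 1; ring
    _ = X ^ (10 * w * p) * (X ^ (j * t) * X ^ (nq w t j)) := by rw [← pow_add _ (j * t), h3]
    _ ≤ _ := by gcongr

lemma final_bound (X Y B1 B2 bU m2 A0 : ℝ) (hX : 4 ≤ X) (hA0 : 1 ≤ A0) (hB1 : 2 ≤ B1)
    (hB2 : 2 ≤ B2) (hbU : 0 ≤ bU) (hm2 : 1 ≤ m2) (w t p o : ℕ) (hY1 : X ^ t ≤ Y)
    (hY2 : Y ≤ X ^ (t + p)) :
    ((B2 * Y) ^ (10 * w) * ((B1 * X) ^ (10 * w * t) *
      ((∑ j ∈ range (21 * w), (B2 / Y) ^ j * ((B1 ^ 2 / X) ^ (nq w t j) *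
        (m2 * B2 ^ (31 * w) * bU)))
      + m2 * ((B2 ^ 2 / Y) ^ (21 * w) * B2 ^ (10 * w)) * bU) / A0 ^ o)) * X ^ (w * t)
    ≤ X ^ (10 * w * p) * ((21 * w + 1) * m2 * B2 ^ (62 * w) * B1 ^ (52 * w * t) * bU) := by
  have hX0 : 0 < X := by linarith
  have hX1 : 1 ≤ X := by linarith
  have hY0 : 0 < Y := lt_of_lt_of_le (by positivity) hY1
  have hB10 : 0 < B1 := by linarith
  have hB20 : 0 < B2 := by linarith
  have hB11 : 1 ≤ B1 := by linarith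
  have hB21 : 1 ≤ B2 := by linarith
  have ho : 1 ≤ A0 ^ o := one_le_pow₀ hA0
  have hm20 : 0 < m2 := by linarith
  have hterm : ∀ j ∈ range (21 * w), Y ^ (10 * w) * X ^ (10 * w * t) * X ^ (w * t) *
      ((B2 / Y) ^ j * ((B1 ^ 2 / X) ^ (nq w t j) * (m2 * B2 ^ (31 * w) * bU)))
      ≤ X ^ (10 * w * p) * (m2 * B2 ^ (52 * w) * B1 ^ (42 * w * t) * bU) := by
    intro j hj
    rw [Finset.mem_range] at hj
    have h1 := key_pow X Y hX1 w t p j hj.le hY1 hY2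
    have h2 : (B2 / Y) ^ j * ((B1 ^ 2 / X) ^ (nq w t j) * (m2 * B2 ^ (31 * w) * bU))
        = (B2 ^ j * (B1 ^ 2) ^ (nq w t j) * (m2 * B2 ^ (31 * w) * bU))
          / (Y ^ j * X ^ (nq w t j)) := by
      rw [div_pow, div_pow]; field_simp
    rw [h2, ← mul_div_assoc, div_le_iff₀ (by positivity)]
    have h3 : B2 ^ j * (B1 ^ 2) ^ (nq w t j) * (m2 * B2 ^ (31 * w) * bU)
        ≤ m2 * B2 ^ (52 * w) * B1 ^ (42 * w * t) * bU := by
      have e1 : B2 ^ j * B2 ^ (31 * w) ≤ B2 ^ (52 * w) := by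
        rw [← pow_add]; exact pow_le_pow_right₀ hB21 (by omega)
      have e2 : (B1 ^ 2) ^ (nq w t j) ≤ B1 ^ (42 * w * t) := by
        rw [← pow_mul]
        apply pow_le_pow_right₀ hB11
        unfold nq
        have h5 : (21 * w - j) * t ≤ 21 * w * t := Nat.mul_le_mul_right _ (by omega)
        have h6 : 42 * w * t = 2 * (21 * w * t) := by ring
        omega
      calc B2 ^ j * (B1 ^ 2) ^ (nq w t j) * (m2 * B2 ^ (31 * w) * bU)
          = (m2 * bU) * ((B2 ^ j * B2 ^ (31 * w)) * (B1 ^ 2) ^ (nq w t j)) := by ring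
        _ ≤ (m2 * bU) * (B2 ^ (52 * w) * B1 ^ (42 * w * t)) := by gcongr
        _ = _ := by ring
    calc Y ^ (10 * w) * X ^ (10 * w * t) * X ^ (w * t) *
          (B2 ^ j * (B1 ^ 2) ^ (nq w t j) * (m2 * B2 ^ (31 * w) * bU))
        ≤ (X ^ (10 * w * p) * (Y ^ j * X ^ (nq w t j))) *
          (m2 * B2 ^ (52 * w) * B1 ^ (42 * w * t) * bU) := by
          apply mul_le_mul h1 h3 (by positivity) (by positivity)
      _ = _ := by ring
  have hterm5 : Y ^ (10 * w) * X ^ (10 * w * t) * X ^ (w * t) *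
      (m2 * ((B2 ^ 2 / Y) ^ (21 * w) * B2 ^ (10 * w)) * bU)
      ≤ X ^ (10 * w * p) * (m2 * B2 ^ (52 * w) * B1 ^ (42 * w * t) * bU) := by
    have h1 := key_pow X Y hX1 w t p (21 * w) le_rfl hY1 hY2
    have h0 : nq w t (21 * w) = 0 := by simp [nq]
    rw [h0, pow_zero, mul_one] at h1
    have h2 : m2 * ((B2 ^ 2 / Y) ^ (21 * w) * B2 ^ (10 * w)) * bU
        = (m2 * B2 ^ (52 * w) * bU) / Y ^ (21 * w) := by
      rw [div_pow, ← pow_mul]
      have : B2 ^ (52 * w) = B2 ^ (2 * (21 * w)) * B2 ^ (10 * w) := by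
        rw [← pow_add]; congr 1; ring
      rw [this]
      field_simp
    rw [h2, ← mul_div_assoc, div_le_iff₀ (by positivity)]
    have h3 : 1 ≤ B1 ^ (42 * w * t) := one_le_pow₀ hB11
    calc Y ^ (10 * w) * X ^ (10 * w * t) * X ^ (w * t) * (m2 * B2 ^ (52 * w) * bU)
        ≤ (X ^ (10 * w * p) * Y ^ (21 * w)) * (m2 * B2 ^ (52 * w) * bU) := by gcongr
      _ = (X ^ (10 * w * p) * Y ^ (21 * w)) * ((m2 * B2 ^ (52 * w) * bU) * 1) := by ring
      _ ≤ (X ^ (10 * w * p) * Y ^ (21 * w)) *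
          ((m2 * B2 ^ (52 * w) * bU) * B1 ^ (42 * w * t)) := by gcongr
      _ = _ := by ring
  set S := (∑ j ∈ range (21 * w), (B2 / Y) ^ j * ((B1 ^ 2 / X) ^ (nq w t j) *
        (m2 * B2 ^ (31 * w) * bU)))
      + m2 * ((B2 ^ 2 / Y) ^ (21 * w) * B2 ^ (10 * w)) * bU with hS
  have hS0 : 0 ≤ S := by positivity
  have h4 : Y ^ (10 * w) * X ^ (10 * w * t) * X ^ (w * t) * S
      ≤ X ^ (10 * w * p) * ((21 * w + 1) * m2 * B2 ^ (52 * w) * B1 ^ (42 * w * t) * bU) := by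
    rw [hS, mul_add, Finset.mul_sum]
    have h5 := Finset.sum_le_sum hterm
    rw [Finset.sum_const, Finset.card_range, nsmul_eq_mul] at h5
    calc _ ≤ ((21 * w : ℕ) : ℝ) * (X ^ (10 * w * p) * (m2 * B2 ^ (52 * w) * B1 ^ (42 * w * t) * bU))
          + X ^ (10 * w * p) * (m2 * B2 ^ (52 * w) * B1 ^ (42 * w * t) * bU) :=
            add_le_add h5 hterm5
      _ = _ := by push_cast; ring
  calc ((B2 * Y) ^ (10 * w) * ((B1 * X) ^ (10 * w * t) * S / A0 ^ o)) * X ^ (w * t)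
      ≤ ((B2 * Y) ^ (10 * w) * ((B1 * X) ^ (10 * w * t) * S)) * X ^ (w * t) := by
        apply mul_le_mul_of_nonneg_right _ (by positivity)
        apply mul_le_mul_of_nonneg_left _ (by positivity)
        exact div_le_self (by positivity) ho
    _ = (B2 ^ (10 * w) * B1 ^ (10 * w * t)) *
        (Y ^ (10 * w) * X ^ (10 * w * t) * X ^ (w * t) * S) := by
        rw [mul_pow, mul_pow]; ring
    _ ≤ (B2 ^ (10 * w) * B1 ^ (10 * w * t)) * (X ^ (10 * w * p) *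
        ((21 * w + 1) * m2 * B2 ^ (52 * w) * B1 ^ (42 * w * t) * bU)) := by gcongr
    _ = X ^ (10 * w * p) * ((21 * w + 1) * m2 * (B2 ^ (10 * w) * B2 ^ (52 * w)) *
        (B1 ^ (10 * w * t) * B1 ^ (42 * w * t)) * bU) := by ring
    _ = _ := by
        rw [← pow_add, ← pow_add]
        have e1 : 10 * w + 52 * w = 62 * w := by ring
        have e2 : 10 * w * t + 42 * w * t = 52 * w * t := by ring
        rw [e1, e2]

end Pool.Agent.Y910.S
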