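import Pool.Agent.Y910.S.C4
import Pool.Agent.H322R2.Numer

/-!
Combination and numerical part: the two-point principle for weighted curves.
-/

open Polynomial Finset

namespace Pool.Agent.Y910.S

open Pool.Agent.H322R2

section Main

variable {A : Type*} [CommRing A] {N : RingSeminorm A} {σ : A →+* ℝ}
  {r p1 q1 p2 q2 E : ℕ} {B1 B2 : ℝ} {F1 F2 : ℤ[X][X]} {a1 b1 a2 b2 : ℤ}

theorem core_ineq (h1 : N 1 ≤ 1) (hσ : ∀ x, |σ x| ≤ N x)
    {ι : Type*} [Fintype ι] (bas : Module.Basis ι ℤ A)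
    (C0 : ℝ) (hC0 : 1 ≤ C0) (hcoord : ∀ x i, |(bas.repr x i : ℝ)| ≤ C0 * N x)
    (P1 : BQ N σ p1 q1 E B1 F1 a1 b1) {E2 : ℕ} (P2 : BQ N σ p2 q2 E2 B2 F2 a2 b2)
    (hr : 3 ≤ r) (hm1 : F1.Monic) (hFd1 : F1.natDegree = r * p1) (hF1 : Prime F1)
    (hFx1 : ∀ j, (F1.coeff j).natDegree ≤ E)
    (hm2 : F2.Monic) (hFd2 : F2.natDegree = r * p2) (hF2 : Prime F2)
    (hkι : Fintype.card ι = r) (w : ℕ) (hw : w = p2 * q2 * r) (t' : ℕ) (ht : q1 ≤ t')
    (m2 n1 D1 : ℕ) (hm2d : m2 = (r * p2) * (9 * q2 * r)) (hn1d : n1 = 10 * w * t' - q1 * r)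
    (hD1d : D1 = r * p1)
    (H : ℝ) (hH : H = Hq m2 (D1 * n1) w (p1 * t') C0 B1 B2)
    (hY1 : |(a1 : ℝ)| ^ t' ≤ P2.Z) (hY2 : P2.Z ≤ |(a1 : ℝ)| ^ (t' + 1))
    (hsmall : (r * p2).factorial * ((m2 : ℝ) * H * (1 + B2) ^ (r * p2)) ^ (r * p2)
      < |(a2 : ℝ)|) :
    ∃ o : ℕ,
      |(a1 : ℝ)| ^ o ≤ |(a1 : ℝ)| ^ (m2 ^ D1) * (((m2 ^ D1).factorial : ℕ) *
          (((D1 * (n1 + E * D1) : ℕ) : ℝ) ^ (m2 ^ D1) *
            (D1.factorial * ((((D1 * n1 : ℕ) : ℝ) * H) * (1 + B1) ^ D1) ^ D1)) ^ (m2 ^ D1)) ∧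
      |(a1 : ℝ)| ^ (w * t') ≤ |(a1 : ℝ)| ^ (2 * E * o) * (|(a1 : ℝ)| ^ (10 * w) *
        ((21 * w + 1) * m2 * B2 ^ (62 * w) * B1 ^ (52 * w * (p1 * t')) *
          (((D1 * n1 : ℕ) : ℝ) * (H * B1 ^ (10 * w * (p1 * t')))))) := by
  have hB1 := P1.hB
  have hB2 := P2.hB
  have hp1 := P1.hp
  have hq1 := P1.hq
  have hp2 := P2.hp
  have hq2 := P2.hq
  have hwr : r ≤ w := by
    rw [hw]
    calc r = 1 * 1 * r := by ring
      _ ≤ p2 * q2 * r := by gcongr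
  have ht1 : 1 ≤ t' := by omega
  have hle : q1 * r ≤ w * t' := by
    calc q1 * r ≤ t' * w := Nat.mul_le_mul ht hwr
      _ = w * t' := by ring
  have hwt : 1 ≤ w * t' := Nat.mul_pos (by omega) ht1
  have h10 : 10 * w * t' = 10 * (w * t') := by ring
  have hn1 : n1 + q1 * r = 10 * w * t' := by omega
  have hn1pos : 0 < n1 := by omega
  have hD1pos : 0 < D1 := by rw [hD1d]; exact Nat.mul_pos (by omega) hp1
  have hD2pos : 0 < r * p2 := Nat.mul_pos (by omega) hp2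
  have hn2pos : 0 < 9 * q2 * r := by
    have : 0 < q2 * r := Nat.mul_pos hq2 (by omega)
    have h : 9 * q2 * r = 9 * (q2 * r) := by ring
    omega
  have hm2pos : 0 < m2 := by rw [hm2d]; exact Nat.mul_pos hD2pos hn2pos
  set t := p1 * t' with htdef
  have hw1 : p1 * n1 + q1 * D1 ≤ 10 * w * t := by
    have : p1 * n1 + q1 * D1 = 10 * w * t := by
      calc p1 * n1 + q1 * D1 = p1 * (n1 + q1 * r) := by rw [hD1d]; ring
        _ = 10 * w * t := by rw [hn1, htdef]; ring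
    exact this.le
  have hw2 : p2 * (9 * q2 * r) + q2 * (r * p2) ≤ 10 * w := by
    have : p2 * (9 * q2 * r) + q2 * (r * p2) = 10 * w := by rw [hw]; ring
    exact this.le
  obtain ⟨T, hT0, hT, hTH⟩ := exists_aux h1 bas C0 hC0 hcoord P1 P2 hr hkι w hw t' ht
  subst hn1d
  subst hD1d
  rw [← htdef, ← hm2d, ← hH] at hTH
  rw [← htdef] at hT
  have hHh1 : 1 ≤ H := by
    rw [hH]
    exact one_le_Hq _ _ w t C0 B1 B2 hm2pos (Nat.mul_pos hD1pos hn1pos) hC0 (by linarith)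
      (by linarith)
  -- nonvanishing of V
  have hV : ∑ μ : Fin (r * p2) × Fin (9 * q2 * r),
      C (C (a2 ^ (μ.2 : ℕ) * b2 ^ (μ.1 : ℕ))) * boxPoly (T μ) ≠ 0 := by
    intro h0
    obtain ⟨μ0, hμ0⟩ : ∃ μ, T μ ≠ 0 := by
      by_contra hcon
      push Not at hcon
      exact hT0 (funext hcon)
    obtain ⟨s0, hs0⟩ : ∃ s, T μ0 s ≠ 0 := by
      by_contra hcon
      push Not at hcon
      exact hμ0 (funext hcon)
    have hG : ev a2 b2 (boxPoly (fun μ => T μ s0)) = 0 := by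
      rw [ev_boxPoly]
      have h2 := congrArg (fun p : ℤ[X][X] => (p.coeff (s0.1 : ℕ)).coeff (s0.2 : ℕ)) h0
      simp only [finsetSum_coeff, coeff_zero] at h2
      rw [← h2]
      apply Finset.sum_congr rfl
      intro μ _
      rw [coeff_C_mul, coeff_C_mul, coeff_boxPoly]
      simp only [Int.cast_id]
      ring
    have hne0 : (fun μ => T μ s0) ≠ 0 := by
      intro h
      exact hs0 (congrFun h μ0)
    have h3 := small_box F2 (r * p2) (9 * q2 * r) hD2pos hm2 hFd2 hF2 a2 b2 P2.a_ne P2.hev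
      (fun μ => T μ s0) hne0 hG H (fun μ => hTH μ s0)
    rw [← hm2d] at h3
    have h4 : ((r * p2).factorial : ℝ) * ((m2 : ℝ) * H * (1 + pn (pn zn) F2) ^ (r * p2)) ^ (r * p2)
        ≤ (r * p2).factorial * ((m2 : ℝ) * H * (1 + B2) ^ (r * p2)) ^ (r * p2) := by
      have h5 := P2.hFn
      have h6 : 0 ≤ pn (pn zn) F2 := apply_nonneg _ _
      gcongr
    linarith
  have hbU : 1 ≤ (((r * p1 * (10 * w * t' - q1 * r) : ℕ) : ℝ) * H) := by
    have h2 : (1 : ℝ) ≤ ((r * p1 * (10 * w * t' - q1 * r) : ℕ) : ℝ) := by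
      have : 0 < r * p1 * (10 * w * t' - q1 * r) := Nat.mul_pos hD1pos hn1pos
      exact_mod_cast this
    nlinarith
  obtain ⟨Y, hXY, hFY, o, ho, hineq⟩ := arith_part F1 (r * p1) E (10 * w * t' - q1 * r) hD1pos hm1
    hFd1 hF1 hFx1 a1 b1 P1.a_ne P1.hev P1.hD hn1pos T (fun μ => a2 ^ (μ.2 : ℕ) * b2 ^ (μ.1 : ℕ))
    (((r * p1 * (10 * w * t' - q1 * r) : ℕ) : ℝ) * H) hbU
    (fun μ => by
      have := pn_boxPoly_le (T μ) H (hTH μ)
      push_cast at this ⊢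
      exact this) hV
  have hcardM : Fintype.card (Fin (r * p2) × Fin (9 * q2 * r)) = m2 := by
    rw [Fintype.card_prod, Fintype.card_fin, Fintype.card_fin, hm2d]
  rw [hcardM] at hineq
  refine ⟨o, ?_, ?_⟩
  · refine hineq.trans ?_
    have h5 := P1.hFn
    have h6 : 0 ≤ pn (pn zn) F1 := apply_nonneg _ _
    gcongr
  · have hlink := link_coeff F1 (∑ μ : Fin (r * p2) × Fin (9 * q2 * r),
      C (C (a2 ^ (μ.2 : ℕ) * b2 ^ (μ.1 : ℕ))) * boxPoly (T μ)) a1 b1 _ rfl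
      P1.hD Y hXY hFY _ P1.hV P1.hF o
    have hana := analytic_part h1 hσ P1 P2 hw1 hw2 T hT H (by linarith) hTH o
    have hone : (1 : ℝ) ≤ |((PowerSeries.coeff o
        (ev (PowerSeries.C a1 + PowerSeries.C ((ev a1 b1 (derivative F1)) ^ 2) * PowerSeries.X)
        (PowerSeries.C b1 + PowerSeries.C (ev a1 b1 (derivative F1)) * Y)
        (∑ μ : Fin (r * p2) × Fin (9 * q2 * r),
          C (C (a2 ^ (μ.2 : ℕ) * b2 ^ (μ.1 : ℕ))) * boxPoly (T μ))) : ℤ) : ℝ)| := by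
      have := Int.one_le_abs ho
      exact_mod_cast this
    rw [hlink, abs_mul] at hone
    have hD2 : |(((ev a1 b1 (derivative F1) : ℤ) : ℝ) ^ 2) ^ o| ≤ |(a1 : ℝ)| ^ (2 * E * o) := by
      rw [← pow_mul, abs_pow]
      calc |((ev a1 b1 (derivative F1) : ℤ) : ℝ)| ^ (2 * o) ≤ (|(a1 : ℝ)| ^ E) ^ (2 * o) :=
            pow_le_pow_left₀ (abs_nonneg _) P1.hDle _
        _ = _ := by rw [← pow_mul]; congr 1; ring
    have hX := P1.Z_ge
    have hA0 := P1.a_ge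
    have hbU' : (0 : ℝ) ≤ (((r * p1 * (10 * w * t' - q1 * r) : ℕ) : ℝ) *
        (H * B1 ^ (10 * w * t))) := by
      have : 0 ≤ B1 := by linarith
      have : 0 ≤ H := by linarith
      positivity
    have hZ := P1.hZ
    have hm2r : (1 : ℝ) ≤ ((r * p2 * (9 * q2 * r) : ℕ) : ℝ) := by
      rw [← hm2d]; exact_mod_cast hm2pos
    have hY1' : P1.Z ^ t ≤ P2.Z := by
      rw [htdef, pow_mul, hZ]; exact hY1
    have hY2' : P2.Z ≤ P1.Z ^ (t + p1) := by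
      have e : t + p1 = p1 * (t' + 1) := by rw [htdef]; ring
      rw [e, pow_mul, hZ]; exact hY2
    have hfb := final_bound P1.Z P2.Z B1 B2 _ _ P1.R hX P1.hR hB1 hB2 hbU' hm2r w t p1 o
      hY1' hY2'
    set G := |PowerSeries.coeff o (ev (PowerSeries.C (a1 : ℝ) + PowerSeries.X)
      (P1.S ^ q1 * sb P1.θ (PowerSeries.map σ P1.ωV))
      (∑ μ : Fin (r * p2) × Fin (9 * q2 * r),
        C (C (a2 ^ (μ.2 : ℕ) * b2 ^ (μ.1 : ℕ))) * boxPoly (T μ)))| with hG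
    have h7 : (1 : ℝ) ≤ |(a1 : ℝ)| ^ (2 * E * o) * G :=
      hone.trans (mul_le_mul_of_nonneg_right hD2 (abs_nonneg _))
    have hX0 : 0 < |(a1 : ℝ)| := by linarith
    have hZ0 := P1.Z_pos
    have e5 : |(a1 : ℝ)| ^ (w * t') = P1.Z ^ (w * t) := by
      rw [← hZ, ← pow_mul]; congr 1; rw [htdef]; ring
    have e6 : |(a1 : ℝ)| ^ (10 * w) = P1.Z ^ (10 * w * p1) := by
      rw [← hZ, ← pow_mul]; congr 1; ring
    have hm2c : ((r * p2 * (9 * q2 * r) : ℕ) : ℝ) = (m2 : ℝ) := by rw [hm2d]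
    rw [hm2c] at hfb hana
    rw [e5, e6]
    calc P1.Z ^ (w * t) = 1 * P1.Z ^ (w * t) := by ring
      _ ≤ (|(a1 : ℝ)| ^ (2 * E * o) * G) * P1.Z ^ (w * t) := by gcongr
      _ = |(a1 : ℝ)| ^ (2 * E * o) * (G * P1.Z ^ (w * t)) := by ring
      _ ≤ _ := by
        apply mul_le_mul_of_nonneg_left _ (by positivity)
        exact (mul_le_mul_of_nonneg_right hana (by positivity)).trans hfb

end Main

end Pool.Agent.Y910.S
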