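import Pool.Agent.Y910.S.C5

/-!
Numerical part: the two-point principle for weighted curves.
-/

open Polynomial Finset

namespace Pool.Agent.Y910.S

open Pool.Agent.H322R2

/-- constants -/
noncomputable def cH (m D w p : ℝ) : ℝ := 13 * (20 * m * D * w + 1 + 31 * w + 31 * w * p)
noncomputable def cU (m D w p : ℝ) : ℝ := 20 * D * w + cH m D w p
noncomputable def c3 (m D w p E R : ℝ) : ℝ :=
  2 * R ^ 2 + R * (R * (2 * D * (10 * w + E * D)) + (2 * D ^ 2 + D * (cU m D w p + 2 * D)))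
noncomputable def c4 (m D w p : ℝ) : ℝ :=
  2 * (21 * w + 1) * m + 62 * w + 52 * w * p + cU m D w p + 10 * w * p
noncomputable def c5 (m D w p D2 : ℝ) : ℝ :=
  2 * D2 ^ 2 + D2 * (2 * m + cH m D w p + 2 * D2)

section logs

variable {m D n1 w p t' E D2 : ℕ} {C0 B1 B2 H : ℝ} (hC0 : 1 ≤ C0) (hB1 : 2 ≤ B1) (hB2 : 2 ≤ B2)
  (ht : 1 ≤ t') (hm : 0 < m) (hD : 0 < D) (hn : 0 < n1) (hn1 : n1 ≤ 10 * w * t')
  (hp : 1 ≤ p) (hH : H = Hq m (D * n1) w (p * t') C0 B1 B2)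

include hC0 hB1 hB2 ht hm hD hn hn1 hp hH

lemma H_pos : 1 ≤ H := by
  rw [hH]
  exact one_le_Hq m (D * n1) w (p * t') C0 B1 B2 hm (Nat.mul_pos hD hn) hC0 (by linarith)
    (by linarith)

lemma n1_le : ((D * n1 : ℕ) : ℝ) ≤ 20 * D * w * SS t' C0 B1 B2 := by
  obtain ⟨f1, f2, f3, f4, f5, f6, f7⟩ := SS_facts hC0 hB1 hB2 ht
  have h1 : ((D * n1 : ℕ) : ℝ) ≤ D * (10 * w * t') := by
    have : D * n1 ≤ D * (10 * w * t') := Nat.mul_le_mul_left _ hn1
    exact_mod_cast this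
  have h2 : (10 * D * w : ℝ) * t' ≤ 10 * D * w * (2 * SS t' C0 B1 B2) :=
    mul_le_mul_of_nonneg_left f7 (by positivity)
  calc ((D * n1 : ℕ) : ℝ) ≤ D * (10 * w * t') := h1
    _ = (10 * D * w : ℝ) * t' := by ring
    _ ≤ 10 * D * w * (2 * SS t' C0 B1 B2) := h2
    _ = _ := by ring

lemma logH_le : Real.log H ≤ cH m D w p * SS t' C0 B1 B2 := by
  obtain ⟨f1, f2, f3, f4, f5, f6, f7⟩ := SS_facts hC0 hB1 hB2 ht
  have hn2 := n1_le hC0 hB1 hB2 ht hm hD hn hn1 hp hH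
  have hC00 : 0 < C0 := by linarith
  have hB10 : 0 < B1 := by linarith
  have hB20 : 0 < B2 := by linarith
  have e4 : (0 : ℝ) < ((m * (D * n1) : ℕ) : ℝ) := by
    have : 0 < m * (D * n1) := Nat.mul_pos hm (Nat.mul_pos hD hn)
    exact_mod_cast this
  have e1 : Real.log H = 13 * (Real.log ((m * (D * n1) : ℕ) : ℝ)
      + (Real.log C0 + (31 * w * Real.log B2 + 31 * w * p * (t' * Real.log B1)))) := by
    rw [hH]
    unfold Hq
    rw [Real.log_pow, Real.log_mul e4.ne' (by positivity), Real.log_mul hC00.ne' (by positivity),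
      Real.log_mul (by positivity) (by positivity), Real.log_pow, Real.log_pow]
    push_cast
    ring
  have e3 : Real.log ((m * (D * n1) : ℕ) : ℝ) ≤ 20 * m * D * w * SS t' C0 B1 B2 := by
    refine (log_le_of _ e4).trans ?_
    rw [Nat.cast_mul]
    calc (m : ℝ) * ((D * n1 : ℕ) : ℝ) ≤ m * (20 * D * w * SS t' C0 B1 B2) :=
          mul_le_mul_of_nonneg_left hn2 (by positivity)
      _ = _ := by ring
  have e5 : 31 * (w : ℝ) * Real.log B2 ≤ 31 * w * SS t' C0 B1 B2 :=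
    mul_le_mul_of_nonneg_left f4 (by positivity)
  have e6 : 31 * (w : ℝ) * p * (t' * Real.log B1) ≤ 31 * w * p * SS t' C0 B1 B2 :=
    mul_le_mul_of_nonneg_left f2 (by positivity)
  rw [e1]
  unfold cH
  nlinarith

lemma logU_le : Real.log (((D * n1 : ℕ) : ℝ) * H) ≤ cU m D w p * SS t' C0 B1 B2 := by
  have hH1 := H_pos hC0 hB1 hB2 ht hm hD hn hn1 hp hH
  have hl := logH_le hC0 hB1 hB2 ht hm hD hn hn1 hp hH
  have hn2 := n1_le hC0 hB1 hB2 ht hm hD hn hn1 hp hH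
  have e4 : (0 : ℝ) < ((D * n1 : ℕ) : ℝ) := by
    have : 0 < D * n1 := Nat.mul_pos hD hn
    exact_mod_cast this
  rw [Real.log_mul e4.ne' (by linarith)]
  have := log_le_of _ e4
  unfold cU
  linarith

lemma small_log (hD2 : 0 < D2) : Real.log (D2.factorial * ((m : ℝ) * H * (1 + B2) ^ D2) ^ D2)
    ≤ c5 m D w p D2 * SS t' C0 B1 B2 := by
  obtain ⟨f1, f2, f3, f4, f5, f6, f7⟩ := SS_facts hC0 hB1 hB2 ht
  have hH1 := H_pos hC0 hB1 hB2 ht hm hD hn hn1 hp hH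
  have hl := logH_le hC0 hB1 hB2 ht hm hD hn hn1 hp hH
  have hB20 : 0 < B2 := by linarith
  have hm0 : (0 : ℝ) < m := by exact_mod_cast hm
  rw [Real.log_mul (by positivity) (by positivity), Real.log_pow,
    Real.log_mul (by positivity) (by positivity), Real.log_mul (by positivity) (by positivity),
    Real.log_pow]
  have e1 := log_fact_le D2
  have e3 := log_one_add_le hB2
  have e2 := log_le_of _ hm0
  have hD0 : (0 : ℝ) ≤ D2 := by positivity
  have e6 : (m : ℝ) * 1 ≤ m * (2 * SS t' C0 B1 B2) := mul_le_mul_of_nonneg_left f6 hm0.le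
  have e7 : (D2 : ℝ) * Real.log (1 + B2) ≤ D2 * (2 * SS t' C0 B1 B2) :=
    mul_le_mul_of_nonneg_left (by linarith) hD0
  have e4 : (D2 : ℝ) * (Real.log m + Real.log H + D2 * Real.log (1 + B2))
      ≤ D2 * ((2 * m + cH m D w p + 2 * D2) * SS t' C0 B1 B2) := by
    apply mul_le_mul_of_nonneg_left _ hD0
    linarith
  have e5 : (D2 : ℝ) ^ 2 * 1 ≤ D2 ^ 2 * (2 * SS t' C0 B1 B2) :=
    mul_le_mul_of_nonneg_left f6 (by positivity)
  unfold c5
  linarith

lemma ineq1_log {X : ℝ} (hX : 0 < X) (o Rn : ℕ)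
    (h : X ^ o ≤ X ^ Rn * ((Rn.factorial : ℕ) *
          (((D * (n1 + E * D) : ℕ) : ℝ) ^ Rn *
            (D.factorial * ((((D * n1 : ℕ) : ℝ) * H) * (1 + B1) ^ D) ^ D)) ^ Rn)) :
    (o : ℝ) * Real.log X ≤ Rn * Real.log X + c3 m D w p E Rn * SS t' C0 B1 B2 := by
  obtain ⟨f1, f2, f3, f4, f5, f6, f7⟩ := SS_facts hC0 hB1 hB2 ht
  have hH1 := H_pos hC0 hB1 hB2 ht hm hD hn hn1 hp hH
  have hU := logU_le hC0 hB1 hB2 ht hm hD hn hn1 hp hH
  have hB10 : 0 < B1 := by linarith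
  have hn0 : (0 : ℝ) < ((D * n1 : ℕ) : ℝ) := by
    have : 0 < D * n1 := Nat.mul_pos hD hn
    exact_mod_cast this
  have hUpos : (0 : ℝ) < ((D * n1 : ℕ) : ℝ) * H := by positivity
  have hEpos : (0 : ℝ) < ((D * (n1 + E * D) : ℕ) : ℝ) := by
    have : 0 < D * (n1 + E * D) := Nat.mul_pos hD (by omega)
    exact_mod_cast this
  obtain ⟨R, hR⟩ : ∃ R : ℝ, R = (Rn : ℝ) := ⟨_, rfl⟩
  have hR0 : 0 ≤ R := by rw [hR]; positivity
  obtain ⟨S, hS⟩ : ∃ S : ℝ, S = SS t' C0 B1 B2 := ⟨_, rfl⟩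
  rw [← hS] at f2 f3 f4 f5 f6 f7 hU ⊢
  have hlogE : Real.log ((D * (n1 + E * D) : ℕ) : ℝ) ≤ 2 * D * (10 * w + E * D) * S := by
    refine (log_le_of _ hEpos).trans ?_
    have e1 : ((D * (n1 + E * D) : ℕ) : ℝ) ≤ ((D * (10 * w * t' + E * D * t') : ℕ) : ℝ) := by
      have : D * (n1 + E * D) ≤ D * (10 * w * t' + E * D * t') := by
        apply Nat.mul_le_mul_left
        have h1 : E * D * 1 ≤ E * D * t' := Nat.mul_le_mul_left _ ht
        omega
      exact_mod_cast this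
    refine e1.trans ?_
    push_cast
    have e2 : ((D : ℝ) * (10 * w + E * D)) * t' ≤ (D * (10 * w + E * D)) * (2 * S) :=
      mul_le_mul_of_nonneg_left f7 (by positivity)
    calc (D : ℝ) * (10 * w * t' + E * D * t') = (D * (10 * w + E * D)) * t' := by ring
      _ ≤ _ := e2
      _ = _ := by ring
  have h' := Real.log_le_log (by positivity) h
  rw [Real.log_pow, Real.log_mul (by positivity) (by positivity), Real.log_pow,
    Real.log_mul (by positivity) (by positivity), Real.log_pow,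
    Real.log_mul (by positivity) (by positivity), Real.log_pow,
    Real.log_mul (by positivity) (by positivity), Real.log_pow,
    Real.log_mul hUpos.ne' (by positivity), Real.log_pow] at h'
  have e1 := log_fact_le Rn
  have e2 := log_fact_le D
  rw [← hR] at h' e1 ⊢
  have hlog1 := log_one_add_le hB1
  have hD0 : (0 : ℝ) ≤ D := by positivity
  have e3 : (D : ℝ) * (Real.log (((D * n1 : ℕ) : ℝ) * H) + D * Real.log (1 + B1))
      ≤ D * ((cU m D w p + 2 * D) * S) := by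
    apply mul_le_mul_of_nonneg_left _ hD0
    have a1 : (D : ℝ) * Real.log (1 + B1) ≤ D * (2 * S) :=
      mul_le_mul_of_nonneg_left (by linarith) hD0
    linarith
  have e4 : R * Real.log ((D * (n1 + E * D) : ℕ) : ℝ)
      ≤ R * (2 * D * (10 * w + E * D) * S) := mul_le_mul_of_nonneg_left hlogE hR0
  have e5 : (D : ℝ) ^ 2 * 1 ≤ D ^ 2 * (2 * S) := mul_le_mul_of_nonneg_left f6 (by positivity)
  have e6 : R ^ 2 * 1 ≤ R ^ 2 * (2 * S) := mul_le_mul_of_nonneg_left f6 (by positivity)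
  have e7 : R * (R * Real.log ((D * (n1 + E * D) : ℕ) : ℝ) +
      (Real.log (D.factorial : ℝ) + D * (Real.log (((D * n1 : ℕ) : ℝ) * H)
        + D * Real.log (1 + B1))))
      ≤ R * (R * (2 * D * (10 * w + E * D) * S) + (2 * D ^ 2 * S
        + D * ((cU m D w p + 2 * D) * S))) := by
    apply mul_le_mul_of_nonneg_left _ hR0
    linarith
  have e8 : c3 m D w p E R * S = 2 * R ^ 2 * S
      + R * (R * (2 * D * (10 * w + E * D) * S) + (2 * D ^ 2 * S
        + D * ((cU m D w p + 2 * D) * S))) := by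
    unfold c3; ring
  rw [e8]
  linarith

lemma ineq2_log {X : ℝ} (hX : 0 < X) (o : ℕ)
    (h : X ^ (w * t') ≤ X ^ (2 * E * o) * (X ^ (10 * w) *
        ((21 * w + 1) * m * B2 ^ (62 * w) * B1 ^ (52 * w * (p * t')) *
          (((D * n1 : ℕ) : ℝ) * (H * B1 ^ (10 * w * (p * t'))))))) :
    w * t' * Real.log X ≤ 2 * E * (o * Real.log X) + 10 * w * Real.log X
      + c4 m D w p * SS t' C0 B1 B2 := by
  obtain ⟨f1, f2, f3, f4, f5, f6, f7⟩ := SS_facts hC0 hB1 hB2 ht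
  have hH1 := H_pos hC0 hB1 hB2 ht hm hD hn hn1 hp hH
  have hU := logU_le hC0 hB1 hB2 ht hm hD hn hn1 hp hH
  have hB10 : 0 < B1 := by linarith
  have hB20 : 0 < B2 := by linarith
  have hm0 : (0 : ℝ) < m := by exact_mod_cast hm
  have hn0 : (0 : ℝ) < ((D * n1 : ℕ) : ℝ) := by
    have : 0 < D * n1 := Nat.mul_pos hD hn
    exact_mod_cast this
  have hUpos : (0 : ℝ) < ((D * n1 : ℕ) : ℝ) * H := by positivity
  have hmw : (0 : ℝ) < (21 * w + 1) * m := by positivity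
  have e0 : ((D * n1 : ℕ) : ℝ) * (H * B1 ^ (10 * w * (p * t')))
      = (((D * n1 : ℕ) : ℝ) * H) * B1 ^ (10 * w * (p * t')) := by ring
  rw [e0] at h
  have h' := Real.log_le_log (by positivity) h
  rw [Real.log_pow, Real.log_mul (by positivity) (by positivity), Real.log_pow,
    Real.log_mul (by positivity) (by positivity), Real.log_pow,
    Real.log_mul (by positivity) (by positivity), Real.log_mul (by positivity) (by positivity),
    Real.log_mul (by positivity) (by positivity), Real.log_pow, Real.log_pow,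
    Real.log_mul hUpos.ne' (by positivity), Real.log_pow] at h'
  push_cast at h'
  have e2 := log_le_of _ hmw
  have e3 : ((21 * (w : ℝ) + 1) * m) * 1 ≤ ((21 * w + 1) * m) * (2 * SS t' C0 B1 B2) :=
    mul_le_mul_of_nonneg_left f6 hmw.le
  have e5 : 62 * (w : ℝ) * Real.log B2 ≤ 62 * w * SS t' C0 B1 B2 :=
    mul_le_mul_of_nonneg_left f4 (by positivity)
  have e6 : 52 * (w : ℝ) * p * (t' * Real.log B1) ≤ 52 * w * p * SS t' C0 B1 B2 :=
    mul_le_mul_of_nonneg_left f2 (by positivity)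
  have e7 : 10 * (w : ℝ) * p * (t' * Real.log B1) ≤ 10 * w * p * SS t' C0 B1 B2 :=
    mul_le_mul_of_nonneg_left f2 (by positivity)
  push_cast at hU
  unfold c4
  linarith

end logs

/-- the exponent of the two-point principle -/
noncomputable def kq (m D w p E D2 q R : ℝ) : ℝ :=
  12 * (2 * E * c3 m D w p E R + c4 m D w p) + 4 * (2 * E * R + 10 * w) + 4 * c5 m D w p D2
    + 4 * q + 100

theorem numeric (r p1 q1 p2 q2 E : ℕ) (hr : 3 ≤ r) (hp1 : 1 ≤ p1) (hq1 : 1 ≤ q1) (hp2 : 1 ≤ p2)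
    (hq2 : 1 ≤ q2) (w : ℕ) (hw : w = p2 * q2 * r)
    (m2 D1 : ℕ) (hm2d : m2 = (r * p2) * (9 * q2 * r)) (hD1d : D1 = r * p1)
    (κ : ℝ) (hκ : κ = kq m2 D1 w p1 E (r * p2 : ℕ) q1 ((m2 ^ D1 : ℕ) : ℝ))
    (C0 B1 B2 X Z Y : ℝ) (hC0 : 1 ≤ C0) (hB1 : 2 ≤ B1) (hB2 : 2 ≤ B2) (hX0 : 0 < X)
    (hZ0 : 1 ≤ Z) (hZY : Z ≤ Y)
    (hx : κ * Real.log B1 ≤ Real.log X)
    (hz : κ * (Real.log X + Real.log B2 + Real.log C0) ≤ Real.log Z) :
    ∃ (t' n1 : ℕ) (H : ℝ), q1 ≤ t' ∧ n1 = 10 * w * t' - q1 * r ∧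
      H = Hq m2 (D1 * n1) w (p1 * t') C0 B1 B2 ∧ X ^ t' ≤ Z ∧ Z ≤ X ^ (t' + 1) ∧
      (r * p2).factorial * ((m2 : ℝ) * H * (1 + B2) ^ (r * p2)) ^ (r * p2) < Y ∧
      ∀ o : ℕ, X ^ o ≤ X ^ (m2 ^ D1) * (((m2 ^ D1).factorial : ℕ) *
          (((D1 * (n1 + E * D1) : ℕ) : ℝ) ^ (m2 ^ D1) *
            (D1.factorial * ((((D1 * n1 : ℕ) : ℝ) * H) * (1 + B1) ^ D1) ^ D1)) ^ (m2 ^ D1)) →
      X ^ (w * t') ≤ X ^ (2 * E * o) * (X ^ (10 * w) *
        ((21 * w + 1) * m2 * B2 ^ (62 * w) * B1 ^ (52 * w * (p1 * t')) *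
          (((D1 * n1 : ℕ) : ℝ) * (H * B1 ^ (10 * w * (p1 * t')))))) → False := by
  obtain ⟨R, hR⟩ : ∃ R : ℝ, R = ((m2 ^ D1 : ℕ) : ℝ) := ⟨_, rfl⟩
  have hR0 : 0 ≤ R := by rw [hR]; positivity
  rw [← hR] at hκ
  have hcH : 0 ≤ cH m2 D1 w p1 := by unfold cH; positivity
  have hcU : 0 ≤ cU m2 D1 w p1 := by unfold cU; positivity
  have hc3 : 0 ≤ c3 m2 D1 w p1 E R := by unfold c3; positivity
  have hc4 : 0 ≤ c4 m2 D1 w p1 := by unfold c4; positivity
  have hc5 : 0 ≤ c5 m2 D1 w p1 (r * p2 : ℕ) := by unfold c5; positivity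
  have hE0 : (0 : ℝ) ≤ E := by positivity
  have hw0 : (0 : ℝ) ≤ w := by positivity
  have hER : 0 ≤ (E : ℝ) * R := by positivity
  have hEc : 0 ≤ (E : ℝ) * c3 m2 D1 w p1 E R := by positivity
  have hq0 : (0 : ℝ) ≤ q1 := by positivity
  have hκ100 : 100 ≤ κ := by rw [hκ]; unfold kq; linarith
  have hκ0 : 0 < κ := by linarith
  obtain ⟨x, hxdef⟩ : ∃ x, x = Real.log X := ⟨_, rfl⟩
  obtain ⟨z, hzdef⟩ : ∃ z, z = Real.log Z := ⟨_, rfl⟩
  rw [← hxdef] at hx hz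
  rw [← hzdef] at hz
  have hβ1 := half_le_log hB1
  have hβ2 := half_le_log hB2
  have hc := Real.log_nonneg hC0
  have hx50 : 50 ≤ x := by
    have : κ * (1 / 2) ≤ κ * Real.log B1 := mul_le_mul_of_nonneg_left hβ1 hκ0.le
    linarith
  have hx0 : 0 < x := by linarith
  set t := ⌊z / x⌋₊ with htdef
  have hzx : κ * x ≤ z := by
    have : κ * x ≤ κ * (x + Real.log B2 + Real.log C0) :=
      mul_le_mul_of_nonneg_left (by linarith) hκ0.le
    linarith
  have hz0 : 0 < z := by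
    have : 0 < κ * x := mul_pos hκ0 hx0
    linarith
  have ht1 : (t : ℝ) ≤ z / x := Nat.floor_le (by positivity)
  have ht2 : z / x < t + 1 := Nat.lt_floor_add_one _
  have ht1' : t * x ≤ z := by
    rwa [le_div_iff₀ (by positivity)] at ht1
  have ht2' : z < (t + 1) * x := by
    rwa [div_lt_iff₀ (by positivity)] at ht2
  have htκ : κ - 1 < t := by
    have h1 : κ ≤ z / x := by
      rw [le_div_iff₀ hx0]; exact hzx
    linarith
  have ht99 : (99 : ℝ) < t := by linarith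
  have htq : (q1 : ℝ) ≤ t := by
    have : 4 * (q1 : ℝ) + 100 ≤ κ := by rw [hκ]; unfold kq; linarith
    linarith
  have htER : 4 * (2 * (E * R) + 10 * w) ≤ t := by
    have : 4 * (2 * (E * R) + 10 * w) + 100 ≤ κ := by rw [hκ]; unfold kq; linarith
    linarith
  have htqn : q1 ≤ t := by exact_mod_cast htq
  have ht1n : 1 ≤ t := hq1.trans htqn
  have hwr : r ≤ w := by
    rw [hw]
    calc r = 1 * 1 * r := by ring
      _ ≤ p2 * q2 * r := by gcongr
  have hw3 : 3 ≤ w := hr.trans hwr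
  have hle : q1 * r ≤ w * t := by
    calc q1 * r ≤ t * w := Nat.mul_le_mul htqn hwr
      _ = w * t := by ring
  have hwt : 1 ≤ w * t := Nat.mul_pos (by omega) ht1n
  have h10 : 10 * w * t = 10 * (w * t) := by ring
  obtain ⟨n1, hn1⟩ : ∃ n1, n1 = 10 * w * t - q1 * r := ⟨_, rfl⟩
  obtain ⟨H, hH⟩ : ∃ H, H = Hq m2 (D1 * n1) w (p1 * t) C0 B1 B2 := ⟨_, rfl⟩
  have hn1pos : 0 < n1 := by omega
  have hn1le : n1 ≤ 10 * w * t := by omega
  have hD1pos : 0 < D1 := by rw [hD1d]; exact Nat.mul_pos (by omega) hp1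
  have hD2pos : 0 < r * p2 := Nat.mul_pos (by omega) hp2
  have hm2pos : 0 < m2 := by
    rw [hm2d]
    apply Nat.mul_pos hD2pos
    have : 0 < q2 * r := Nat.mul_pos hq2 (by omega)
    have h : 9 * q2 * r = 9 * (q2 * r) := by ring
    omega
  have hH1 := H_pos hC0 hB1 hB2 ht1n hm2pos hD1pos hn1pos hn1le hp1 hH
  obtain ⟨f1, f2, f3, f4, f5, f6, f7⟩ := SS_facts hC0 hB1 hB2 ht1n
  obtain ⟨S, hS⟩ : ∃ S : ℝ, S = SS t C0 B1 B2 := ⟨_, rfl⟩
  have hSpos : 0 < S := by rw [hS]; linarith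
  have htx : 0 < t * x := by
    apply mul_pos _ hx0; linarith
  have hx_le : x ≤ t * x := by
    have : 1 * x ≤ t * x := mul_le_mul_of_nonneg_right (by linarith) hx0.le
    linarith
  have hSsmall : κ * S ≤ t * x + z := by
    have h1 : t * (κ * Real.log B1) ≤ t * x := mul_le_mul_of_nonneg_left hx (by linarith)
    have h2 : κ * (Real.log B2 + Real.log C0) ≤ z := by
      have : 0 ≤ κ * x := by positivity
      linarith
    have h4 : κ * S = t * (κ * Real.log B1) + κ * (Real.log B2 + Real.log C0) := by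
      rw [hS]; unfold SS; ring
    rw [h4]; linarith
  have hZpos : 0 < Z := by linarith
  have hYpos : 0 < Y := by linarith
  refine ⟨t, n1, H, htqn, hn1, hH, ?_, ?_, ?_, ?_⟩
  · rw [← Real.log_le_log_iff (by positivity) hZpos, Real.log_pow, ← hxdef, ← hzdef]
    exact ht1'
  · rw [← Real.log_le_log_iff hZpos (by positivity), Real.log_pow, ← hxdef, ← hzdef]
    push_cast
    linarith
  · refine lt_of_lt_of_le ?_ hZY
    have hH0 : 0 < H := by linarith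
    have hm2r : (0 : ℝ) < m2 := by exact_mod_cast hm2pos
    rw [← Real.log_lt_log_iff (by positivity) hZpos, ← hzdef]
    refine lt_of_le_of_lt (small_log hC0 hB1 hB2 ht1n hm2pos hD1pos hn1pos hn1le hp1 hH
      hD2pos) ?_
    rw [← hS]
    have e6 : (4 * c5 m2 D1 w p1 (r * p2 : ℕ)) * S ≤ κ * S := by
      apply mul_le_mul_of_nonneg_right _ hSpos.le
      rw [hκ]; unfold kq; linarith
    linarith
  · intro o h1 h2
    have g1 := ineq1_log hC0 hB1 hB2 ht1n hm2pos hD1pos hn1pos hn1le hp1 hH hX0 o (m2 ^ D1) h1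
    have g2 := ineq2_log hC0 hB1 hB2 ht1n hm2pos hD1pos hn1pos hn1le hp1 hH hX0 o h2
    rw [← hxdef, ← hS, ← hR] at g1
    rw [← hxdef, ← hS] at g2
    have e4 : 2 * (E : ℝ) * (o * x) ≤ 2 * E * (R * x + c3 m2 D1 w p1 E R * S) :=
      mul_le_mul_of_nonneg_left g1 (by positivity)
    have g3 : (12 * (2 * E * c3 m2 D1 w p1 E R + c4 m2 D1 w p1)) * S ≤ κ * S := by
      apply mul_le_mul_of_nonneg_right _ hSpos.le
      rw [hκ]; unfold kq; linarith
    have g4 : (4 * (2 * (E * R) + 10 * w)) * x ≤ t * x :=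
      mul_le_mul_of_nonneg_right htER hx0.le
    have g6 : 3 * (t * x) ≤ w * t * x := by
      have : (3 : ℝ) ≤ w := by exact_mod_cast hw3
      have h5 : 3 * (t * x) ≤ w * (t * x) := mul_le_mul_of_nonneg_right this htx.le
      linarith
    have g7 : z ≤ 2 * (t * x) := by linarith
    have g8 : (12 * (2 * E * c3 m2 D1 w p1 E R + c4 m2 D1 w p1)) * S ≤ 3 * (t * x) := by
      linarith
    clear g3 hSsmall hκ
    linarith

/-- Two huge integer points of very different size, on two weighted curves with branches at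
infinity defined over the same ring `A` near the same real place, do not exist. -/
theorem two_point (r p1 q1 p2 q2 E E2 : ℕ) (hr : 3 ≤ r) :
    ∃ κ : ℝ, 1 ≤ κ ∧
    ∀ {A : Type} [CommRing A] {N : RingSeminorm A} {σ : A →+* ℝ} (_ : N 1 ≤ 1)
      (_ : ∀ x, |σ x| ≤ N x) {ι : Type} [Fintype ι] (bas : Module.Basis ι ℤ A)
      (C0 : ℝ) (_ : 1 ≤ C0) (_ : ∀ x i, |(bas.repr x i : ℝ)| ≤ C0 * N x)
      (_ : Fintype.card ι = r)
      {B1 B2 : ℝ} {F1 F2 : ℤ[X][X]} {a1 b1 a2 b2 : ℤ}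
      (_ : F1.Monic) (_ : F1.natDegree = r * p1) (_ : Prime F1)
      (_ : ∀ j, (F1.coeff j).natDegree ≤ E)
      (_ : F2.Monic) (_ : F2.natDegree = r * p2) (_ : Prime F2)
      (_ : BQ N σ p1 q1 E B1 F1 a1 b1) (P2 : BQ N σ p2 q2 E2 B2 F2 a2 b2)
      (_ : κ * Real.log B1 ≤ Real.log |(a1 : ℝ)|)
      (_ : κ * (Real.log |(a1 : ℝ)| + Real.log B2 + Real.log C0) ≤ Real.log P2.Z), False := by
  refine ⟨max 1 (kq ((r * p2) * (9 * q2 * r) : ℕ) (r * p1 : ℕ) (p2 * q2 * r : ℕ) p1 E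
    (r * p2 : ℕ) q1 ((((r * p2) * (9 * q2 * r)) ^ (r * p1) : ℕ) : ℝ)), le_max_left _ _, ?_⟩
  intro A _ N σ h1 hσ ι _ bas C0 hC0 hcoord hk B1 B2 F1 F2 a1 b1 a2 b2 hm1 hFd1 hF1 hFx1
    hm2 hFd2 hF2 P1 P2 hl1 hl2
  have hb1 := half_le_log P1.hB
  have hb2 := half_le_log P2.hB
  have hc0 := Real.log_nonneg hC0
  have ha1 : 0 ≤ Real.log |(a1 : ℝ)| := Real.log_nonneg (by have := P1.a_ge; linarith)
  have hκle := le_max_right 1 (kq ((r * p2) * (9 * q2 * r) : ℕ) (r * p1 : ℕ)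
    (p2 * q2 * r : ℕ) p1 E (r * p2 : ℕ) q1 ((((r * p2) * (9 * q2 * r)) ^ (r * p1) : ℕ) : ℝ))
  obtain ⟨t', n1, H, ht', hn1, hH, hY1, hY2, hsmall, hcon⟩ := numeric r p1 q1 p2 q2 E hr P1.hp
    P1.hq P2.hp P2.hq (p2 * q2 * r) rfl ((r * p2) * (9 * q2 * r)) (r * p1) rfl rfl _ rfl C0 B1 B2
    |(a1 : ℝ)| P2.Z |(a2 : ℝ)| hC0 P1.hB P2.hB P1.a_pos (by have := P2.Z_ge; linarith) P2.Z_le
    ((mul_le_mul_of_nonneg_right hκle (by linarith)).trans hl1)
    ((mul_le_mul_of_nonneg_right hκle (by linarith)).trans hl2)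
  obtain ⟨o, ho1, ho2⟩ := core_ineq h1 hσ bas C0 hC0 hcoord P1 P2 hr hm1 hFd1 hF1 hFx1 hm2 hFd2 hF2
    hk (p2 * q2 * r) rfl t' ht' ((r * p2) * (9 * q2 * r)) n1 (r * p1) rfl hn1 rfl H hH hY1 hY2
    hsmall
  exact hcon o ho1 ho2

end Pool.Agent.Y910.S
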