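import Pool.Agent.Y910.S.C1

/-!
A Hensel lemma for sums of monomials with coefficients in a ring, with norm control, and local
uniqueness of real solutions.
-/

open Finset

namespace Pool.Agent.Y910.S

open Pool.Agent.H322R2

section Hensel

variable {A : Type*} [CommRing A] {I : Type*} [Fintype I]

/-- Taylor coefficients at `(0,1)` of `∑ c_i s^{e_i} w^{j_i}` -/
noncomputable def tc (c : I → A) (e j : I → ℕ) (p : ℕ × ℕ) : A :=
  ∑ i, if e i = p.1 then c i * ((j i).choose p.2 : A) else 0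

lemma fam_taylor {S : Type*} [CommRing S] (φ : A →+* S) (c : I → A) (e j : I → ℕ) (m n : ℕ)
    (he : ∀ i, e i < m) (hj : ∀ i, j i < n) (s z : S) :
    ∑ i, φ (c i) * s ^ e i * (1 + z) ^ j i
      = ∑ p ∈ range m ×ˢ range n, φ (tc c e j p) * s ^ p.1 * z ^ p.2 := by
  have h1 : ∀ i, φ (c i) * s ^ e i * (1 + z) ^ j i = ∑ p ∈ range m ×ˢ range n,
      φ (if e i = p.1 then c i * ((j i).choose p.2 : A) else 0) * s ^ p.1 * z ^ p.2 := by
    intro i
    rw [add_pow_range (1 : S) z (j i) n (hj i), Finset.sum_product, Finset.mul_sum]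
    symm
    rw [Finset.sum_eq_single (e i)]
    · apply Finset.sum_congr rfl
      intro b _
      rw [if_pos rfl]
      simp only [one_pow, mul_one, map_mul, map_natCast]
      ring
    · intro a _ ha
      apply Finset.sum_eq_zero
      intro b _
      rw [if_neg (fun h => ha h.symm), map_zero, zero_mul, zero_mul]
    · intro h
      exact absurd (Finset.mem_range.2 (he i)) h
  rw [Finset.sum_congr rfl (fun i _ => h1 i), Finset.sum_comm]
  apply Finset.sum_congr rfl
  intro p _
  rw [tc, map_sum, Finset.sum_mul, Finset.sum_mul]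

lemma sum_tc_le (N : RingSeminorm A) (c : I → A) (e j : I → ℕ) (m n : ℕ)
    (he : ∀ i, e i < m) (hj : ∀ i, j i < n) :
    ∑ p ∈ range m ×ˢ range n, N (tc c e j p) ≤ ∑ i, N (c i) * 2 ^ j i := by
  have h1 : ∀ p ∈ range m ×ˢ range n, N (tc c e j p) ≤ ∑ i,
      (if e i = p.1 then N (c i) * ((j i).choose p.2 : ℝ) else 0) := by
    intro p _
    rw [tc]
    refine (seminorm_sum_le N _ _).trans ?_
    apply Finset.sum_le_sum
    intro i _
    split_ifs
    · rw [mul_comm]
      refine (N_natCast_mul_le N _ _).trans (le_of_eq (mul_comm _ _))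
    · rw [map_zero]
  refine (Finset.sum_le_sum h1).trans ?_
  rw [Finset.sum_comm]
  apply Finset.sum_le_sum
  intro i _
  rw [Finset.sum_product]
  rw [Finset.sum_eq_single (e i)]
  · simp only [if_true]
    rw [← Finset.mul_sum]
    apply mul_le_mul_of_nonneg_left _ (apply_nonneg N _)
    have h2 : ∑ b ∈ range n, ((j i).choose b : ℝ) = 2 ^ j i := by
      have h3 := Nat.sum_range_choose (j i)
      have h4 : ∑ b ∈ range n, (j i).choose b = 2 ^ j i := by
        rw [← h3]
        symm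
        apply Finset.sum_subset (Finset.range_subset_range.2 (hj i))
        intro b _ hb
        rw [Finset.mem_range, not_lt] at hb
        exact Nat.choose_eq_zero_of_lt (by omega)
      exact_mod_cast h4
    rw [h2]
  · intro a _ ha
    apply Finset.sum_eq_zero
    intro b _
    rw [if_neg (fun h => ha h.symm)]
  · intro h
    exact absurd (Finset.mem_range.2 (he i)) h

theorem hensel_fam (c : I → A) (e j : I → ℕ) (m n : ℕ) (hm : 0 < m) (hn : 1 < n)
    (he : ∀ i, e i < m) (hj : ∀ i, j i < n)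
    (h0 : ∑ i, (if e i = 0 then c i else 0) = 0) (D : A)
    (hD : D = ∑ i, if e i = 0 then c i * (j i : A) else 0) :
    ∃ Y : PowerSeries A, PowerSeries.X ∣ Y ∧
      ∑ i, PowerSeries.C (c i) * (PowerSeries.C (D ^ 2) * PowerSeries.X) ^ e i *
        (1 + PowerSeries.C D * Y) ^ j i = 0 ∧
      ∀ (N : RingSeminorm A) (_ : N 1 ≤ 1) (T : ℝ), 1 ≤ T →
        (max 1 (N D)) ^ (2 * m + n) * (∑ i, N (c i) * 2 ^ j i) ≤ T →
        Bd N (1 / (4 * T ^ 2)) Y (1 / (2 * T)) := by
  set g : ℕ × ℕ → A := tc c e j with hg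
  have hg00 : g (0, 0) = 0 := by
    rw [hg, tc]
    refine Eq.trans ?_ h0
    apply Finset.sum_congr rfl
    intro i _
    simp only [Nat.choose_zero_right, Nat.cast_one, mul_one]
  have hg01 : g (0, 1) = D := by
    rw [hg, tc, hD]
    apply Finset.sum_congr rfl
    intro i _
    simp only [Nat.choose_one_right]
  set S : Finset (ℕ × ℕ) := (range m ×ˢ range n).filter (fun p => 1 ≤ p.1 ∨ 2 ≤ p.2) with hS
  set cc : ℕ × ℕ → A := fun p => - (D ^ (2 * p.1 + p.2 - 2) * g p) with hcc
  have hS' : ∀ p ∈ S, 1 ≤ p.1 ∨ 2 ≤ p.2 := by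
    intro p hp
    rw [hS, Finset.mem_filter] at hp
    exact hp.2
  refine ⟨fixPt S cc, fixPt_dvd S cc hS', ?_, ?_⟩
  · have h1 := fam_taylor (PowerSeries.C (R := A)) c e j m n he hj
      (PowerSeries.C (D ^ 2) * PowerSeries.X) (PowerSeries.C D * fixPt S cc)
    rw [h1]
    rw [← Finset.sum_filter_add_sum_filter_not (range m ×ˢ range n)
      (fun p => 1 ≤ p.1 ∨ 2 ≤ p.2)]
    have h2 : ∑ p ∈ (range m ×ˢ range n).filter (fun p => 1 ≤ p.1 ∨ 2 ≤ p.2),
        PowerSeries.C (tc c e j p) * (PowerSeries.C (D ^ 2) * PowerSeries.X) ^ p.1 *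
          (PowerSeries.C D * fixPt S cc) ^ p.2 = - (PowerSeries.C (D ^ 2) * fixPt S cc) := by
      have h3 := fixPt_eq S cc hS'
      conv_rhs => rw [← h3]
      rw [fixMap, Finset.mul_sum, ← Finset.sum_neg_distrib]
      apply Finset.sum_congr rfl
      intro p hp
      have h4 : 2 ≤ 2 * p.1 + p.2 := by
        rcases hS' p hp with h | h <;> omega
      obtain ⟨k, hk⟩ : ∃ k, 2 * p.1 + p.2 = k + 2 := ⟨2 * p.1 + p.2 - 2, by omega⟩
      have h5 : 2 * p.1 + p.2 - 2 = k := by omega
      have h55 : cc p = - (D ^ k * g p) := by rw [hcc]; simp only [h5]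
      rw [h55]
      have h6 : (D ^ 2) ^ p.1 * D ^ p.2 = D ^ 2 * D ^ k := by
        rw [← pow_mul, ← pow_add, hk, pow_add, mul_comm]
      have h7 : (PowerSeries.C (D ^ 2) : PowerSeries A) ^ p.1 * PowerSeries.C D ^ p.2
          = PowerSeries.C (D ^ 2) * PowerSeries.C (D ^ k) := by
        rw [← map_pow, ← map_pow, ← map_mul, ← map_mul, h6]
      have h66 : tc c e j p = g p := rfl
      rw [h66]
      generalize fixPt S cc = Y
      rw [mul_pow, mul_pow, map_neg, map_mul]
      linear_combination (PowerSeries.C (g p) * PowerSeries.X ^ p.1 * Y ^ p.2) * h7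
    rw [h2]
    have h8 : ∑ p ∈ (range m ×ˢ range n).filter (fun p => ¬ (1 ≤ p.1 ∨ 2 ≤ p.2)),
        PowerSeries.C (tc c e j p) * (PowerSeries.C (D ^ 2) * PowerSeries.X) ^ p.1 *
          (PowerSeries.C D * fixPt S cc) ^ p.2 = PowerSeries.C (D ^ 2) * fixPt S cc := by
      have h9 : ∀ p ∈ (range m ×ˢ range n).filter (fun p => ¬ (1 ≤ p.1 ∨ 2 ≤ p.2)),
          PowerSeries.C (tc c e j p) * (PowerSeries.C (D ^ 2) * PowerSeries.X) ^ p.1 *
          (PowerSeries.C D * fixPt S cc) ^ p.2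
          = if p = (0, 1) then PowerSeries.C (D ^ 2) * fixPt S cc else 0 := by
        intro p hp
        rw [Finset.mem_filter] at hp
        obtain ⟨_, hp2⟩ := hp
        push Not at hp2
        obtain ⟨p1, p2⟩ := p
        simp only at hp2
        have hp1 : p1 = 0 := by omega
        subst hp1
        have hp3 : p2 = 0 ∨ p2 = 1 := by omega
        have hgg : ∀ x, tc c e j x = g x := fun x => rfl
        rcases hp3 with rfl | rfl
        · rw [hgg, hg00]; simp
        · rw [hgg, hg01, if_pos rfl, sq, map_mul]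
          ring
      rw [Finset.sum_congr rfl h9, Finset.sum_ite_eq', if_pos]
      rw [Finset.mem_filter, Finset.mem_product, Finset.mem_range, Finset.mem_range]
      exact ⟨⟨hm, hn⟩, by simp⟩
    rw [h8]; ring
  · intro N h1 T hT1 hT
    have hT0 : 0 < T := by linarith
    apply fixPt_bd S cc hS' N h1 _ _ (by positivity) (by positivity)
    set Δ := max 1 (N D) with hΔ
    have hΔ1 : 1 ≤ Δ := le_max_left _ _
    have hND : N D ≤ Δ := le_max_right _ _
    set ρ := 1 / (4 * T ^ 2) with hρ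
    set s := 1 / (2 * T) with hs
    have hρ0 : 0 < ρ := by positivity
    have hs0 : 0 < s := by positivity
    have hρ1 : ρ ≤ 1 := by
      rw [hρ, div_le_one (by positivity)]; nlinarith
    have hs1 : s ≤ 1 := by
      rw [hs, div_le_one (by positivity)]; linarith
    have hbound : ∀ p ∈ S, N (cc p) * ρ ^ p.1 * s ^ p.2
        ≤ (Δ ^ (2 * m + n) * N (g p)) * (ρ + s ^ 2) := by
      intro p hp
      have hp' := hp
      rw [hS, Finset.mem_filter, Finset.mem_product, Finset.mem_range, Finset.mem_range] at hp'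
      have b1 : N (cc p) ≤ Δ ^ (2 * m + n) * N (g p) := by
        rw [hcc]
        simp only [map_neg_eq_map]
        refine (map_mul_le_mul N _ _).trans ?_
        apply mul_le_mul_of_nonneg_right _ (apply_nonneg N _)
        refine (seminorm_pow_le N h1 _ _).trans ?_
        refine (pow_le_pow_left₀ (apply_nonneg N _) hND _).trans ?_
        exact pow_le_pow_right₀ hΔ1 (by omega)
      have b2 : ρ ^ p.1 * s ^ p.2 ≤ ρ + s ^ 2 := by
        rcases hS' p hp with h | h
        · have c1 : ρ ^ p.1 ≤ ρ := by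
            calc ρ ^ p.1 ≤ ρ ^ 1 := pow_le_pow_of_le_one hρ0.le hρ1 h
              _ = ρ := pow_one _
          have c2 : s ^ p.2 ≤ 1 := pow_le_one₀ hs0.le hs1
          have c3 : 0 ≤ s ^ p.2 := by positivity
          have c4 : 0 ≤ s ^ 2 := by positivity
          nlinarith
        · have c1 : s ^ p.2 ≤ s ^ 2 := pow_le_pow_of_le_one hs0.le hs1 h
          have c2 : ρ ^ p.1 ≤ 1 := pow_le_one₀ hρ0.le hρ1
          have c3 : 0 ≤ ρ ^ p.1 := by positivity
          have c4 : 0 ≤ s ^ p.2 := by positivity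
          nlinarith
      rw [mul_assoc]
      exact mul_le_mul b1 b2 (by positivity)
        (mul_nonneg (by positivity) (apply_nonneg N _))
    refine (Finset.sum_le_sum hbound).trans ?_
    rw [← Finset.sum_mul, ← Finset.mul_sum]
    have hsum : ∑ p ∈ S, N (g p) ≤ ∑ i, N (c i) * 2 ^ j i := by
      refine le_trans ?_ (sum_tc_le N c e j m n he hj)
      apply Finset.sum_le_sum_of_subset_of_nonneg (Finset.filter_subset _ _)
      intro _ _ _; exact apply_nonneg N _
    have hle : Δ ^ (2 * m + n) * ∑ p ∈ S, N (g p) ≤ T :=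
      (mul_le_mul_of_nonneg_left hsum (by positivity)).trans hT
    calc Δ ^ (2 * m + n) * (∑ p ∈ S, N (g p)) * (ρ + s ^ 2) ≤ T * (ρ + s ^ 2) :=
          mul_le_mul_of_nonneg_right hle (by positivity)
      _ = s := by
          rw [hρ, hs]; field_simp; ring

end Hensel

section Unique

/-- local uniqueness of real solutions near `w = 1` -/
lemma fam_unique {I : Type*} [Fintype I] (c : I → ℝ) (e j : I → ℕ) (n : ℕ) (hj : ∀ i, j i ≤ n)
    (s w1 w2 ρ : ℝ) (hρ1 : ρ ≤ 1) (hs : |s| ≤ ρ) (h1 : |w1 - 1| ≤ ρ) (h2 : |w2 - 1| ≤ ρ)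
    (heq : ∑ i, c i * s ^ e i * w1 ^ j i = ∑ i, c i * s ^ e i * w2 ^ j i)
    (hD : (∑ i, |c i|) * (n * 2 ^ n) * ρ < |∑ i, if e i = 0 then c i * (j i : ℝ) else 0|) :
    w1 = w2 := by
  have hρ0 : 0 ≤ ρ := (abs_nonneg _).trans hs
  by_contra hne
  set h : ℕ → ℝ := fun k => ∑ a ∈ range k, w1 ^ a * w2 ^ (k - 1 - a) with hh
  have hfac : ∀ k, w1 ^ k - w2 ^ k = h k * (w1 - w2) := by
    intro k
    rw [hh]
    simp only
    rw [geom_sum₂_mul]
  have hsum : (∑ i, c i * s ^ e i * h (j i)) * (w1 - w2) = 0 := by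
    rw [Finset.sum_mul]
    have : ∑ i, c i * s ^ e i * h (j i) * (w1 - w2)
        = ∑ i, c i * s ^ e i * w1 ^ j i - ∑ i, c i * s ^ e i * w2 ^ j i := by
      rw [← Finset.sum_sub_distrib]
      apply Finset.sum_congr rfl
      intro i _
      have := hfac (j i)
      linear_combination (-(c i * s ^ e i)) * this
    rw [this, heq, sub_self]
  have hsum0 : ∑ i, c i * s ^ e i * h (j i) = 0 := by
    rcases mul_eq_zero.1 hsum with h3 | h3
    · exact h3
    · exact absurd (sub_eq_zero.1 h3) hne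
  -- bounds
  have hw1 : |w1| ≤ 1 + ρ := by
    have := abs_sub_abs_le_abs_sub w1 1
    rw [abs_one] at this
    linarith
  have hw2 : |w2| ≤ 1 + ρ := by
    have := abs_sub_abs_le_abs_sub w2 1
    rw [abs_one] at this
    linarith
  have hconv : ∀ k : ℕ, (1 + ρ) ^ k - 1 ≤ (2 ^ k - 1) * ρ := by
    intro k
    induction k with
    | zero => simp
    | succ k ih =>
      have h3 : (1 : ℝ) ≤ 2 ^ k := one_le_pow₀ (by norm_num)
      rw [pow_succ, pow_succ]
      nlinarith [mul_nonneg hρ0 (sub_nonneg.2 hρ1), mul_nonneg (sub_nonneg.2 h3) hρ0,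
        mul_nonneg (mul_nonneg (sub_nonneg.2 h3) hρ0) (sub_nonneg.2 hρ1)]
  have hpowsub : ∀ (w : ℝ) (k : ℕ), |w - 1| ≤ ρ → |w| ≤ 1 + ρ → |w ^ k - 1| ≤ (1 + ρ) ^ k - 1 := by
    intro w k hw hw'
    induction k with
    | zero => simp
    | succ k ih =>
      have e1 : w ^ (k + 1) - 1 = w * (w ^ k - 1) + (w - 1) := by ring
      rw [e1, pow_succ]
      refine (abs_add_le _ _).trans ?_
      rw [abs_mul]
      have e2 : |w| * |w ^ k - 1| ≤ (1 + ρ) * ((1 + ρ) ^ k - 1) :=
        mul_le_mul hw' ih (abs_nonneg _) (by linarith)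
      linarith
  have hterm : ∀ a b : ℕ, |w1 ^ a * w2 ^ b - 1| ≤ 2 ^ (a + b) * ρ := by
    intro a b
    have e1 : w1 ^ a * w2 ^ b - 1 = w1 ^ a * (w2 ^ b - 1) + (w1 ^ a - 1) := by ring
    rw [e1]
    refine (abs_add_le _ _).trans ?_
    rw [abs_mul, abs_pow]
    have e2 : |w1| ^ a ≤ (1 + ρ) ^ a := pow_le_pow_left₀ (abs_nonneg _) hw1 a
    have e3 := hpowsub w2 b h2 hw2
    have e4 := hpowsub w1 a h1 hw1
    have e5 : |w1| ^ a * |w2 ^ b - 1| ≤ (1 + ρ) ^ a * ((1 + ρ) ^ b - 1) :=
      mul_le_mul e2 e3 (abs_nonneg _) (by positivity)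
    have e6 := hconv (a + b)
    rw [pow_add (1 + ρ)] at e6
    nlinarith
  have hhj : ∀ k ≤ n, |h k - k| ≤ n * 2 ^ n * ρ := by
    intro k hk
    have e1 : h k - k = ∑ a ∈ range k, (w1 ^ a * w2 ^ (k - 1 - a) - 1) := by
      rw [Finset.sum_sub_distrib]
      simp [hh]
    rw [e1]
    refine (Finset.abs_sum_le_sum_abs _ _).trans ?_
    have e2 : ∀ a ∈ range k, |w1 ^ a * w2 ^ (k - 1 - a) - 1| ≤ 2 ^ n * ρ := by
      intro a ha
      rw [Finset.mem_range] at ha
      refine (hterm a (k - 1 - a)).trans ?_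
      apply mul_le_mul_of_nonneg_right _ hρ0
      exact pow_le_pow_right₀ (by norm_num) (by omega)
    refine (Finset.sum_le_sum e2).trans ?_
    rw [Finset.sum_const, Finset.card_range, nsmul_eq_mul, mul_assoc]
    apply mul_le_mul_of_nonneg_right _ (by positivity)
    exact_mod_cast hk
  have hhb : ∀ k ≤ n, |h k| ≤ n * 2 ^ n := by
    intro k hk
    refine (Finset.abs_sum_le_sum_abs _ _).trans ?_
    have e2 : ∀ a ∈ range k, |w1 ^ a * w2 ^ (k - 1 - a)| ≤ 2 ^ n := by
      intro a ha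
      rw [Finset.mem_range] at ha
      rw [abs_mul, abs_pow, abs_pow]
      calc |w1| ^ a * |w2| ^ (k - 1 - a) ≤ 2 ^ a * 2 ^ (k - 1 - a) := by
            apply mul_le_mul (pow_le_pow_left₀ (abs_nonneg _) (by linarith) _)
              (pow_le_pow_left₀ (abs_nonneg _) (by linarith) _) (by positivity) (by positivity)
        _ = 2 ^ (a + (k - 1 - a)) := by rw [pow_add]
        _ ≤ 2 ^ n := pow_le_pow_right₀ (by norm_num) (by omega)
    refine (Finset.sum_le_sum e2).trans ?_
    rw [Finset.sum_const, Finset.card_range, nsmul_eq_mul]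
    apply mul_le_mul_of_nonneg_right _ (by positivity)
    exact_mod_cast hk
  have hdiff : |∑ i, c i * s ^ e i * h (j i) - ∑ i, (if e i = 0 then c i * (j i : ℝ) else 0)|
      ≤ (∑ i, |c i|) * (n * 2 ^ n) * ρ := by
    rw [← Finset.sum_sub_distrib]
    refine (Finset.abs_sum_le_sum_abs _ _).trans ?_
    rw [mul_assoc, Finset.sum_mul]
    apply Finset.sum_le_sum
    intro i _
    split_ifs with hi
    · rw [hi, pow_zero, mul_one, ← mul_sub, abs_mul]
      exact mul_le_mul_of_nonneg_left (hhj _ (hj i)) (abs_nonneg _)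
    · rw [sub_zero, abs_mul, abs_mul, mul_assoc]
      apply mul_le_mul_of_nonneg_left _ (abs_nonneg _)
      rw [mul_comm]
      apply mul_le_mul (hhb _ (hj i)) _ (abs_nonneg _) (by positivity)
      rw [abs_pow]
      calc |s| ^ e i ≤ |s| ^ 1 :=
            pow_le_pow_of_le_one (abs_nonneg _) (hs.trans hρ1) (by omega)
        _ ≤ ρ := by rw [pow_one]; exact hs
  rw [hsum0, zero_sub, abs_neg] at hdiff
  exact absurd (lt_of_lt_of_le hD hdiff) (lt_irrefl _)

end Unique

end Pool.Agent.Y910.S
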