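import Pool.Agent.Y910.S.C1

/-!
Real `p`-th root series.
-/

open Finset

namespace Pool.Agent.Y910.S

open Pool.Agent.H322R2

lemma abs_descPoch_le (x : ℝ) (hx : |x| ≤ 1) (n : ℕ) :
    |(descPochhammer ℝ n).eval x| ≤ n.factorial := by
  induction n with
  | zero => simp
  | succ n ih =>
    rw [descPochhammer_succ_right, Polynomial.eval_mul, abs_mul, Nat.factorial_succ]
    have h1 : |Polynomial.eval x (Polynomial.X - (n : Polynomial ℝ))| ≤ n + 1 := by
      simp only [Polynomial.eval_sub, Polynomial.eval_X, Polynomial.eval_natCast]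
      refine (abs_sub _ _).trans ?_
      rw [Nat.abs_cast]
      linarith
    push_cast
    calc |Polynomial.eval x (descPochhammer ℝ n)| *
          |Polynomial.eval x (Polynomial.X - (n : Polynomial ℝ))|
        ≤ n.factorial * (n + 1) := mul_le_mul ih h1 (abs_nonneg _) (by positivity)
      _ = _ := by ring

lemma abs_choose_le (x : ℝ) (hx : |x| ≤ 1) (n : ℕ) : |Ring.choose x n| ≤ 1 := by
  have h := Ring.descPochhammer_eq_factorial_smul_choose x n
  have h1 : (descPochhammer ℤ n).smeval x = (descPochhammer ℝ n).eval x := by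
    rw [← descPochhammer_map (algebraMap ℤ ℝ), Polynomial.eval_map, ← Polynomial.eval₂_smulOneHom_eq_smeval]
    congr 1
    exact RingHom.ext_int _ _
  rw [h1, nsmul_eq_mul] at h
  have h2 := abs_descPoch_le x hx n
  rw [h, abs_mul, Nat.abs_cast] at h2
  have h3 : (0 : ℝ) < n.factorial := by exact_mod_cast n.factorial_pos
  by_contra hcon
  push Not at hcon
  have : (n.factorial : ℝ) * 1 < n.factorial * |Ring.choose x n| :=
    mul_lt_mul_of_pos_left hcon h3
  linarith

lemma bd_binom (x : ℝ) (hx : |x| ≤ 1) (a : ℝ) (ha : 2 ≤ |a|) :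
    Bd rn 1 (PowerSeries.rescale (1 / a) (PowerSeries.binomialSeries ℝ x)) 2 := by
  intro K
  have h1 : ∀ n ∈ range K, rn (PowerSeries.coeff n (PowerSeries.rescale (1 / a)
      (PowerSeries.binomialSeries ℝ x))) * 1 ^ n ≤ (1 / 2) ^ n := by
    intro n _
    rw [one_pow, mul_one, PowerSeries.coeff_rescale, PowerSeries.binomialSeries_coeff, rn_apply,
      abs_mul, abs_pow, smul_eq_mul, mul_one, abs_div, abs_one]
    have h2 := abs_choose_le x hx n
    have h3 : (1 / |a|) ^ n ≤ (1 / 2) ^ n := by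
      apply pow_le_pow_left₀ (by positivity)
      exact one_div_le_one_div_of_le (by norm_num) ha
    calc (1 / |a|) ^ n * |Ring.choose x n| ≤ (1 / 2) ^ n * 1 :=
          mul_le_mul h3 h2 (abs_nonneg _) (by positivity)
      _ = _ := mul_one _
  refine (Finset.sum_le_sum h1).trans ?_
  have := geom_sum_eq (x := (1 / 2 : ℝ)) (by norm_num) K
  rw [this]
  have h3 : 0 ≤ (1 / 2 : ℝ) ^ K := by positivity
  have h4 : ((1 / 2 : ℝ) ^ K - 1) / (1 / 2 - 1) = 2 - 2 * (1 / 2) ^ K := by
    have : (1 / 2 - 1 : ℝ) = -(1 / 2) := by norm_num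
    rw [this]
    ring
  rw [h4]
  linarith

/-- the `p`-th root of `1 + X / a` -/
lemma exists_root_series (p : ℕ) (hp : 1 ≤ p) (a : ℝ) (ha : 2 ≤ |a|) :
    ∃ y yi : PowerSeries ℝ, Bd rn 1 y 2 ∧ Bd rn 1 yi 2 ∧ y * yi = 1 ∧
      PowerSeries.C a * y ^ p = PowerSeries.C a + PowerSeries.X ∧
      PowerSeries.constantCoeff y = 1 ∧ PowerSeries.constantCoeff yi = 1 := by
  have ha0 : a ≠ 0 := by
    rintro rfl
    simp at ha
    linarith
  have hp0 : (0 : ℝ) < p := by exact_mod_cast hp
  have hp1 : (1 : ℝ) ≤ p := by exact_mod_cast hp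
  have hx1 : |(1 : ℝ) / p| ≤ 1 := by
    rw [abs_of_nonneg (by positivity), div_le_one hp0]; exact hp1
  have hx2 : |-((1 : ℝ) / p)| ≤ 1 := by rw [abs_neg]; exact hx1
  refine ⟨_, _, bd_binom (1 / p) hx1 a ha, bd_binom (-(1 / p)) hx2 a ha, ?_, ?_, ?_, ?_⟩
  · rw [← map_mul, ← PowerSeries.binomialSeries_add, add_neg_cancel,
      PowerSeries.binomialSeries_zero, map_one]
  · have h1 : ∀ n : ℕ, (PowerSeries.binomialSeries ℝ ((1 : ℝ) / p)) ^ n
        = PowerSeries.binomialSeries ℝ (n * ((1 : ℝ) / p)) := by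
      intro n
      induction n with
      | zero => simp
      | succ n ih =>
        rw [pow_succ, ih, ← PowerSeries.binomialSeries_add]
        congr 1
        push_cast
        ring
    rw [← map_pow, h1]
    have h2 : (p : ℝ) * (1 / p) = ((1 : ℕ) : ℝ) := by
      rw [Nat.cast_one]; field_simp
    rw [h2, PowerSeries.binomialSeries_nat, pow_one, map_add, map_one]
    have h3 : PowerSeries.rescale (1 / a) (PowerSeries.X : PowerSeries ℝ)
        = PowerSeries.C (1 / a) * PowerSeries.X := by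
      ext i
      rw [PowerSeries.coeff_rescale, PowerSeries.coeff_C_mul, PowerSeries.coeff_X]
      split_ifs with h
      · rw [h]; simp
      · simp
    rw [h3, mul_add, mul_one, ← mul_assoc, ← map_mul]
    have h4 : a * (1 / a) = 1 := by field_simp
    rw [h4, map_one, one_mul]
  · rw [← PowerSeries.coeff_zero_eq_constantCoeff_apply, PowerSeries.coeff_rescale]
    simp
  · rw [← PowerSeries.coeff_zero_eq_constantCoeff_apply, PowerSeries.coeff_rescale]
    simp

/-- choice of the real parameter -/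
lemma exists_real_root (c d : ℝ) (p q : ℕ) (hp : 1 ≤ p) (hpq : Nat.Coprime p q)
    (hd : d ≠ 0) (hc : c ≠ 0) (h : 0 < c ^ q * d ^ p) : ∃ S : ℝ, S ^ p = c ∧ 0 < S ^ q * d := by
  rcases Nat.even_or_odd p with he | ho
  · have hqo : Odd q := by
      rcases Nat.even_or_odd q with h1 | h1
      · exfalso
        have := Nat.dvd_gcd he.two_dvd h1.two_dvd
        rw [hpq] at this
        omega
      · exact h1
    have hdp : 0 < d ^ p := he.pow_pos hd
    have hcq : 0 < c ^ q := by
      by_contra hcon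
      push Not at hcon
      nlinarith
    have hc0 : 0 < c := hqo.pow_pos_iff.1 hcq
    obtain ⟨R, hR0, hR⟩ : ∃ R : ℝ, 0 < R ∧ R ^ p = c := by
      refine ⟨c ^ ((1 : ℝ) / p), Real.rpow_pos_of_pos hc0 _, ?_⟩
      rw [← Real.rpow_natCast, ← Real.rpow_mul hc0.le]
      have : (1 : ℝ) / p * p = 1 := by
        have : (p : ℝ) ≠ 0 := by exact_mod_cast (by omega : p ≠ 0)
        field_simp
      rw [this, Real.rpow_one]
    rcases lt_or_gt_of_ne hd with hd1 | hd1
    · refine ⟨-R, ?_, ?_⟩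
      · rw [he.neg_pow, hR]
      · rw [hqo.neg_pow]
        have : 0 < R ^ q := by positivity
        nlinarith
    · exact ⟨R, hR, by positivity⟩
  · obtain ⟨R, hR0, hR⟩ : ∃ R : ℝ, 0 < R ∧ R ^ p = |c| := by
      have hc0 : 0 < |c| := abs_pos.2 hc
      refine ⟨|c| ^ ((1 : ℝ) / p), Real.rpow_pos_of_pos hc0 _, ?_⟩
      rw [← Real.rpow_natCast, ← Real.rpow_mul hc0.le]
      have : (1 : ℝ) / p * p = 1 := by
        have : (p : ℝ) ≠ 0 := by exact_mod_cast (by omega : p ≠ 0)
        field_simp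
      rw [this, Real.rpow_one]
    obtain ⟨S, hS⟩ : ∃ S : ℝ, S ^ p = c := by
      rcases lt_or_gt_of_ne hc with hc1 | hc1
      · refine ⟨-R, ?_⟩
        rw [ho.neg_pow, hR, abs_of_neg hc1, neg_neg]
      · exact ⟨R, by rw [hR, abs_of_pos hc1]⟩
    refine ⟨S, hS, ?_⟩
    have h2 : c ^ q * d ^ p = (S ^ q * d) ^ p := by
      rw [← hS, mul_pow, ← pow_mul, ← pow_mul, mul_comm p q]
    rw [h2] at h
    exact ho.pow_pos_iff.1 h

end Pool.Agent.Y910.S
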