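import Pool.Agent.Y910.S.H1
import Pool.Agent.Y910.S.H2

/-!
Weighted nondegenerate polynomials and their expansion at infinity.
-/

open Polynomial Finset

namespace Pool.Agent.Y910.S

open Pool.Agent.H322R2

/-- `G(U,V)` monic in `V` of degree `r p`, all monomials `U^i V^j` satisfy
`p i + q j ≤ p q r`. -/
def WN (r p q : ℕ) (G : ℤ[X][X]) : Prop :=
  G.Monic ∧ G.natDegree = r * p ∧ ∀ i j, (G.coeff j).coeff i ≠ 0 → p * i + q * j ≤ p * q * r

/-- the edge polynomial -/
noncomputable def wl (r p q : ℕ) (G : ℤ[X][X]) : ℤ[X] :=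
  ∑ l ∈ range (r + 1), monomial l ((G.coeff (p * l)).coeff (q * (r - l)))

section basic

variable {r p q : ℕ} {G : ℤ[X][X]}

lemma wl_coeff (l : ℕ) (hl : l ≤ r) :
    (wl r p q G).coeff l = (G.coeff (p * l)).coeff (q * (r - l)) := by
  rw [wl, finsetSum_coeff, Finset.sum_eq_single l]
  · rw [coeff_monomial, if_pos rfl]
  · intro b _ hb
    rw [coeff_monomial, if_neg hb]
  · intro h
    exact absurd (Finset.mem_range.2 (by omega)) h

lemma wl_natDegree_le : (wl r p q G).natDegree ≤ r := by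
  rw [wl]
  apply natDegree_sum_le_of_forall_le
  intro l hl
  rw [Finset.mem_range] at hl
  exact (natDegree_monomial_le _).trans (by omega)

lemma wl_monic (hG : WN r p q G) : (wl r p q G).Monic ∧ (wl r p q G).natDegree = r := by
  have h1 : (wl r p q G).coeff r = 1 := by
    rw [wl_coeff r le_rfl, Nat.sub_self, mul_zero]
    have h2 : G.coeff (p * r) = 1 := by
      have := hG.1
      rw [Monic, leadingCoeff, hG.2.1, mul_comm] at this
      exact this
    rw [h2]; simp
  have h3 : (wl r p q G).natDegree = r := by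
    apply le_antisymm wl_natDegree_le
    apply le_natDegree_of_ne_zero
    rw [h1]; exact one_ne_zero
  refine ⟨?_, h3⟩
  rw [Monic, leadingCoeff, h3, h1]

lemma natDegree_coeff_le (hG : WN r p q G) (hp : 1 ≤ p) (j : ℕ) :
    (G.coeff j).natDegree ≤ q * r := by
  rw [natDegree_le_iff_coeff_eq_zero]
  intro i hi
  by_contra hne
  have h1 := hG.2.2 i j hne
  have h2 : p * (q * r) < p * i := Nat.mul_lt_mul_of_pos_left hi hp
  have h3 : p * (q * r) = p * q * r := by ring
  omega

/-- index set of the monomials -/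
abbrev Ix (r p q : ℕ) : Type := Fin (q * r + 1) × Fin (r * p + 1)

variable {A : Type*} [CommRing A]

/-- coefficients of the equation for the normalised second coordinate -/
noncomputable def cf (r p q α β : ℕ) (G : ℤ[X][X]) (τ : A) (x : Ix r p q) : A :=
  (((G.coeff (x.2 : ℕ)).coeff (x.1 : ℕ) : ℤ) : A) * τ ^ (α * x.1 + β * x.2)

/-- exponents of the parameter -/
def ex (r p q : ℕ) (x : Ix r p q) : ℕ := p * q * r - (p * x.1 + q * x.2)

lemma sum_edge (hG : WN r p q G) (hp : 1 ≤ p) (hq : 1 ≤ q) (hpq : Nat.Coprime p q)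
    (α β : ℕ) (τ : A) (f : ℕ → ℕ → A) :
    ∑ x : Ix r p q, (if ex r p q x = 0 then cf r p q α β G τ x * f x.1 x.2 else 0)
      = ∑ l ∈ range (r + 1), (((wl r p q G).coeff l : ℤ) : A) *
          τ ^ (α * (q * (r - l)) + β * (p * l)) * f (q * (r - l)) (p * l) := by
  rw [← Fin.sum_univ_eq_sum_range (fun l => (((wl r p q G).coeff l : ℤ) : A) *
          τ ^ (α * (q * (r - l)) + β * (p * l)) * f (q * (r - l)) (p * l)) (r + 1)]
  symm
  have hlt1 : ∀ l : Fin (r + 1), q * (r - l) < q * r + 1 := fun l => by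
    have : q * (r - l) ≤ q * r := Nat.mul_le_mul_left _ (Nat.sub_le _ _)
    omega
  have hlt2 : ∀ l : Fin (r + 1), p * (l : ℕ) < r * p + 1 := fun l => by
    have h1 : (l : ℕ) ≤ r := by have := l.2; omega
    have : p * (l : ℕ) ≤ p * r := Nat.mul_le_mul_left _ h1
    have h2 : p * r = r * p := mul_comm _ _
    omega
  refine Finset.sum_of_injOn
    (fun l : Fin (r + 1) => ((⟨q * (r - l), hlt1 l⟩, ⟨p * l, hlt2 l⟩) : Ix r p q)) ?_ ?_ ?_ ?_
  · intro l1 _ l2 _ h
    have h1 := congrArg (fun x : Ix r p q => (x.2 : ℕ)) h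
    simp only at h1
    exact Fin.ext (Nat.eq_of_mul_eq_mul_left hp h1)
  · intro l _
    exact Finset.mem_coe.2 (Finset.mem_univ _)
  · intro x _ hx
    split_ifs with he
    · have hc0 : (G.coeff (x.2 : ℕ)).coeff (x.1 : ℕ) = 0 := by
        by_contra hne
        have h1 := hG.2.2 _ _ hne
        unfold ex at he
        have h2 : p * (x.1 : ℕ) + q * x.2 = p * q * r := by omega
        have h3 : p ∣ q * (x.2 : ℕ) := by
          have h4 : p ∣ p * (x.1 : ℕ) + q * x.2 := by rw [h2]; exact ⟨q * r, by ring⟩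
          exact (Nat.dvd_add_right (Dvd.intro _ rfl)).1 h4
        obtain ⟨l, hl⟩ := (hpq.dvd_mul_left).1 h3
        have h5 : (x.1 : ℕ) + q * l = q * r := by
          apply Nat.eq_of_mul_eq_mul_left hp
          calc p * ((x.1 : ℕ) + q * l) = p * x.1 + q * (p * l) := by ring
            _ = p * q * r := by rw [← hl]; exact h2
            _ = p * (q * r) := by ring
        have hlr : l ≤ r := by
          apply Nat.le_of_mul_le_mul_left _ hq
          omega
        apply hx
        refine ⟨⟨l, by omega⟩, Finset.mem_coe.2 (Finset.mem_univ _), ?_⟩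
        apply Prod.ext
        · apply Fin.ext
          simp only
          have h6 : q * (r - l) + q * l = q * r := by
            rw [← mul_add]; congr 1; omega
          omega
        · apply Fin.ext
          simp only
          exact hl.symm
      rw [cf, hc0]; simp
    · rfl
  · intro l _
    have he : ex r p q ((⟨q * (r - l), hlt1 l⟩, ⟨p * l, hlt2 l⟩) : Ix r p q) = 0 := by
      unfold ex
      simp only
      have h1 : (l : ℕ) ≤ r := by have := l.2; omega
      have h2 : p * (q * (r - l)) + q * (p * l) = p * q * r := by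
        calc p * (q * (r - l)) + q * (p * l) = p * q * ((r - l) + l) := by ring
          _ = p * q * r := by congr 1; omega
      omega
    rw [if_pos he, cf, wl_coeff _ (by have := l.2; omega)]

lemma exp_edge (α β l : ℕ) (hαβ : β * p = α * q + 1) (hl : l ≤ r) :
    α * (q * (r - l)) + β * (p * l) = α * q * r + l := by
  calc α * (q * (r - l)) + β * (p * l) = α * q * (r - l) + (β * p) * l := by ring
    _ = α * q * ((r - l) + l) + l := by rw [hαβ]; ring
    _ = _ := by congr 2; omega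

lemma cf_zero (hG : WN r p q G) (hp : 1 ≤ p) (hq : 1 ≤ q) (hpq : Nat.Coprime p q)
    (α β : ℕ) (hαβ : β * p = α * q + 1) (τ : A) (hτ : evf τ (wl r p q G) = 0) :
    ∑ x : Ix r p q, (if ex r p q x = 0 then cf r p q α β G τ x else 0) = 0 := by
  have h := sum_edge hG hp hq hpq α β τ (fun _ _ => 1)
  simp only [mul_one] at h
  rw [h]
  have h2 : ∑ l ∈ range (r + 1), (((wl r p q G).coeff l : ℤ) : A) *
      τ ^ (α * (q * (r - l)) + β * (p * l)) = τ ^ (α * q * r) * evf τ (wl r p q G) := by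
    rw [evf_sum τ _ (Nat.lt_succ_of_le wl_natDegree_le), Finset.mul_sum]
    apply Finset.sum_congr rfl
    intro l hl
    rw [Finset.mem_range] at hl
    rw [exp_edge α β l hαβ (by omega), pow_add]
    ring
  rw [h2, hτ, mul_zero]

lemma cf_der (hG : WN r p q G) (hp : 1 ≤ p) (hq : 1 ≤ q) (hpq : Nat.Coprime p q)
    (α β : ℕ) (hαβ : β * p = α * q + 1) (τ : A) :
    ∑ x : Ix r p q, (if ex r p q x = 0 then cf r p q α β G τ x * ((x.2 : ℕ) : A) else 0)
      = p * τ ^ (α * q * r + 1) * evf τ (derivative (wl r p q G)) := by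
  have h := sum_edge hG hp hq hpq α β τ (fun _ n => (n : A))
  rw [h]
  have h3 : τ * evf τ (derivative (wl r p q G))
      = ∑ l ∈ range (r + 1), (((wl r p q G).coeff l : ℤ) : A) * l * τ ^ l := by
    rw [derivative_apply, Polynomial.sum_over_range' _ _ (r + 1)
      (Nat.lt_succ_of_le wl_natDegree_le), map_sum, Finset.mul_sum]
    · apply Finset.sum_congr rfl
      intro l _
      rw [map_mul, map_pow, evf_X, evf_C]
      rcases l with _ | l
      · simp
      · rw [Nat.add_sub_cancel, pow_succ]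
        push_cast
        ring
    · intro n; simp
  have h4 : (p : A) * τ ^ (α * q * r + 1) * evf τ (derivative (wl r p q G))
      = p * τ ^ (α * q * r) * (τ * evf τ (derivative (wl r p q G))) := by
    rw [pow_succ]; ring
  rw [h4, h3, Finset.mul_sum]
  apply Finset.sum_congr rfl
  intro l hl
  rw [Finset.mem_range] at hl
  rw [exp_edge α β l hαβ (by omega), pow_add]
  push_cast
  ring

/-- the normalised equation -/
lemma ev_weighted (hG : WN r p q G) (hp : 1 ≤ p) (α β : ℕ) {T : Type*} [CommRing T]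
    (φ : A →+* T) (τ : A) (S s w : T) (hS : S * s = 1) :
    ev (S ^ p * φ τ ^ α) (S ^ q * (φ τ ^ β * w)) G
      = S ^ (p * q * r) * ∑ x : Ix r p q, φ (cf r p q α β G τ x) * s ^ ex r p q x *
          w ^ (x.2 : ℕ) := by
  rw [ev_sum _ _ G (n := r * p + 1) (m := q * r + 1) (by rw [hG.2.1]; omega)
    (fun j => Nat.lt_succ_of_le (natDegree_coeff_le hG hp j)), Finset.sum_comm, Finset.mul_sum]
  rw [Fintype.sum_prod_type]
  rw [← Fin.sum_univ_eq_sum_range (fun i => ∑ j ∈ range (r * p + 1),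
    (((G.coeff j).coeff i : ℤ) : T) * (S ^ p * φ τ ^ α) ^ i * (S ^ q * (φ τ ^ β * w)) ^ j)]
  apply Finset.sum_congr rfl
  intro i _
  rw [← Fin.sum_univ_eq_sum_range (fun j =>
    (((G.coeff j).coeff i : ℤ) : T) * (S ^ p * φ τ ^ α) ^ (i : ℕ) *
      (S ^ q * (φ τ ^ β * w)) ^ j)]
  apply Finset.sum_congr rfl
  intro j _
  rw [cf, map_mul, map_intCast, map_pow]
  simp only
  by_cases hc : (G.coeff (j : ℕ)).coeff (i : ℕ) = 0
  · rw [hc]; simp
  · have h1 := hG.2.2 _ _ hc
    obtain ⟨k, hk⟩ : ∃ k, p * q * r = p * (i : ℕ) + q * j + k := ⟨_, (Nat.add_sub_of_le h1).symm⟩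
    have h2 : ex r p q ((i, j) : Ix r p q) = k := by
      unfold ex
      simp only
      omega
    rw [h2, hk, mul_pow, mul_pow, mul_pow, ← pow_mul, ← pow_mul, ← pow_mul, ← pow_mul, pow_add,
      pow_add, pow_add]
    have h3 : S ^ k * s ^ k = 1 := by rw [← mul_pow, hS, one_pow]
    calc (((G.coeff (j : ℕ)).coeff (i : ℕ) : ℤ) : T) * (S ^ (p * (i : ℕ)) * φ τ ^ (α * (i : ℕ))) *
          (S ^ (q * (j : ℕ)) * (φ τ ^ (β * (j : ℕ)) * w ^ (j : ℕ)))
        = (((G.coeff (j : ℕ)).coeff (i : ℕ) : ℤ) : T) * (S ^ (p * (i : ℕ)) * φ τ ^ (α * (i : ℕ))) *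
          (S ^ (q * (j : ℕ)) * (φ τ ^ (β * (j : ℕ)) * w ^ (j : ℕ))) * (S ^ k * s ^ k) := by
          rw [h3, mul_one]
      _ = _ := by ring

end basic

section norms

variable {r p q : ℕ} {G : ℤ[X][X]}

lemma pn_wl_le (hp : 1 ≤ p) (hq : 1 ≤ q) (hG : WN r p q G) :
    pn zn (wl r p q G) ≤ pn (pn zn) G := by
  rw [pn_eq_range zn _ (Nat.lt_succ_of_le (wl_natDegree_le (r := r)))]
  rw [pn_eq_range (pn zn) G (n := r * p + 1) (by rw [hG.2.1]; omega)]
  have h1 : ∑ l ∈ range (r + 1), zn ((wl r p q G).coeff l)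
      ≤ ∑ l ∈ range (r + 1), pn zn (G.coeff (p * l)) := by
    apply Finset.sum_le_sum
    intro l hl
    rw [Finset.mem_range] at hl
    rw [wl_coeff l (by omega)]
    exact coeff_le_pn zn _ _
  refine h1.trans ?_
  have h2 : ∑ l ∈ range (r + 1), pn zn (G.coeff (p * l))
      = ∑ j ∈ (range (r + 1)).image (fun l => p * l), pn zn (G.coeff j) := by
    rw [Finset.sum_image]
    intro x _ y _ hxy
    exact Nat.eq_of_mul_eq_mul_left hp hxy
  rw [h2]
  apply Finset.sum_le_sum_of_subset_of_nonneg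
  · intro j hj
    rw [Finset.mem_image] at hj
    obtain ⟨l, hl, rfl⟩ := hj
    rw [Finset.mem_range] at hl ⊢
    have : p * l ≤ p * r := Nat.mul_le_mul_left _ (by omega)
    have h3 : p * r = r * p := mul_comm _ _
    omega
  · intro _ _ _
    exact apply_nonneg _ _

lemma sum_cf_le {A : Type*} [CommRing A] (N : RingSeminorm A) (h1 : N 1 ≤ 1)
    (hp : 1 ≤ p) (hG : WN r p q G) (α β : ℕ) (τ : A) (L : ℝ) (hL : 1 ≤ L) (hτ : N τ ≤ L) :
    ∑ x : Ix r p q, N (cf r p q α β G τ x) ≤ pn (pn zn) G * L ^ (α * (q * r) + β * (r * p)) := by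
  have h2 : ∀ x : Ix r p q, N (cf r p q α β G τ x) ≤
      |(((G.coeff (x.2 : ℕ)).coeff (x.1 : ℕ) : ℤ) : ℝ)| * L ^ (α * (q * r) + β * (r * p)) := by
    intro x
    rw [cf]
    refine (N_intCast_mul_le N _ _).trans ?_
    apply mul_le_mul_of_nonneg_left _ (abs_nonneg _)
    refine (seminorm_pow_le N h1 _ _).trans ?_
    refine (pow_le_pow_left₀ (apply_nonneg _ _) hτ _).trans ?_
    apply pow_le_pow_right₀ hL
    have e1 : α * (x.1 : ℕ) ≤ α * (q * r) := Nat.mul_le_mul_left _ (by have := x.1.2; omega)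
    have e2 : β * (x.2 : ℕ) ≤ β * (r * p) := Nat.mul_le_mul_left _ (by have := x.2.2; omega)
    omega
  refine (Finset.sum_le_sum (fun x _ => h2 x)).trans (le_of_eq ?_)
  rw [← Finset.sum_mul]
  congr 1
  rw [pn2_eq G (r * p + 1) (q * r + 1) (by rw [hG.2.1]; omega)
    (fun j => Nat.lt_succ_of_le (natDegree_coeff_le hG hp j)), Finset.sum_comm,
    Fintype.sum_prod_type]
  rw [← Fin.sum_univ_eq_sum_range (fun i => ∑ j ∈ range (r * p + 1),
    |(((G.coeff j).coeff i : ℤ) : ℝ)|)]
  apply Finset.sum_congr rfl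
  intro i _
  rw [← Fin.sum_univ_eq_sum_range (fun j => |(((G.coeff j).coeff i : ℤ) : ℝ)|)]

end norms

end Pool.Agent.Y910.S
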