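import Pool.Agent.Y910.S.H3
import Pool.Agent.H322R2.Root

/-!
Real roots of the edge polynomial near a large integer point.
-/

open Polynomial Finset

namespace Pool.Agent.Y910.S

open Pool.Agent.H322R2

lemma ev_mapC {S : Type*} [CommRing S] (x y : S) (g : ℤ[X]) : ev x y (g.map C) = evf y g := by
  rw [ev_apply, eval₂_map]
  show eval₂ _ y g = eval₂ _ y g
  congr 1
  exact RingHom.ext_int _ _

lemma pn_mapC (g : ℤ[X]) : pn (pn zn) (g.map (C : ℤ →+* ℤ[X])) = pn zn g := by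
  rw [pn_eq_range (pn zn) _ (n := g.natDegree + 1) (by
    have := natDegree_map_le (f := (C : ℤ →+* ℤ[X])) (p := g)
    omega), pn_eq_range zn g (Nat.lt_succ_self _)]
  apply Finset.sum_congr rfl
  intro i _
  rw [coeff_map, pn_C]

/-- a real root of `g` near a real number where `g` is small -/
lemma real_root_near (g : ℤ[X]) (d : ℕ) (hd0 : 0 < d) (hgm : g.Monic) (hgd : g.natDegree = d)
    (hn : nrm g d (derivative g) ≠ 0) {H : ℝ} (hH : 1 ≤ H) (hpg : pn zn g ≤ H)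
    (w ρ : ℝ) (hρ : 0 < ρ) (hρR : ρ ≤ cR d H) (hsmall : |evf w g| ≤ (ρ / 2) ^ d) :
    ∃ η : ℝ, evf η g = 0 ∧ |w - η| ≤ ρ ∧ 1 ≤ |evf η (derivative g)| * cD d H ∧ |η| ≤ H := by
  have hR := cR_pos hd0 hH
  have hR2 := cR_le hd0 hH
  obtain ⟨η, hη0, hη⟩ := exists_root_close g d hd0 hgm hgd (w : ℂ)
  have hwC : ‖evf (w : ℂ) g‖ = |evf w g| := by
    have := map_evf Complex.ofRealHom w g
    rw [show (w : ℂ) = Complex.ofRealHom w from rfl, ← this, Complex.ofRealHom_eq_coe,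
      Complex.norm_real, Real.norm_eq_abs]
  have hclose : ‖(w : ℂ) - η‖ ≤ ρ / 2 := by
    have h1 : ‖(w : ℂ) - η‖ ^ d ≤ (ρ / 2) ^ d := by
      refine hη.trans ?_
      rw [hwC]; exact hsmall
    exact le_of_pow_le_pow_left₀ hd0.ne' (by positivity) h1
  have hgd' : (derivative g).natDegree ≤ d := (natDegree_derivative_le _).trans (by omega)
  have hpd : pn zn (derivative g) ≤ d * H := by
    refine (pn_derivative_le zn g).trans ?_
    rw [hgd]
    exact mul_le_mul_of_nonneg_left hpg (by positivity)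
  have hdH : (1 : ℝ) ≤ d * H := by
    have : (1 : ℝ) ≤ d := by exact_mod_cast hd0
    nlinarith
  have hηH : ‖η‖ ≤ H := root_norm_le g hgm H hH hpg η hη0
  have hder : 1 ≤ ‖evf η (derivative g)‖ * cD d H :=
    one_le_of_root g d hd0 hgm hgd (derivative g) hn (1 + H) (d * H) (by linarith) (by linarith)
      hpd hdH hgd' η hη0 (by linarith)
  have hD1 := one_le_cD hd0 hH
  have hD0 : 0 < cD d H := by linarith
  have hder' : 1 / cD d H ≤ ‖evf η (derivative g)‖ := by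
    rw [div_le_iff₀ hD0]; exact hder
  have hPn : (g.map (C : ℤ →+* ℤ[X])).natDegree < d + 1 := by
    have := natDegree_map_le (f := (C : ℤ →+* ℤ[X])) (p := g)
    omega
  have hPm : ∀ j, ((g.map (C : ℤ →+* ℤ[X])).coeff j).natDegree < 1 := fun j => by
    rw [coeff_map, natDegree_C]; exact Nat.one_pos
  -- η is real
  have hreal : (starRingEnd ℂ) η = η := by
    have hc0 : evf ((starRingEnd ℂ) η) g = 0 := by
      have := map_evf (starRingEnd ℂ) η g
      rw [← this, hη0, map_zero]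
    have hu := close_unique (𝕜 := ℂ) (g.map C) (d + 1) 1 hPn hPm η (r := cR d H)
      (by linarith)
      (by
        rw [derivative_map, ev_mapC, pn_mapC]
        refine lt_of_le_of_lt ?_ (lt_of_lt_of_le (cS_mul_lt hd0 hH) hder')
        apply mul_le_mul_of_nonneg_right _ (by positivity)
        unfold cS
        apply mul_le_mul hpg _ (by positivity) (by linarith)
        exact pow_le_pow_left₀ (by positivity) (by linarith) _)
      0 ((starRingEnd ℂ) η - η) 0 (by simpa using hR.le)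
      (by
        have h1 : (starRingEnd ℂ) η - η = ((w : ℂ) - η) - (starRingEnd ℂ) ((w : ℂ) - η) := by
          rw [map_sub, Complex.conj_ofReal]; ring
        rw [h1]
        refine (norm_sub_le _ _).trans ?_
        rw [Complex.norm_conj]
        linarith)
      (by simpa using hR.le)
      (by
        rw [add_zero, ev_mapC, ev_mapC, add_sub_cancel, hη0, hc0])
    exact sub_eq_zero.1 hu
  obtain ⟨x, hx⟩ := Complex.conj_eq_iff_real.1 hreal
  have hevf : ∀ q : ℤ[X], evf η q = ((evf x q : ℝ) : ℂ) := by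
    intro q
    have := map_evf Complex.ofRealHom x q
    rw [hx]
    exact this.symm
  refine ⟨x, ?_, ?_, ?_, ?_⟩
  · rw [hevf] at hη0
    exact_mod_cast hη0
  · have h1 : ‖(w : ℂ) - η‖ = |w - x| := by
      rw [hx, ← Complex.ofReal_sub, Complex.norm_real, Real.norm_eq_abs]
    rw [← h1]; linarith
  · rw [hevf, Complex.norm_real, Real.norm_eq_abs] at hder
    exact hder
  · rw [hx, Complex.norm_real, Real.norm_eq_abs] at hηH
    exact hηH

/-- nonzero roots are not too small -/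
lemma root_lower {g : ℤ[X]} {d : ℕ} (hgd : g.natDegree ≤ d)
    (hg0 : g.coeff 0 ≠ 0) {H : ℝ} (hH : 1 ≤ H) (hpg : pn zn g ≤ H) (η : ℝ) (hη : evf η g = 0)
    (hηH : |η| ≤ H) : 1 ≤ |η| * H ^ (d + 1) := by
  rw [evf_sum η g (Nat.lt_succ_of_le hgd), Finset.sum_range_succ'] at hη
  simp only [pow_zero, mul_one] at hη
  have h1 : ((g.coeff 0 : ℤ) : ℝ) = - (η * ∑ k ∈ range d, ((g.coeff (k + 1) : ℤ) : ℝ) * η ^ k) := by
    rw [Finset.mul_sum]
    have h2 : ∑ k ∈ range d, ((g.coeff (k + 1) : ℤ) : ℝ) * η ^ (k + 1)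
        = ∑ i ∈ range d, η * (((g.coeff (i + 1) : ℤ) : ℝ) * η ^ i) := by
      apply Finset.sum_congr rfl
      intro i _
      ring
    rw [← h2]
    linarith
  have h3 : (1 : ℝ) ≤ |((g.coeff 0 : ℤ) : ℝ)| := by
    have := Int.one_le_abs hg0
    exact_mod_cast this
  rw [h1, abs_neg, abs_mul] at h3
  refine h3.trans ?_
  apply mul_le_mul_of_nonneg_left _ (abs_nonneg _)
  refine (Finset.abs_sum_le_sum_abs _ _).trans ?_
  have h4 : ∀ i ∈ range d, |((g.coeff (i + 1) : ℤ) : ℝ) * η ^ i|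
      ≤ |((g.coeff (i + 1) : ℤ) : ℝ)| * H ^ d := by
    intro i hi
    rw [Finset.mem_range] at hi
    rw [abs_mul, abs_pow]
    apply mul_le_mul_of_nonneg_left _ (abs_nonneg _)
    calc |η| ^ i ≤ H ^ i := pow_le_pow_left₀ (abs_nonneg _) hηH _
      _ ≤ H ^ d := pow_le_pow_right₀ hH hi.le
  refine (Finset.sum_le_sum h4).trans ?_
  rw [← Finset.sum_mul, pow_succ, mul_comm]
  apply mul_le_mul_of_nonneg_left _ (by positivity)
  refine le_trans ?_ hpg
  rw [pn_eq_range zn g (Nat.lt_succ_of_le hgd), Finset.sum_range_succ']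
  have h5 : 0 ≤ zn (g.coeff 0) := apply_nonneg _ _
  simp only [zn_apply] at h5 ⊢
  linarith

section weighted

variable {r p q : ℕ} {G : ℤ[X][X]} {H : ℝ}

/-- Bound for `b` in terms of `a`. -/
lemma abs_b_le' (hG : WN r p q G) (hp : 1 ≤ p) (hr : 1 ≤ r) (hH : 1 ≤ H)
    (hGH : pn (pn zn) G ≤ H) (a b : ℤ) (hab : ev a b G = 0) (Z : ℝ) (hZ1 : 1 ≤ Z)
    (hZ : Z ^ p = |(a : ℝ)|) : |(b : ℝ)| ≤ H * Z ^ q := by
  by_contra hcon
  push Not at hcon
  have hZq : 1 ≤ Z ^ q := one_le_pow₀ hZ1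
  have hbA : Z ^ q ≤ |(b : ℝ)| := by nlinarith
  have hb0 : 0 < |(b : ℝ)| := by linarith
  have h0 : ev (a : ℝ) (b : ℝ) G = 0 := by
    have h3 := map_ev (Int.castRingHom ℝ) a b G
    simp only [eq_intCast] at h3
    rw [← h3, hab]; simp
  rw [ev_apply, eval₂_eq_sum_range, Finset.sum_range_succ] at h0
  rw [show G.coeff G.natDegree = 1 from hG.1, map_one, one_mul] at h0
  have hpn : pn (pn zn) G = (∑ i ∈ range G.natDegree, pn zn (G.coeff i)) + 1 := by
    rw [pn_eq_range _ G (Nat.lt_succ_self _), Finset.sum_range_succ]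
    rw [show G.coeff G.natDegree = 1 from hG.1, pn_one]
    simp
  have hd := hG.2.1
  have hd0 : 0 < r * p := Nat.mul_pos hr hp
  obtain ⟨n, hn⟩ : ∃ n, r * p = n + 1 := ⟨r * p - 1, by omega⟩
  have h2 : |(b : ℝ)| ^ (r * p) ≤ (pn (pn zn) G - 1) * (Z ^ q * |(b : ℝ)| ^ n) := by
    have h3 : (b : ℝ) ^ (r * p) = - ∑ i ∈ range G.natDegree,
        evf (a : ℝ) (G.coeff i) * (b : ℝ) ^ i := by
      rw [hd] at h0 ⊢
      linear_combination h0
    rw [← abs_pow, h3, abs_neg]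
    refine (Finset.abs_sum_le_sum_abs _ _).trans ?_
    rw [hpn, add_sub_cancel_right, Finset.sum_mul]
    apply Finset.sum_le_sum
    intro i hi
    rw [Finset.mem_range, hd] at hi
    rw [abs_mul, abs_pow]
    have h4 : |evf (a : ℝ) (G.coeff i)| ≤ pn zn (G.coeff i) * Z ^ (q * (r * p - i)) := by
      rw [evf_sum _ _ (Nat.lt_succ_of_le (natDegree_coeff_le hG hp i)),
        pn_eq_range _ _ (Nat.lt_succ_of_le (natDegree_coeff_le hG hp i)), Finset.sum_mul]
      refine (Finset.abs_sum_le_sum_abs _ _).trans ?_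
      apply Finset.sum_le_sum
      intro k _
      rw [abs_mul, abs_pow]
      by_cases hc : (G.coeff i).coeff k = 0
      · rw [hc]; simp
      · apply mul_le_mul_of_nonneg_left _ (abs_nonneg _)
        have h5 := hG.2.2 k i hc
        rw [← hZ, ← pow_mul]
        apply pow_le_pow_right₀ hZ1
        have h6 : q * (r * p - i) + q * i = p * q * r := by
          rw [← mul_add]
          have : r * p - i + i = r * p := by omega
          rw [this]; ring
        omega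
    have h6 : Z ^ (q * (r * p - i)) * |(b : ℝ)| ^ i ≤ Z ^ q * |(b : ℝ)| ^ n := by
      have h7 : q * (r * p - i) = q * (n - i) + q := by
        have : r * p - i = (n - i) + 1 := by omega
        rw [this]; ring
      rw [h7, pow_add, pow_mul]
      calc (Z ^ q) ^ (n - i) * Z ^ q * |(b : ℝ)| ^ i
          = Z ^ q * ((Z ^ q) ^ (n - i) * |(b : ℝ)| ^ i) := by ring
        _ ≤ Z ^ q * (|(b : ℝ)| ^ (n - i) * |(b : ℝ)| ^ i) := by
          apply mul_le_mul_of_nonneg_left _ (by linarith)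
          apply mul_le_mul_of_nonneg_right _ (by positivity)
          exact pow_le_pow_left₀ (by linarith) hbA _
        _ = _ := by rw [← pow_add]; congr 2; omega
    calc |evf (a : ℝ) (G.coeff i)| * |(b : ℝ)| ^ i
        ≤ (pn zn (G.coeff i) * Z ^ (q * (r * p - i))) * |(b : ℝ)| ^ i :=
          mul_le_mul_of_nonneg_right h4 (by positivity)
      _ = pn zn (G.coeff i) * (Z ^ (q * (r * p - i)) * |(b : ℝ)| ^ i) := by ring
      _ ≤ _ := mul_le_mul_of_nonneg_left h6 (apply_nonneg _ _)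
  rw [hn, pow_succ] at h2
  have h3 : |(b : ℝ)| * |(b : ℝ)| ^ n ≤ ((pn (pn zn) G - 1) * Z ^ q) * |(b : ℝ)| ^ n := by
    calc |(b : ℝ)| * |(b : ℝ)| ^ n = |(b : ℝ)| ^ n * |(b : ℝ)| := by ring
      _ ≤ _ := h2
      _ = _ := by ring
  have h4 := le_of_mul_le_mul_right h3 (by positivity)
  nlinarith

/-- smallness of the edge polynomial at `b^p/a^q` -/
lemma wl_small (hG : WN r p q G) (hp : 1 ≤ p) (hq : 1 ≤ q) (hpq : Nat.Coprime p q) (hr : 1 ≤ r)
    (hH : 1 ≤ H) (hGH : pn (pn zn) G ≤ H) (a b : ℤ) (hab : ev a b G = 0) (Z : ℝ) (hZ1 : 1 ≤ Z)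
    (hZ : Z ^ p = |(a : ℝ)|) :
    |evf ((b : ℝ) ^ p / (a : ℝ) ^ q) (wl r p q G)| * Z ≤ H * H ^ (r * p) := by
  have hb := abs_b_le' hG hp hr hH hGH a b hab Z hZ1 hZ
  have ha0 : 0 < |(a : ℝ)| := by rw [← hZ]; positivity
  have haR : (a : ℝ) ≠ 0 := abs_pos.1 ha0
  have h0 : ev (a : ℝ) (b : ℝ) G = 0 := by
    have h3 := map_ev (Int.castRingHom ℝ) a b G
    simp only [eq_intCast] at h3
    rw [← h3, hab]; simp
  have h1 : ev (a : ℝ) (b : ℝ) G = ∑ x : Ix r p q, cf r p q 0 0 G (1 : ℝ) x *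
      ((a : ℝ) ^ (x.1 : ℕ) * (b : ℝ) ^ (x.2 : ℕ)) := by
    rw [ev_sum _ _ G (n := r * p + 1) (m := q * r + 1) (by rw [hG.2.1]; omega)
      (fun j => Nat.lt_succ_of_le (natDegree_coeff_le hG hp j)), Finset.sum_comm,
      Fintype.sum_prod_type]
    rw [← Fin.sum_univ_eq_sum_range (fun i => ∑ j ∈ range (r * p + 1),
      (((G.coeff j).coeff i : ℤ) : ℝ) * (a : ℝ) ^ i * (b : ℝ) ^ j)]
    apply Finset.sum_congr rfl
    intro i _
    rw [← Fin.sum_univ_eq_sum_range (fun j =>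
      (((G.coeff j).coeff (i : ℕ) : ℤ) : ℝ) * (a : ℝ) ^ (i : ℕ) * (b : ℝ) ^ j)]
    apply Finset.sum_congr rfl
    intro j _
    rw [cf, one_pow, mul_one]
    ring
  have h2 := sum_edge hG hp hq hpq 0 0 (1 : ℝ) (fun i j => (a : ℝ) ^ i * (b : ℝ) ^ j)
  have h3 : ∑ l ∈ range (r + 1), (((wl r p q G).coeff l : ℤ) : ℝ) *
          1 ^ (0 * (q * (r - l)) + 0 * (p * l)) * ((a : ℝ) ^ (q * (r - l)) * (b : ℝ) ^ (p * l))
      = (a : ℝ) ^ (q * r) * evf ((b : ℝ) ^ p / (a : ℝ) ^ q) (wl r p q G) := by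
    rw [evf_sum _ _ (Nat.lt_succ_of_le wl_natDegree_le), Finset.mul_sum]
    apply Finset.sum_congr rfl
    intro l hl
    rw [Finset.mem_range] at hl
    have h4 : (a : ℝ) ^ (q * r) = (a : ℝ) ^ (q * (r - l)) * ((a : ℝ) ^ q) ^ l := by
      rw [← pow_mul, ← pow_add, ← mul_add]; congr 2; omega
    rw [h4, one_pow, mul_one, div_pow, pow_mul (b : ℝ)]
    field_simp
  rw [h3] at h2
  have h5 : (a : ℝ) ^ (q * r) * evf ((b : ℝ) ^ p / (a : ℝ) ^ q) (wl r p q G)
      = - ∑ x : Ix r p q, (if ex r p q x = 0 then 0 else cf r p q 0 0 G (1 : ℝ) x *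
      ((a : ℝ) ^ (x.1 : ℕ) * (b : ℝ) ^ (x.2 : ℕ))) := by
    rw [← h2, eq_neg_iff_add_eq_zero, ← Finset.sum_add_distrib]
    refine Eq.trans ?_ (h1.symm.trans h0)
    apply Finset.sum_congr rfl
    intro x _
    split_ifs <;> ring
  have h6 : |∑ x : Ix r p q, (if ex r p q x = 0 then 0 else cf r p q 0 0 G (1 : ℝ) x *
      ((a : ℝ) ^ (x.1 : ℕ) * (b : ℝ) ^ (x.2 : ℕ)))| * Z
      ≤ H * H ^ (r * p) * Z ^ (p * q * r) := by
    have h7 : ∀ x : Ix r p q, |(if ex r p q x = 0 then 0 else cf r p q 0 0 G (1 : ℝ) x *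
      ((a : ℝ) ^ (x.1 : ℕ) * (b : ℝ) ^ (x.2 : ℕ)))| * Z
      ≤ |cf r p q 0 0 G (1 : ℝ) x| * (H ^ (r * p) * Z ^ (p * q * r)) := by
      intro x
      split_ifs with he
      · rw [abs_zero, zero_mul]; positivity
      · rw [abs_mul, mul_assoc]
        by_cases hc : (G.coeff (x.2 : ℕ)).coeff (x.1 : ℕ) = 0
        · rw [cf, hc]; simp
        · apply mul_le_mul_of_nonneg_left _ (abs_nonneg _)
          have h8 := hG.2.2 _ _ hc
          unfold ex at he
          rw [abs_mul, abs_pow, abs_pow, ← hZ, ← pow_mul]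
          have h9 : |(b : ℝ)| ^ (x.2 : ℕ) ≤ H ^ (r * p) * Z ^ (q * x.2) := by
            calc |(b : ℝ)| ^ (x.2 : ℕ) ≤ (H * Z ^ q) ^ (x.2 : ℕ) :=
                  pow_le_pow_left₀ (abs_nonneg _) hb _
              _ = H ^ (x.2 : ℕ) * Z ^ (q * x.2) := by rw [mul_pow, ← pow_mul]
              _ ≤ H ^ (r * p) * Z ^ (q * x.2) := by
                  apply mul_le_mul_of_nonneg_right _ (by positivity)
                  exact pow_le_pow_right₀ hH (by have := x.2.2; omega)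
          calc Z ^ (p * (x.1 : ℕ)) * |(b : ℝ)| ^ (x.2 : ℕ) * Z
              ≤ Z ^ (p * (x.1 : ℕ)) * (H ^ (r * p) * Z ^ (q * x.2)) * Z := by gcongr
            _ = H ^ (r * p) * Z ^ (p * (x.1 : ℕ) + q * x.2 + 1) := by
                rw [pow_add, pow_add, pow_one]; ring
            _ ≤ H ^ (r * p) * Z ^ (p * q * r) := by
                apply mul_le_mul_of_nonneg_left _ (by positivity)
                exact pow_le_pow_right₀ hZ1 (by omega)
    calc _ ≤ (∑ x : Ix r p q, |(if ex r p q x = 0 then 0 else cf r p q 0 0 G (1 : ℝ) x *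
          ((a : ℝ) ^ (x.1 : ℕ) * (b : ℝ) ^ (x.2 : ℕ)))|) * Z := by
          apply mul_le_mul_of_nonneg_right (Finset.abs_sum_le_sum_abs _ _) (by linarith)
      _ = ∑ x : Ix r p q, |(if ex r p q x = 0 then 0 else cf r p q 0 0 G (1 : ℝ) x *
          ((a : ℝ) ^ (x.1 : ℕ) * (b : ℝ) ^ (x.2 : ℕ)))| * Z := by rw [Finset.sum_mul]
      _ ≤ ∑ x : Ix r p q, |cf r p q 0 0 G (1 : ℝ) x| * (H ^ (r * p) * Z ^ (p * q * r)) :=
          Finset.sum_le_sum (fun x _ => h7 x)
      _ = (∑ x : Ix r p q, |cf r p q 0 0 G (1 : ℝ) x|) * (H ^ (r * p) * Z ^ (p * q * r)) := by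
          rw [Finset.sum_mul]
      _ ≤ H * (H ^ (r * p) * Z ^ (p * q * r)) := by
          apply mul_le_mul_of_nonneg_right _ (by positivity)
          have h10 := sum_cf_le rn rn_one hp hG 0 0 (1 : ℝ) 1 le_rfl (by simp)
          simp only [zero_mul, add_zero, pow_zero, mul_one, rn_apply] at h10
          exact h10.trans hGH
      _ = _ := by ring
  have h7 : |(a : ℝ) ^ (q * r) * evf ((b : ℝ) ^ p / (a : ℝ) ^ q) (wl r p q G)| * Z
      ≤ H * H ^ (r * p) * Z ^ (p * q * r) := by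
    rw [h5, abs_neg]; exact h6
  have h8 : |(a : ℝ) ^ (q * r)| = Z ^ (p * q * r) := by
    rw [abs_pow, ← hZ, ← pow_mul]; congr 1; ring
  rw [abs_mul, h8] at h7
  have h9 : 0 < Z ^ (p * q * r) := by positivity
  have h10 : Z ^ (p * q * r) * (|evf ((b : ℝ) ^ p / (a : ℝ) ^ q) (wl r p q G)| * Z)
      ≤ Z ^ (p * q * r) * (H * H ^ (r * p)) := by
    calc _ = Z ^ (p * q * r) * |evf ((b : ℝ) ^ p / (a : ℝ) ^ q) (wl r p q G)| * Z := by ring
      _ ≤ _ := h7
      _ = _ := by ring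
  exact le_of_mul_le_mul_left h10 h9

end weighted

end Pool.Agent.Y910.S
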