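import Pool.Agent.Y910.S.H5

/-!
Construction of the branch data.
-/

open Polynomial Finset

namespace Pool.Agent.Y910.S

open Pool.Agent.H322R2

/-- constants -/
noncomputable def nd (r p q α : ℕ) (H : ℝ) : ℝ :=
  p * (1 + H) ^ (α * q * r + 1) * ((r * H) * (1 + H) ^ r)
noncomputable def Sc (r p q α β : ℕ) (H : ℝ) : ℝ :=
  H * (1 + H) ^ (α * (q * r) + β * (r * p)) * 2 ^ (r * p)
noncomputable def TT (r p q α β : ℕ) (H : ℝ) : ℝ :=
  (1 + nd r p q α H) ^ (2 * (p * q * r + 1) + (r * p + 1)) * Sc r p q α β H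
noncomputable def dd (r q α : ℕ) (H : ℝ) : ℝ :=
  (H ^ (r + 1)) ^ (α * q * r + 1) * H322R2.cD r H
noncomputable def BB (r p q α β : ℕ) (H : ℝ) : ℝ :=
  2 + H + (1 + H) ^ α + 2 * (1 + H) ^ β + 4 * TT r p q α β H ^ 2 + 2 * (H ^ (r + 1)) ^ α
    + 2 * dd r q α H ^ 2 * H ^ α

section consts

variable {r p q α β : ℕ} {H : ℝ} (hr : 1 ≤ r) (hp : 1 ≤ p) (hH : 1 ≤ H)

include hr hp hH

lemma one_le_nd : ((r * p : ℕ) : ℝ) ≤ nd r p q α H := by
  unfold nd
  have h1 : (1 : ℝ) ≤ (1 + H) ^ (α * q * r + 1) := one_le_pow₀ (by linarith)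
  have h2 : (1 : ℝ) ≤ (1 + H) ^ r := one_le_pow₀ (by linarith)
  have hp0 : (0 : ℝ) ≤ p := by positivity
  have hr0 : (0 : ℝ) ≤ r := by positivity
  push_cast
  calc (r : ℝ) * p = (p * 1) * ((r * 1) * 1) := by ring
    _ ≤ p * (1 + H) ^ (α * q * r + 1) * ((r * H) * (1 + H) ^ r) := by gcongr

lemma one_le_nd' : 1 ≤ nd r p q α H := by
  refine le_trans ?_ (one_le_nd (q := q) (α := α) hr hp hH)
  have : 1 ≤ r * p := Nat.mul_pos hr hp
  exact_mod_cast this

omit hr hp in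
lemma one_le_Sc : 1 ≤ Sc r p q α β H := by
  unfold Sc
  have h1 : (1 : ℝ) ≤ (1 + H) ^ (α * (q * r) + β * (r * p)) := one_le_pow₀ (by linarith)
  have h2 : (1 : ℝ) ≤ 2 ^ (r * p) := one_le_pow₀ (by norm_num)
  exact one_le_mul_of_one_le_of_one_le (one_le_mul_of_one_le_of_one_le hH h1) h2

lemma TT_ge : (1 + nd r p q α H) * Sc r p q α β H ≤ TT r p q α β H := by
  unfold TT
  apply mul_le_mul_of_nonneg_right _ (by
    have := one_le_Sc (r := r) (p := p) (q := q) (α := α) (β := β) hH; linarith)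
  have h1 := one_le_nd' (q := q) (α := α) hr hp hH
  exact le_self_pow₀ (by linarith) (by omega)

lemma nd_le_TT : 1 + nd r p q α H ≤ TT r p q α β H := by
  refine le_trans ?_ (TT_ge (q := q) (α := α) (β := β) hr hp hH)
  have h1 := one_le_nd' (q := q) (α := α) hr hp hH
  have h2 := one_le_Sc (r := r) (p := p) (q := q) (α := α) (β := β) hH
  nlinarith

lemma Sc_le_TT : ((r * p : ℕ) : ℝ) * Sc r p q α β H ≤ TT r p q α β H := by
  refine le_trans ?_ (TT_ge (q := q) (α := α) (β := β) hr hp hH)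
  have h1 := one_le_nd (q := q) (α := α) hr hp hH
  have h2 := one_le_Sc (r := r) (p := p) (q := q) (α := α) (β := β) hH
  apply mul_le_mul_of_nonneg_right _ (by linarith)
  linarith

omit hp in
lemma one_le_dd : 1 ≤ dd r q α H := by
  unfold dd
  have h1 : (1 : ℝ) ≤ (H ^ (r + 1)) ^ (α * q * r + 1) := one_le_pow₀ (one_le_pow₀ hH)
  have h2 := one_le_cD (d := r) hr hH
  exact one_le_mul_of_one_le_of_one_le h1 h2

end consts

section mk

variable {A : Type*} [CommRing A] {N : RingSeminorm A} {σ : A →+* ℝ}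

lemma N_evf_le (h1 : N 1 ≤ 1) (g : ℤ[X]) (d : ℕ) (hg : g.natDegree ≤ d) (τ : A) (L : ℝ)
    (hL : 1 ≤ L) (hτ : N τ ≤ L) : N (evf τ g) ≤ pn zn g * L ^ d := by
  rw [evf_sum τ g (Nat.lt_succ_of_le hg)]
  refine (seminorm_sum_le _ _ _).trans ?_
  rw [pn_eq_range zn g (Nat.lt_succ_of_le hg), Finset.sum_mul]
  apply Finset.sum_le_sum
  intro i hi
  rw [Finset.mem_range] at hi
  refine (N_intCast_mul_le N _ _).trans ?_
  apply mul_le_mul_of_nonneg_left _ (abs_nonneg _)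
  refine (seminorm_pow_le N h1 _ _).trans ?_
  refine (pow_le_pow_left₀ (apply_nonneg _ _) hτ _).trans ?_
  exact pow_le_pow_right₀ hL (by omega)

theorem mkBQ (h1 : N 1 ≤ 1) (hσ : ∀ x, |σ x| ≤ N x) {r p q α β : ℕ} (hr : 1 ≤ r) (hp : 1 ≤ p)
    (hq : 1 ≤ q) (hpq : Nat.Coprime p q) (hαβ : β * p = α * q + 1) {G : ℤ[X][X]}
    (hG : WN r p q G) (hprime : Prime G) {H : ℝ} (hH : 1 ≤ H) (hGH : pn (pn zn) G ≤ H)
    (τ : A) (hτ : evf τ (wl r p q G) = 0) (hNτ : N τ ≤ 1 + H)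
    (hg0 : (wl r p q G).coeff 0 ≠ 0) (hη : |σ τ| ≤ H)
    (hder : 1 ≤ |evf (σ τ) (derivative (wl r p q G))| * H322R2.cD r H)
    (a b : ℤ) (hab : ev a b G = 0) (Z : ℝ) (hZ1 : 1 ≤ Z) (hZ : Z ^ p = |(a : ℝ)|)
    (ρ : ℝ) (hclose : |(b : ℝ) ^ p / (a : ℝ) ^ q - σ τ| ≤ ρ)
    (hρ : ρ * (H ^ (r + 1) * (2 * TT r p q α β H * dd r q α H)) ≤ 1)
    (B : ℝ) (hB : BB r p q α β H ≤ B) (hBZ : B ^ 2 ≤ Z)
    (hZ2 : 8 * TT r p q α β H ^ 2 * dd r q α H ^ 2 * H ^ α ≤ Z)
    (hZ3 : (r * p).factorial * (((r * p : ℕ) : ℝ) * H * (1 + H) ^ (r * p)) ^ (r * p) < Z)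
    (hZ4 : ((r * p : ℕ) : ℝ) * H * H ^ (r * p) ≤ Z) :
    ∃ Q : BQ N σ p q (q * r + 1) B G a b, Q.Z = Z := by
  obtain ⟨η, hηd⟩ : ∃ η, η = σ τ := ⟨_, rfl⟩
  rw [← hηd] at hη hder hclose
  set g := wl r p q G with hg
  have hgd : g.natDegree = r := (wl_monic hG).2
  have hpg : pn zn g ≤ H := (pn_wl_le hp hq hG).trans hGH
  have hη0 : evf η g = 0 := by rw [hηd, ← map_evf, hτ, map_zero]
  have hlow : 1 ≤ |η| * H ^ (r + 1) := root_lower hgd.le hg0 hH hpg η hη0 hη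
  have hHr : 0 < H ^ (r + 1) := by positivity
  have hηpos : 0 < |η| := by
    by_contra hcon
    have : |η| = 0 := le_antisymm (not_lt.1 hcon) (abs_nonneg _)
    rw [this, zero_mul] at hlow
    linarith
  have hηne : η ≠ 0 := abs_pos.1 hηpos
  have hnd1 := one_le_nd' (q := q) (α := α) hr hp hH
  have hTnd := nd_le_TT (q := q) (α := α) (β := β) hr hp hH
  have hTSc := Sc_le_TT (q := q) (α := α) (β := β) hr hp hH
  have hSc1 := one_le_Sc (r := r) (p := p) (q := q) (α := α) (β := β) hH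
  have hdd1 := one_le_dd (q := q) (α := α) hr hH
  have hcD1 := one_le_cD (d := r) hr hH
  obtain ⟨T, hTdef⟩ : ∃ T, T = TT r p q α β H := ⟨_, rfl⟩
  obtain ⟨dl, hdl⟩ : ∃ dl, dl = dd r q α H := ⟨_, rfl⟩
  have hBB : BB r p q α β H = 2 + H + (1 + H) ^ α + 2 * (1 + H) ^ β + 4 * T ^ 2
      + 2 * (H ^ (r + 1)) ^ α + 2 * dl ^ 2 * H ^ α := by rw [hTdef, hdl]; rfl
  rw [hBB] at hB
  rw [← hTdef] at hTnd hTSc hρ hZ2
  rw [← hdl] at hdd1 hρ hZ2
  have hT2 : 2 ≤ T := by linarith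
  have hT0 : 0 < T := by linarith
  have hdl0 : 0 < dl := by linarith
  have b1 : (0 : ℝ) ≤ (1 + H) ^ α := by positivity
  have b2 : (0 : ℝ) ≤ 2 * (1 + H) ^ β := by positivity
  have b3 : (0 : ℝ) ≤ 4 * T ^ 2 := by positivity
  have b4 : (0 : ℝ) ≤ 2 * (H ^ (r + 1)) ^ α := by positivity
  have b5 : (0 : ℝ) ≤ 2 * dl ^ 2 * H ^ α := by positivity
  have hB2 : 2 ≤ B := by linarith
  have hB0 : 0 < B := by linarith
  have hZ0 : 0 < Z := by linarith
  have ha0 : 0 < |(a : ℝ)| := by rw [← hZ]; positivity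
  have haR : (a : ℝ) ≠ 0 := abs_pos.1 ha0
  have hZa : Z ≤ |(a : ℝ)| := by rw [← hZ]; exact le_self_pow₀ hZ1 (by omega)
  have hZB : B ≤ Z := le_trans (le_self_pow₀ (by linarith) (by norm_num)) hBZ
  have ha2 : 2 ≤ |(a : ℝ)| := by linarith
  -- the real parameter
  obtain ⟨w0, hw0⟩ : ∃ w0, w0 = (b : ℝ) ^ p / (a : ℝ) ^ q := ⟨_, rfl⟩
  rw [← hw0] at hclose
  have hρ0 : 0 ≤ ρ := (abs_nonneg _).trans hclose
  obtain ⟨ρ1, hρ1⟩ : ∃ ρ1, ρ1 = 1 / (2 * T * dl) := ⟨_, rfl⟩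
  have hρ1pos : 0 < ρ1 := by rw [hρ1]; positivity
  have hρ1le : ρ1 ≤ 1 / 4 := by
    rw [hρ1]
    apply one_div_le_one_div_of_le (by norm_num)
    have : 2 * 1 ≤ T * dl := mul_le_mul hT2 hdd1 (by norm_num) (by linarith)
    linarith
  have hratio : |w0 / η - 1| ≤ ρ1 := by
    have e1 : w0 / η - 1 = (w0 - η) / η := by field_simp
    rw [e1, abs_div, div_le_iff₀ hηpos]
    refine hclose.trans ?_
    have e2 : ρ * H ^ (r + 1) ≤ ρ1 := by
      rw [hρ1, le_div_iff₀ (by positivity)]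
      calc ρ * H ^ (r + 1) * (2 * T * dl) = ρ * (H ^ (r + 1) * (2 * T * dl)) := by ring
        _ ≤ 1 := hρ
    calc ρ = ρ * 1 := by ring
      _ ≤ ρ * (|η| * H ^ (r + 1)) := mul_le_mul_of_nonneg_left hlow hρ0
      _ = (ρ * H ^ (r + 1)) * |η| := by ring
      _ ≤ ρ1 * |η| := mul_le_mul_of_nonneg_right e2 hηpos.le
  have hratpos : 0 < w0 / η := by
    have := abs_le.1 hratio
    linarith [this.1]
  have hw0ne : w0 ≠ 0 := by
    rintro h0
    rw [h0] at hratpos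
    simp at hratpos
  have hbne : (b : ℝ) ≠ 0 := by
    intro h0
    apply hw0ne
    rw [hw0, h0, zero_pow (by omega), zero_div]
  obtain ⟨S0, hS0p, hS0q⟩ := exists_real_root ((a : ℝ) / η ^ α) ((b : ℝ) / η ^ β) p q hp hpq
    (div_ne_zero hbne (pow_ne_zero _ hηne)) (div_ne_zero haR (pow_ne_zero _ hηne)) (by
      have e1 : ((a : ℝ) / η ^ α) ^ q * ((b : ℝ) / η ^ β) ^ p
          = (w0 / η) * ((a : ℝ) ^ q / η ^ (α * q)) ^ 2 := by
        have e2 : (η ^ β) ^ p = η ^ (α * q) * η := by rw [← pow_mul, hαβ, pow_succ]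
        rw [hw0, div_pow, div_pow, e2, ← pow_mul]
        field_simp
      rw [e1]
      have : (a : ℝ) ^ q / η ^ (α * q) ≠ 0 :=
        div_ne_zero (pow_ne_zero _ haR) (pow_ne_zero _ hηne)
      positivity)
  have hS0ne : S0 ≠ 0 := by
    rintro rfl
    rw [zero_pow (by omega), zero_mul] at hS0q
    exact lt_irrefl _ hS0q
  have hS0pos : 0 < |S0| := abs_pos.2 hS0ne
  have habsS : |S0| ^ p = Z ^ p / |η| ^ α := by
    rw [← abs_pow, hS0p, abs_div, abs_pow, hZ]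
  have hS0le : |S0| ≤ Z * (H ^ (r + 1)) ^ α := by
    apply le_of_pow_le_pow_left₀ (n := p) (by omega) (by positivity)
    rw [habsS, mul_pow, div_le_iff₀ (by positivity)]
    have e1 : 1 ≤ ((H ^ (r + 1)) ^ α) ^ p * |η| ^ α := by
      have e2 : 1 ≤ (|η| * H ^ (r + 1)) ^ α := one_le_pow₀ hlow
      have e3 : (1 : ℝ) ≤ (H ^ (r + 1)) ^ α := one_le_pow₀ (one_le_pow₀ hH)
      calc 1 ≤ (|η| * H ^ (r + 1)) ^ α := e2
        _ = (H ^ (r + 1)) ^ α * |η| ^ α := by rw [mul_pow]; ring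
        _ ≤ ((H ^ (r + 1)) ^ α) ^ p * |η| ^ α := by
            apply mul_le_mul_of_nonneg_right (le_self_pow₀ e3 (by omega)) (by positivity)
    calc Z ^ p = Z ^ p * 1 := by ring
      _ ≤ Z ^ p * (((H ^ (r + 1)) ^ α) ^ p * |η| ^ α) := by gcongr
      _ = _ := by ring
  have hS0ge : Z ≤ |S0| * H ^ α := by
    apply le_of_pow_le_pow_left₀ (n := p) (by omega) (by positivity)
    rw [mul_pow, habsS]
    have e1 : |η| ^ α ≤ (H ^ α) ^ p := by
      calc |η| ^ α ≤ H ^ α := pow_le_pow_left₀ (abs_nonneg _) hη _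
        _ ≤ (H ^ α) ^ p := le_self_pow₀ (one_le_pow₀ hH) (by omega)
    rw [div_mul_eq_mul_div, le_div_iff₀ (by positivity)]
    exact mul_le_mul_of_nonneg_left e1 (by positivity)
  have hS0inv : 1 / |S0| ≤ H ^ α / Z := by
    rw [div_le_div_iff₀ hS0pos hZ0]
    linarith
  -- w1
  obtain ⟨w1, hw1⟩ : ∃ w1, w1 = (b : ℝ) / (η ^ β * S0 ^ q) := ⟨_, rfl⟩
  have hw1pos : 0 < w1 := by
    have e1 : w1 = (S0 ^ q * ((b : ℝ) / η ^ β)) / (S0 ^ q) ^ 2 := by
      rw [hw1]; field_simp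
    rw [e1]
    exact div_pos hS0q (by positivity)
  have hw1p : w1 ^ p = w0 / η := by
    have e2 : (η ^ β) ^ p = η ^ (α * q) * η := by rw [← pow_mul, hαβ, pow_succ]
    have e3 : (S0 ^ q) ^ p = (a : ℝ) ^ q / η ^ (α * q) := by
      rw [← pow_mul, mul_comm q p, pow_mul, hS0p, div_pow, ← pow_mul]
    rw [hw1, div_pow, mul_pow, e2, e3, hw0]
    field_simp
  have hw1close : |w1 - 1| ≤ ρ1 := by
    have e1 : |w1 - 1| ≤ |w1 ^ p - 1| := by
      have e2 := geom_sum_mul w1 p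
      rw [← e2, abs_mul]
      have e3 : 1 ≤ ∑ i ∈ range p, w1 ^ i := by
        obtain ⟨n, hn⟩ : ∃ n, p = n + 1 := ⟨p - 1, by omega⟩
        rw [hn, Finset.sum_range_succ', pow_zero]
        have : 0 ≤ ∑ k ∈ range n, w1 ^ (k + 1) := by positivity
        linarith
      rw [abs_of_pos (show 0 < ∑ i ∈ range p, w1 ^ i by linarith)]
      nlinarith [abs_nonneg (w1 - 1)]
    rw [hw1p] at e1
    exact e1.trans hratio
  have hbw : (b : ℝ) = S0 ^ q * (η ^ β * w1) := by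
    rw [hw1]; field_simp
  -- Hensel
  obtain ⟨δ, hδ⟩ : ∃ δ, δ = (p : A) * τ ^ (α * q * r + 1) * evf τ (derivative g) := ⟨_, rfl⟩
  have hδ' : δ = ∑ x : Ix r p q, if ex r p q x = 0 then cf r p q α β G τ x * ((x.2 : ℕ) : A)
      else 0 := by
    rw [cf_der hG hp hq hpq α β hαβ τ, hδ]
  have hrp1 : 1 < r * p + 1 := by
    have : 0 < r * p := Nat.mul_pos hr hp
    omega
  obtain ⟨Y, hYX, hYP, hYbd⟩ := hensel_fam (cf r p q α β G τ) (ex r p q)
    (fun x : Ix r p q => (x.2 : ℕ)) (p * q * r + 1) (r * p + 1) (by omega) hrp1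
    (fun x => by unfold ex; omega) (fun x => x.2.2)
    (cf_zero hG hp hq hpq α β hαβ τ hτ) δ hδ'
  have hNδ : N δ ≤ nd r p q α H := by
    rw [hδ]
    refine (map_mul_le_mul N _ _).trans ?_
    unfold nd
    have hpd : pn zn (derivative g) ≤ r * H := by
      refine (pn_derivative_le zn g).trans ?_
      rw [hgd]
      exact mul_le_mul_of_nonneg_left hpg (by positivity)
    apply mul_le_mul _ _ (apply_nonneg _ _) (by positivity)
    · refine (N_natCast_mul_le N _ _).trans ?_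
      apply mul_le_mul_of_nonneg_left _ (by positivity)
      refine (seminorm_pow_le N h1 _ _).trans ?_
      exact pow_le_pow_left₀ (apply_nonneg _ _) hNτ _
    · refine (N_evf_le h1 (derivative g) r ((natDegree_derivative_le g).trans (by omega)) τ
        (1 + H) (by linarith) hNτ).trans ?_
      exact mul_le_mul_of_nonneg_right hpd (by positivity)
  have hNδT : N δ ≤ T := by linarith
  have hσδ : σ δ = p * η ^ (α * q * r + 1) * evf η (derivative g) := by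
    rw [hδ, map_mul, map_mul, map_pow, map_natCast, map_evf, hηd]
  have hσδ1 : 1 ≤ |σ δ| * dl := by
    rw [hσδ, hdl, abs_mul, abs_mul, abs_pow, Nat.abs_cast]
    unfold dd
    have hp1 : (1 : ℝ) ≤ p := by exact_mod_cast hp
    have e1 : 1 ≤ (|η| * H ^ (r + 1)) ^ (α * q * r + 1) := one_le_pow₀ hlow
    calc (1 : ℝ) = 1 * 1 * 1 := by ring
      _ ≤ p * (|η| * H ^ (r + 1)) ^ (α * q * r + 1) *
          (|evf η (derivative g)| * H322R2.cD r H) := by gcongr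
      _ = _ := by rw [mul_pow]; ring
  have hσδ0 : 0 < |σ δ| := by
    by_contra hcon
    have : |σ δ| = 0 := le_antisymm (not_lt.1 hcon) (abs_nonneg _)
    rw [this, zero_mul] at hσδ1
    linarith
  have hσδne : σ δ ≠ 0 := abs_pos.1 hσδ0
  have hsumcf : ∑ x : Ix r p q, N (cf r p q α β G τ x) * 2 ^ (x.2 : ℕ) ≤ Sc r p q α β H := by
    have e1 := sum_cf_le N h1 hp hG α β τ (1 + H) (by linarith) hNτ
    have e2 : ∑ x : Ix r p q, N (cf r p q α β G τ x) * 2 ^ (x.2 : ℕ)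
        ≤ (∑ x : Ix r p q, N (cf r p q α β G τ x)) * 2 ^ (r * p) := by
      rw [Finset.sum_mul]
      apply Finset.sum_le_sum
      intro x _
      apply mul_le_mul_of_nonneg_left _ (apply_nonneg _ _)
      exact pow_le_pow_right₀ (by norm_num) (by have := x.2.2; omega)
    refine e2.trans ?_
    unfold Sc
    apply mul_le_mul_of_nonneg_right _ (by positivity)
    refine e1.trans ?_
    exact mul_le_mul_of_nonneg_right hGH (by positivity)
  have hbd := hYbd N h1 T (by linarith) (by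
    rw [hTdef]
    unfold TT
    apply mul_le_mul _ hsumcf (Finset.sum_nonneg fun x _ =>
      mul_nonneg (apply_nonneg _ _) (by positivity)) (by positivity)
    apply pow_le_pow_left₀ (by positivity)
    exact max_le (by linarith) (by linarith))
  obtain ⟨ρH, hρH⟩ : ∃ ρH, ρH = 1 / (4 * T ^ 2) := ⟨_, rfl⟩
  rw [← hρH] at hbd
  have hρH0 : 0 < ρH := by rw [hρH]; positivity
  have hBρ : 1 / B ≤ ρH := by
    rw [hρH]
    exact one_div_le_one_div_of_le (by positivity) (by linarith)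
  have hiB0 : 0 ≤ 1 / B := by positivity
  have hbdB : Bd N (1 / B) Y (1 / (2 * T)) := hbd.of_le hiB0 hBρ
  obtain ⟨ωS, hωS⟩ : ∃ ωS : PowerSeries A, ωS = PowerSeries.C (δ ^ 2) * PowerSeries.X := ⟨_, rfl⟩
  obtain ⟨ωW, hωW⟩ : ∃ ωW : PowerSeries A, ωW = 1 + PowerSeries.C δ * Y := ⟨_, rfl⟩
  have hωSbd : Bd N (1 / B) ωS 1 := by
    rw [hωS]
    refine ((Bd.C hiB0 (δ ^ 2)).mul hiB0 (Bd.X hiB0 h1)).mono ?_
    have e1 : N (δ ^ 2) ≤ T ^ 2 := (seminorm_pow_le N h1 δ 2).trans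
      (pow_le_pow_left₀ (apply_nonneg _ _) hNδT 2)
    rw [mul_one_div, div_le_one hB0]
    have : T ^ 2 ≤ 4 * T ^ 2 := by linarith [sq_nonneg T]
    linarith
  have hωWbd : Bd N (1 / B) ωW 2 := by
    rw [hωW]
    refine ((Bd.one hiB0 h1).add hiB0 ((Bd.C hiB0 δ).mul hiB0 hbdB)).mono ?_
    have : N δ * (1 / (2 * T)) ≤ 1 := by
      rw [mul_one_div, div_le_one (by positivity)]
      linarith
    linarith
  have hωUbd : Bd N (1 / B) (PowerSeries.C (τ ^ α)) B := by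
    refine (Bd.C hiB0 (τ ^ α)).mono ?_
    have e1 : N (τ ^ α) ≤ (1 + H) ^ α := (seminorm_pow_le N h1 τ α).trans
      (pow_le_pow_left₀ (apply_nonneg _ _) hNτ α)
    linarith
  have hωVbd : Bd N (1 / B) (PowerSeries.C (τ ^ β) * ωW) B := by
    refine ((Bd.C hiB0 (τ ^ β)).mul hiB0 hωWbd).mono ?_
    have e1 : N (τ ^ β) ≤ (1 + H) ^ β := (seminorm_pow_le N h1 τ β).trans
      (pow_le_pow_left₀ (apply_nonneg _ _) hNτ β)
    linarith
  -- real series
  obtain ⟨y, yi, hy, hyi, hyy, hyp, hy0, hyi0⟩ := exists_root_series p hp (a : ℝ) ha2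
  obtain ⟨S, hS⟩ : ∃ S : PowerSeries ℝ, S = PowerSeries.C S0 * y := ⟨_, rfl⟩
  obtain ⟨θ, hθ⟩ : ∃ θ : PowerSeries ℝ, θ = PowerSeries.C (1 / ((σ δ) ^ 2 * S0)) * yi := ⟨_, rfl⟩
  have hSbd : Bd rn 1 S (B * Z) := by
    rw [hS]
    refine ((Bd.C (N := rn) zero_le_one S0).mul zero_le_one hy).mono ?_
    rw [rn_apply]
    calc |S0| * 2 ≤ (Z * (H ^ (r + 1)) ^ α) * 2 := by gcongr
      _ = (2 * (H ^ (r + 1)) ^ α) * Z := by ring
      _ ≤ B * Z := by
          apply mul_le_mul_of_nonneg_right _ hZ0.le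
          linarith
  have hdlinv : 1 / (σ δ) ^ 2 ≤ dl ^ 2 := by
    rw [div_le_iff₀ (by positivity)]
    have : 1 ^ 2 ≤ (|σ δ| * dl) ^ 2 := pow_le_pow_left₀ (by norm_num) hσδ1 2
    rw [mul_pow, sq_abs] at this
    linarith
  obtain ⟨ρ', hρ'⟩ : ∃ ρ', ρ' = 2 / ((σ δ) ^ 2 * |S0|) := ⟨_, rfl⟩
  have hρ'0 : 0 < ρ' := by rw [hρ']; positivity
  have hθbd' : Bd rn 1 θ ρ' := by
    rw [hθ]
    refine ((Bd.C (N := rn) zero_le_one (1 / ((σ δ) ^ 2 * S0))).mul zero_le_one hyi).mono ?_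
    rw [rn_apply, abs_div, abs_one, abs_mul, abs_of_nonneg (by positivity : 0 ≤ (σ δ) ^ 2), hρ']
    exact le_of_eq (by ring)
  have hρ'le : ρ' ≤ B / Z := by
    have e1 : ρ' = 2 * (1 / (σ δ) ^ 2) * (1 / |S0|) := by rw [hρ']; field_simp
    rw [e1]
    calc 2 * (1 / (σ δ) ^ 2) * (1 / |S0|) ≤ 2 * dl ^ 2 * (H ^ α / Z) := by gcongr
      _ = (2 * dl ^ 2 * H ^ α) / Z := by ring
      _ ≤ B / Z := by
          apply div_le_div_of_nonneg_right _ hZ0.le
          linarith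
  have hθbd : Bd rn 1 θ (B / Z) := hθbd'.mono hρ'le
  have hrad : B / Z ≤ 1 / B := by
    rw [div_le_div_iff₀ hZ0 hB0, one_mul, ← sq]
    exact hBZ
  have hθB : Bd rn 1 θ (1 / B) := hθbd.mono hrad
  have hmS : Bd rn (1 / B) (PowerSeries.map σ ωS) 1 := hωSbd.map σ hσ hiB0
  have hmW : Bd rn (1 / B) (PowerSeries.map σ ωW) 2 := hωWbd.map σ hσ hiB0
  have hsbS : sb θ (PowerSeries.map σ ωS) = PowerSeries.C (1 / S0) * yi := by
    rw [hωS, map_mul, PowerSeries.map_C, PowerSeries.map_X, map_pow,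
      sb_mul one_pos hθB (Bd.C hiB0 _) (Bd.X hiB0 rn_one), sb_C, sb_X, hθ, ← mul_assoc, ← map_mul]
    congr 2
    field_simp
  have hSθ : S * sb θ (PowerSeries.map σ ωS) = 1 := by
    rw [hsbS, hS]
    calc PowerSeries.C S0 * y * (PowerSeries.C (1 / S0) * yi)
        = (PowerSeries.C S0 * PowerSeries.C (1 / S0)) * (y * yi) := by ring
      _ = 1 := by
          rw [hyy, mul_one, ← map_mul]
          have : S0 * (1 / S0) = 1 := by field_simp
          rw [this, map_one]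
  have hU : PowerSeries.C (a : ℝ) + PowerSeries.X
      = S ^ p * sb θ (PowerSeries.map σ (PowerSeries.C (τ ^ α))) := by
    rw [PowerSeries.map_C, sb_C, map_pow, ← hηd, hS, mul_pow, ← hyp, ← map_pow, hS0p]
    have e1 : (a : ℝ) = ((a : ℝ) / η ^ α) * η ^ α := by field_simp
    conv_lhs => rw [e1, map_mul]
    ring
  have hmapV : sb θ (PowerSeries.map σ (PowerSeries.C (τ ^ β) * ωW))
      = PowerSeries.C (η ^ β) * sb θ (PowerSeries.map σ ωW) := by
    rw [map_mul, PowerSeries.map_C, map_pow, ← hηd, sb_mul one_pos hθB (Bd.C hiB0 _) hmW, sb_C]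
  -- the equation
  have hPsum : ∑ x : Ix r p q, PowerSeries.C (cf r p q α β G τ x) * ωS ^ ex r p q x *
      ωW ^ (x.2 : ℕ) = 0 := by
    rw [hωS, hωW]; exact hYP
  have hPreal : ∑ x : Ix r p q, PowerSeries.C (σ (cf r p q α β G τ x)) *
      (sb θ (PowerSeries.map σ ωS)) ^ ex r p q x * (sb θ (PowerSeries.map σ ωW)) ^ (x.2 : ℕ)
      = 0 := by
    have e1 := congrArg (fun u => sb θ (PowerSeries.map σ u)) hPsum
    simp only [map_sum, map_zero, sb_zero] at e1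
    rw [sb_sum one_pos hiB0 hθB univ _ (fun x => rn (σ (cf r p q α β G τ x)) * 1 ^ ex r p q x *
      2 ^ (x.2 : ℕ))] at e1
    · rw [← e1]
      apply Finset.sum_congr rfl
      intro x _
      rw [map_mul, map_mul, map_pow, map_pow, PowerSeries.map_C,
        sb_mul one_pos hθB ((Bd.C hiB0 _).mul hiB0 (hmS.pow hiB0 rn_one _))
          (hmW.pow hiB0 rn_one _),
        sb_mul one_pos hθB (Bd.C hiB0 _) (hmS.pow hiB0 rn_one _), sb_C,
        sb_pow one_pos hiB0 hθB hmS, sb_pow one_pos hiB0 hθB hmW]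
    · intro x _
      rw [map_mul, map_mul, map_pow, map_pow, PowerSeries.map_C]
      exact ((Bd.C hiB0 _).mul hiB0 (hmS.pow hiB0 rn_one _)).mul hiB0 (hmW.pow hiB0 rn_one _)
  have hF : ev (PowerSeries.C (a : ℝ) + PowerSeries.X)
      (S ^ q * sb θ (PowerSeries.map σ (PowerSeries.C (τ ^ β) * ωW))) G = 0 := by
    have e1 := ev_weighted hG hp α β ((PowerSeries.C (R := ℝ)).comp σ) τ S
      (sb θ (PowerSeries.map σ ωS)) (sb θ (PowerSeries.map σ ωW)) hSθ
    simp only [RingHom.comp_apply] at e1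
    rw [hPreal, mul_zero] at e1
    rw [hU, hmapV, PowerSeries.map_C, sb_C, map_pow, map_pow]
    rw [← hηd] at e1 ⊢
    rw [map_pow]
    exact e1
  -- the centre
  obtain ⟨W1, hW1⟩ : ∃ W1, W1 = PowerSeries.constantCoeff (sb θ (PowerSeries.map σ ωW)) := ⟨_, rfl⟩
  have hcs : PowerSeries.constantCoeff (sb θ (PowerSeries.map σ ωS)) = 1 / S0 := by
    rw [hsbS, map_mul, PowerSeries.constantCoeff_C, hyi0, mul_one]
  have hPW1 : ∑ x : Ix r p q, σ (cf r p q α β G τ x) * (1 / S0) ^ ex r p q x * W1 ^ (x.2 : ℕ)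
      = 0 := by
    have e1 := congrArg PowerSeries.constantCoeff hPreal
    rw [map_sum, map_zero] at e1
    rw [← e1]
    apply Finset.sum_congr rfl
    intro x _
    rw [map_mul, map_mul, map_pow, map_pow, PowerSeries.constantCoeff_C, hcs, hW1]
  have hPw1 : ∑ x : Ix r p q, σ (cf r p q α β G τ x) * (1 / S0) ^ ex r p q x * w1 ^ (x.2 : ℕ)
      = 0 := by
    have e1 := ev_weighted hG hp α β σ τ S0 (1 / S0) w1 (by field_simp)
    have e2 : S0 ^ p * σ τ ^ α = (a : ℝ) := by rw [← hηd, hS0p]; field_simp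
    rw [e2, ← hηd, ← hbw] at e1
    have e3 : ev (a : ℝ) (b : ℝ) G = 0 := by
      have h3 := map_ev (Int.castRingHom ℝ) a b G
      simp only [eq_intCast] at h3
      rw [← h3, hab]; simp
    rw [e3] at e1
    rcases mul_eq_zero.1 e1.symm with h | h
    · exact absurd h (pow_ne_zero _ hS0ne)
    · exact h
  have hsmallS : |1 / S0| ≤ ρ1 := by
    rw [abs_div, abs_one, hρ1]
    refine hS0inv.trans ?_
    rw [div_le_div_iff₀ hZ0 (by positivity)]
    have e2 : 1 ≤ T * dl := one_le_mul_of_one_le_of_one_le (by linarith) hdd1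
    have e1 : 2 * T * dl ≤ 8 * T ^ 2 * dl ^ 2 := by
      calc 2 * T * dl = 2 * (T * dl) * 1 := by ring
        _ ≤ 8 * (T * dl) * (T * dl) := by gcongr; norm_num
        _ = 8 * T ^ 2 * dl ^ 2 := by ring
    have e3 : (0 : ℝ) ≤ H ^ α := by positivity
    calc H ^ α * (2 * T * dl) ≤ H ^ α * (8 * T ^ 2 * dl ^ 2) := mul_le_mul_of_nonneg_left e1 e3
      _ = 8 * T ^ 2 * dl ^ 2 * H ^ α := by ring
      _ ≤ Z := hZ2
      _ = 1 * Z := by ring
  have hW1close : |W1 - 1| ≤ ρ1 := by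
    have hYσ : Bd rn ρH (PowerSeries.map σ Y) (1 / (2 * T)) := hbd.map σ hσ hρH0.le
    have hle2 : ρ' ≤ ρH := hρ'le.trans (hrad.trans hBρ)
    have hYσ' := hYσ.of_vanish hρH0 hρ'0.le hle2 1 (by
      intro n hn
      have hn0 : n = 0 := by omega
      rw [hn0, PowerSeries.coeff_map]
      have : PowerSeries.coeff 0 Y = 0 := by
        rw [PowerSeries.coeff_zero_eq_constantCoeff_apply]
        exact PowerSeries.X_dvd_iff.1 hYX
      rw [this, map_zero])
    have h3 := sb_coeff_le one_pos hθbd' hYσ' 0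
    rw [pow_zero, div_one, pow_one] at h3
    have hYB : Bd rn (1 / B) (PowerSeries.map σ Y) (1 / (2 * T)) := hbdB.map σ hσ hiB0
    have h4 : W1 = 1 + σ δ * PowerSeries.constantCoeff (sb θ (PowerSeries.map σ Y)) := by
      rw [hW1, hωW, map_add, map_mul, map_one, PowerSeries.map_C,
        sb_add one_pos hθB (Bd.one hiB0 rn_one) ((Bd.C hiB0 _).mul hiB0 hYB),
        sb_mul one_pos hθB (Bd.C hiB0 _) hYB, sb_C, sb_one]
      simp
    rw [h4, add_sub_cancel_left, abs_mul]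
    rw [PowerSeries.coeff_zero_eq_constantCoeff_apply] at h3
    calc |σ δ| * |PowerSeries.constantCoeff (sb θ (PowerSeries.map σ Y))|
        ≤ |σ δ| * (ρ' / ρH * (1 / (2 * T))) := mul_le_mul_of_nonneg_left h3 (abs_nonneg _)
      _ = 4 * T * (1 / |σ δ|) * (1 / |S0|) := by
          rw [hρ', hρH, ← sq_abs (σ δ)]
          field_simp
      _ ≤ 4 * T * dl * (H ^ α / Z) := by
          have h5 : 1 / |σ δ| ≤ dl := by
            rw [div_le_iff₀ hσδ0]; linarith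
          gcongr
      _ ≤ ρ1 := by
          rw [hρ1, mul_div_assoc', div_le_div_iff₀ hZ0 (by positivity)]
          calc 4 * T * dl * H ^ α * (2 * T * dl) = 8 * T ^ 2 * dl ^ 2 * H ^ α := by ring
            _ ≤ Z := hZ2
            _ = 1 * Z := by ring
  have hweq : W1 = w1 := by
    apply fam_unique (fun x => σ (cf r p q α β G τ x)) (ex r p q)
      (fun x : Ix r p q => (x.2 : ℕ)) (r * p) (fun x => by have := x.2.2; omega) (1 / S0) W1 w1 ρ1
      (by linarith) hsmallS hW1close hw1close (by rw [hPW1, hPw1])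
    have e1 : ∑ x : Ix r p q, (if ex r p q x = 0 then σ (cf r p q α β G τ x) * ((x.2 : ℕ) : ℝ)
        else 0) = σ δ := by
      rw [hδ', map_sum]
      apply Finset.sum_congr rfl
      intro x _
      split_ifs
      · rw [map_mul, map_natCast]
      · rw [map_zero]
    rw [e1]
    have e2 : ∑ x : Ix r p q, |σ (cf r p q α β G τ x)| ≤ H * (1 + H) ^ (α * (q * r)
        + β * (r * p)) := by
      refine (Finset.sum_le_sum (fun x _ => hσ _)).trans ?_
      refine (sum_cf_le N h1 hp hG α β τ (1 + H) (by linarith) hNτ).trans ?_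
      exact mul_le_mul_of_nonneg_right hGH (by positivity)
    have e3 : (∑ x : Ix r p q, |σ (cf r p q α β G τ x)|) * (((r * p : ℕ) : ℝ) * 2 ^ (r * p))
        ≤ T := by
      refine le_trans ?_ hTSc
      calc _ ≤ (H * (1 + H) ^ (α * (q * r) + β * (r * p))) *
            (((r * p : ℕ) : ℝ) * 2 ^ (r * p)) := by gcongr
        _ = _ := by unfold Sc; ring
    calc (∑ x : Ix r p q, |σ (cf r p q α β G τ x)|) * (((r * p : ℕ) : ℝ) * 2 ^ (r * p)) * ρ1
        ≤ T * ρ1 := mul_le_mul_of_nonneg_right e3 hρ1pos.le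
      _ = 1 / (2 * dl) := by rw [hρ1]; field_simp
      _ < 1 / dl := by
          apply one_div_lt_one_div_of_lt hdl0
          linarith
      _ ≤ |σ δ| := by
          rw [div_le_iff₀ hdl0]; exact hσδ1
  have hV : PowerSeries.constantCoeff
      (S ^ q * sb θ (PowerSeries.map σ (PowerSeries.C (τ ^ β) * ωW))) = (b : ℝ) := by
    rw [hmapV, map_mul, map_mul, map_pow, PowerSeries.constantCoeff_C, ← hW1, hweq, hS, map_mul,
      PowerSeries.constantCoeff_C, hy0, mul_one, hbw]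
  refine ⟨⟨ωS, PowerSeries.C (τ ^ α), PowerSeries.C (τ ^ β) * ωW, Z, 1, θ, S, hp, hq, hB2, hZ,
    hBZ, le_rfl, hωSbd, hωUbd, hωVbd, hθbd, hSbd, hSθ, hU, hV, hF, ?_, ?_, ?_⟩, rfl⟩
  · exact der_ne_zero hG hp hr hprime hH hGH a b hab (lt_of_lt_of_le hZ3 hZa)
  · exact der_le hG hp hr hH hGH a b hab Z hZ1 hZ hZ4
  · linarith

end mk

end Pool.Agent.Y910.S
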